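import Mathlib

/-!
# Shifted Goldbach representations with three almost primes (MP_9c53e9_nt): definitions

Plan (PI helper63). `core` (CoreB.lean, proved): primes in a residue class avoiding three classes modulo every prime up to `x^δ`.
`Tgt j`: there are many representations `n = p + c(n) q` in which the `j`-th of the numbers `p, p - d₁, q, q + d₂` is prime and all four have no
prime factor `≤ n^δ`. `Tgt 0` (P0.lean), `Tgt 2` (Q0.lean) from `core1` (Cor1.lean) and the local solutions (Loc.lean); `Tgt 0 → Tgt 1`, `Tgt 2 → Tgt 3` (Sh.lean) by the shifts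
`(n, d₁) → (n - d₁, - d₁)` and `(n, d₂) → (n + c(n) d₂, - d₂)`.
-/

set_option autoImplicit false

namespace Pool.Agent.H63.SG

/-- `c(n) = 1` for even `n` and `c(n) = 2` for odd `n` -/
def cc (n : ℕ) : ℕ := if n % 2 = 0 then 1 else 2

/-- the four numbers `p`, `p - d₁`, `q`, `q + d₂` -/
def Quad (d₁ d₂ : ℤ) (p q : ℕ) : Fin 4 → ℤ := ![(p : ℤ), (p : ℤ) - d₁, (q : ℤ), (q : ℤ) + d₂]

/-- Many representations in which the `j`-th number is prime and the four numbers have no small prime factor, for all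
`n ≥ N + C (K + |d₁| + |d₂|)`. (`K` is arbitrary: `q + K ≤ p`, `K ≤ q`.) -/
def Tgt (j : Fin 4) : Prop :=
  ∃ δ : ℝ, 0 < δ ∧ ∃ κ : ℝ, 0 < κ ∧ ∃ N C : ℕ, ∀ (K : ℕ) (d₁ d₂ : ℤ), (6 : ℤ) ∣ d₁ → (6 : ℤ) ∣ d₂ →
    ∀ n : ℕ, N + C * (K + d₁.natAbs + d₂.natAbs) ≤ n →
    ∃ F : Finset (ℕ × ℕ), κ * ((n : ℝ) / Real.log n ^ 4) ≤ (F.card : ℝ) ∧
      ∀ e ∈ F, n = e.1 + cc n * e.2 ∧ e.2 + K ≤ e.1 ∧ K ≤ e.2 ∧ (Quad d₁ d₂ e.1 e.2 j).natAbs.Prime ∧
        ∀ i, ∀ l : ℕ, l.Prime → (l : ℤ) ∣ Quad d₁ d₂ e.1 e.2 i → (n : ℝ) ^ δ < l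

end Pool.Agent.H63.SG
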