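import Pool.Agent.H63.SG.Df

/-!
# ROW Loc: the local solutions at the primes up to 12

PROOF. For each of the five primes `l` in `{2,3,5,7,11}` find a residue `r_l` mod `l`, then use the Chinese remainder theorem (e.g. `Nat.chineseRemainderOfFinset`, or
`Int`/`ZMod` versions). `l = 2`: `r = 1` (`n - c(n)` is odd, `d₁`, `d₂` even). `l = 3`: `d₁ = d₂ = 0` mod `3`: avoid `0` and `n / c(n)`. `l = 5, 7, 11`: avoid the at most four classes
`0, - d₂, n/c, (n - d₁)/c` in the field `ZMod l` (`c` is invertible), e.g. by `Finset.exists_mem_notMem_of_card_lt_card` or by `decide` for each `l` (`c = 1, 2`).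
-/

set_option autoImplicit false

namespace Pool.Agent.H63.SG

/-- the four conditions at `l` -/
def LP (n c d₁ d₂ l q : ℤ) : Prop :=
  ¬ l ∣ q ∧ ¬ l ∣ q + d₂ ∧ ¬ l ∣ n - c * q ∧ ¬ l ∣ n - c * q - d₁

lemma LP_transfer (n c d₁ d₂ l q r : ℤ) (h : l ∣ q - r) (hr : LP n c d₁ d₂ l r) :
    LP n c d₁ d₂ l q := by
  obtain ⟨h1, h2, h3, h4⟩ := hr
  refine ⟨fun H => h1 ?_, fun H => h2 ?_, fun H => h3 ?_, fun H => h4 ?_⟩
  · have := dvd_sub H h
    rwa [show q - (q - r) = r by ring] at this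
  · have := dvd_sub H h
    rwa [show q + d₂ - (q - r) = r + d₂ by ring] at this
  · have := dvd_add H (h.mul_left c)
    rwa [show n - c * q + c * (q - r) = n - c * r by ring] at this
  · have := dvd_add H (h.mul_left c)
    rwa [show n - c * q - d₁ + c * (q - r) = n - c * r - d₁ by ring] at this

lemma LP_big (n c d₁ d₂ : ℤ) (l : ℕ) (hl : l.Prime) (h5 : 5 ≤ l) (hc : c = 1 ∨ c = 2) :
    ∃ r : ℤ, LP n c d₁ d₂ (l : ℤ) r := by
  have : Fact l.Prime := ⟨hl⟩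
  have hc0 : (c : ZMod l) ≠ 0 := by
    intro H
    rw [ZMod.intCast_zmod_eq_zero_iff_dvd] at H
    rcases hc with rfl | rfl
    · have := Int.le_of_dvd (by norm_num) H
      omega
    · have := Int.le_of_dvd (by norm_num) H
      omega
  obtain ⟨q, hq⟩ : ∃ q : ZMod l, q ∉ ({0, -(d₂ : ZMod l), (n : ZMod l) / c,
      ((n : ZMod l) - d₁) / c} : Finset (ZMod l)) := by
    by_contra hcon
    push Not at hcon
    have h1 : (Finset.univ : Finset (ZMod l)).card ≤ _ :=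
      Finset.card_le_card (fun x _ => hcon x)
    rw [Finset.card_univ, ZMod.card] at h1
    have h2 := h1.trans Finset.card_le_four
    omega
  simp only [Finset.mem_insert, Finset.mem_singleton, not_or] at hq
  obtain ⟨h1, h2, h3, h4⟩ := hq
  obtain ⟨r, rfl⟩ := ZMod.intCast_surjective q
  refine ⟨r, fun H => h1 ?_, fun H => h2 ?_, fun H => h3 ?_, fun H => h4 ?_⟩
  · exact (ZMod.intCast_zmod_eq_zero_iff_dvd _ _).2 H
  · have := (ZMod.intCast_zmod_eq_zero_iff_dvd _ _).2 H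
    push_cast at this
    exact eq_neg_of_add_eq_zero_left this
  · have := (ZMod.intCast_zmod_eq_zero_iff_dvd _ _).2 H
    push_cast at this
    rw [eq_div_iff hc0]
    linear_combination -this
  · have := (ZMod.intCast_zmod_eq_zero_iff_dvd _ _).2 H
    push_cast at this
    rw [eq_div_iff hc0]
    linear_combination -this

theorem Loc_q (n : ℕ) (d₁ d₂ : ℤ) (h1 : (6 : ℤ) ∣ d₁) (h2 : (6 : ℤ) ∣ d₂) : ∃ q₀ : ℤ, ∀ l : ℕ, l.Prime → l ≤ 12 →
    ¬ (l : ℤ) ∣ q₀ ∧ ¬ (l : ℤ) ∣ q₀ + d₂ ∧ ¬ (l : ℤ) ∣ (n : ℤ) - (cc n : ℤ) * q₀ ∧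
      ¬ (l : ℤ) ∣ (n : ℤ) - (cc n : ℤ) * q₀ - d₁ := by
  have hcn : (n % 2 = 0 ∧ cc n = 1) ∨ (n % 2 = 1 ∧ cc n = 2) := by
    unfold cc
    split_ifs with h
    · exact Or.inl ⟨h, rfl⟩
    · exact Or.inr ⟨by omega, rfl⟩
  obtain ⟨a, rfl⟩ := h1
  obtain ⟨b, rfl⟩ := h2
  obtain ⟨c, hc⟩ : ∃ c : ℤ, c = (cc n : ℤ) := ⟨_, rfl⟩
  rw [← hc]
  have hcn' : ((n : ℤ) % 2 = 0 ∧ c = 1) ∨ ((n : ℤ) % 2 = 1 ∧ c = 2) := by
    rcases hcn with ⟨h, h'⟩ | ⟨h, h'⟩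
    · left
      rw [h'] at hc
      exact ⟨by omega, by exact_mod_cast hc⟩
    · right
      rw [h'] at hc
      exact ⟨by omega, by exact_mod_cast hc⟩
  have hc12 : c = 1 ∨ c = 2 := by
    rcases hcn' with ⟨_, h⟩ | ⟨_, h⟩
    · exact Or.inl h
    · exact Or.inr h
  have e2 : LP n c (6 * a) (6 * b) 2 1 := by
    rcases hcn' with ⟨h, rfl⟩ | ⟨h, rfl⟩
    · refine ⟨?_, ?_, ?_, ?_⟩ <;> omega
    · refine ⟨?_, ?_, ?_, ?_⟩ <;> omega
  obtain ⟨r3, e3⟩ : ∃ r : ℤ, LP n c (6 * a) (6 * b) 3 r := by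
    rcases hcn' with ⟨h, rfl⟩ | ⟨h, rfl⟩
    · by_cases h3 : (n : ℤ) % 3 = 1
      · exact ⟨2, by refine ⟨?_, ?_, ?_, ?_⟩ <;> omega⟩
      · exact ⟨1, by refine ⟨?_, ?_, ?_, ?_⟩ <;> omega⟩
    · by_cases h3 : (n : ℤ) % 3 = 2
      · exact ⟨2, by refine ⟨?_, ?_, ?_, ?_⟩ <;> omega⟩
      · exact ⟨1, by refine ⟨?_, ?_, ?_, ?_⟩ <;> omega⟩
  obtain ⟨r5, e5⟩ := LP_big n c (6 * a) (6 * b) 5 (by norm_num) (by norm_num) hc12
  obtain ⟨r7, e7⟩ := LP_big n c (6 * a) (6 * b) 7 (by norm_num) (by norm_num) hc12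
  obtain ⟨r11, e11⟩ := LP_big n c (6 * a) (6 * b) 11 (by norm_num) (by norm_num) hc12
  refine ⟨1155 + 1540 * r3 + 1386 * r5 + 330 * r7 + 210 * r11, fun l hl hl12 => ?_⟩
  have hcase : l = 2 ∨ l = 3 ∨ l = 5 ∨ l = 7 ∨ l = 11 := by
    have h0 := hl.two_le
    interval_cases l <;> first | omega | (exfalso; revert hl; decide)
  rcases hcase with rfl | rfl | rfl | rfl | rfl
  · exact LP_transfer n c (6 * a) (6 * b) 2 _ 1 (by omega) e2
  · exact LP_transfer n c (6 * a) (6 * b) 3 _ r3 (by omega) e3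
  · exact LP_transfer n c (6 * a) (6 * b) 5 _ r5 (by omega) e5
  · exact LP_transfer n c (6 * a) (6 * b) 7 _ r7 (by omega) e7
  · exact LP_transfer n c (6 * a) (6 * b) 11 _ r11 (by omega) e11

end Pool.Agent.H63.SG
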