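import Pool.Agent.H63.SG.CoreB
import Pool.Agent.H63.SG.Df
import Pool.Agent.H63.SG.Loc

/-!
# ROW AB: primes `t` such that `t - s` has no small prime factor

PROOF. Copy of `core1` (`Cor1.lean`, reuse its lemmas) with `coreM 1 (by norm_num) Fac1` and one class `u l = s`. Modulus `M = 2310`, class `a` with `a`, `a - s` coprime to `2310`: for each prime `l ∈ {2,3,5,7,11}` a residue `r_l ≠ 0, s` mod `l`
(`l = 2`: `r = 1`, `s` even; `l = 3`: `r = 1`, `3 ∣ s`; `l = 5, 7, 11`: two classes to avoid), and the Chinese remainder theorem; it is contained in `Loc_q` of `Loc.lean`: apply it with `n = 0`?? no: simply take `Loc_q n (-s)...`: `Loc_q 2 0 (-s)` gives `q₀` with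
`l ∤ q₀`, `l ∤ q₀ - s` for all primes `l ≤ 12`; take `a = q₀`. For `t ∈ F`: `l ≤ 12`: `l ∣ 2310 ∣ t - a`, so `l ∤ t - s`; `12 < l ≤ x^δ`: `t ≠ s` in `ZMod l`; `l ∣ t` means `l = t > y ≥ x/8 > x^δ` for large `x` (`P0_pow2` in `P0.lean` is similar).
-/

set_option autoImplicit false

open Finset

namespace Pool.Agent.H63.SG

theorem AB_le {l : ℕ} (hl : l.Prime) (h : l ∣ 2310) : l ≤ 12 := by
  have h1 : l ∣ 2 * 3 * 5 * 7 * 11 := h
  rcases (Nat.Prime.dvd_mul hl).1 h1 with h1 | h1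
  · rcases (Nat.Prime.dvd_mul hl).1 h1 with h1 | h1
    · rcases (Nat.Prime.dvd_mul hl).1 h1 with h1 | h1
      · rcases (Nat.Prime.dvd_mul hl).1 h1 with h1 | h1
        · have := Nat.le_of_dvd (by norm_num) h1
          omega
        · have := Nat.le_of_dvd (by norm_num) h1
          omega
      · have := Nat.le_of_dvd (by norm_num) h1
        omega
    · have := Nat.le_of_dvd (by norm_num) h1
      omega
  · have := Nat.le_of_dvd (by norm_num) h1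
    omega

theorem AB_dvd {l : ℕ} (hl : l.Prime) (h : l ≤ 12) : (l : ℤ) ∣ 2310 := by
  have h2 := hl.two_le
  have hcase : l = 2 ∨ l = 3 ∨ l = 5 ∨ l = 7 ∨ l = 11 := by
    interval_cases l <;> first | omega | (exfalso; revert hl; decide)
  rcases hcase with rfl | rfl | rfl | rfl | rfl <;> norm_num

theorem AB_pow {x y : ℕ} {δ : ℝ} (hδ1 : δ ≤ 1 / 8) (hx : 100 ≤ x) (h : x ≤ 8 * y) :
    (x : ℝ) ^ δ ≤ (y : ℝ) := by
  have hn' : (100 : ℝ) ≤ x := by exact_mod_cast hx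
  have h' : (x : ℝ) ≤ 8 * y := by exact_mod_cast h
  have h1 : Real.sqrt x ≤ y := by
    have h2 : Real.sqrt x * Real.sqrt x = x := Real.mul_self_sqrt (by linarith)
    have h3 : 10 ≤ Real.sqrt x := by
      rw [show (10 : ℝ) = Real.sqrt 100 by
        rw [show (100 : ℝ) = 10 ^ 2 by norm_num, Real.sqrt_sq (by norm_num)]]
      exact Real.sqrt_le_sqrt hn'
    nlinarith
  refine le_trans ?_ h1
  rw [Real.sqrt_eq_rpow]
  exact Real.rpow_le_rpow_of_exponent_le (by linarith) (by linarith)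

theorem AB_low : ∃ δ : ℝ, 0 < δ ∧ δ ≤ 1 / 8 ∧ ∃ κ : ℝ, 0 < κ ∧ ∃ X0 : ℕ, ∀ x y : ℕ, X0 ≤ x → y ≤ x → x ≤ 8 * (x - y) → x ≤ 8 * y →
    ∀ s : ℤ, (6 : ℤ) ∣ s → ∃ F : Finset ℕ, κ * ((x : ℝ) / Real.log x ^ 2) ≤ (F.card : ℝ) ∧
      ∀ t ∈ F, y < t ∧ t ≤ x ∧ t.Prime ∧ ∀ l : ℕ, l.Prime → (l : ℝ) ≤ (x : ℝ) ^ δ → ¬ (l : ℤ) ∣ (t : ℤ) ∧ ¬ (l : ℤ) ∣ (t : ℤ) - s := by
  obtain ⟨δ, hδ0, hδ1, H⟩ := coreM 1 (by norm_num) Fac1
  obtain ⟨κ, hκ, X0, H1⟩ := H 2310 (by norm_num) (fun l hl hl12 => by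
    refine ((Nat.Prime.coprime_iff_not_dvd hl).2 (fun h => ?_)).symm
    have := AB_le hl h
    omega)
  refine ⟨δ, hδ0, hδ1, κ, hκ, max X0 100, fun x y hx hyx h1 h2 s hs => ?_⟩
  have hx0 : X0 ≤ x := le_trans (le_max_left _ _) hx
  have hx100 : 100 ≤ x := le_trans (le_max_right _ _) hx
  obtain ⟨a, ha⟩ := Loc_q 2 0 (-s) (dvd_zero _) ((dvd_neg).2 hs)
  have ha0 : 0 ≤ a % 2310 := Int.emod_nonneg a (by norm_num)
  have ha1 : (((a % 2310).toNat : ℕ) : ℤ) = a % 2310 := Int.toNat_of_nonneg ha0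
  have hcop : Nat.Coprime (a % 2310).toNat 2310 := by
    by_contra hc
    obtain ⟨l, hl, hl1, hl2⟩ := Nat.Prime.not_coprime_iff_dvd.1 hc
    apply (ha l hl (AB_le hl hl2)).1
    have h3 : (l : ℤ) ∣ a % 2310 := by
      rw [← ha1]
      exact Int.natCast_dvd_natCast.2 hl1
    have h4 : (l : ℤ) ∣ 2310 := by exact_mod_cast hl2
    have h5 := Int.emod_add_mul_ediv a 2310
    rw [← h5]
    exact dvd_add h3 (Dvd.dvd.mul_right h4 _)
  obtain ⟨F, hF1, hF2⟩ := H1 x y hx0 hyx h1 h2 (a % 2310).toNat hcop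
    (fun l => ({(s : ZMod l)} : Finset (ZMod l)).image ZMod.val)
    (fun l => card_image_le.trans (by simp))
  refine ⟨F, by simpa using hF1, fun t ht => ?_⟩
  obtain ⟨k1, k2, k3, k4, k5⟩ := hF2 t ht
  refine ⟨k1, k2, k3, fun l hl hlx => ?_⟩
  have hta : (2310 : ℤ) ∣ (t : ℤ) - a := by
    have h3 : (((a % 2310).toNat : ℕ) : ℤ) ≡ (t : ℤ) [ZMOD ((2310 : ℕ) : ℤ)] :=
      Int.natCast_modEq_iff.2 k4.symm
    have h4 := h3.dvd
    rw [ha1] at h4
    have h6 : (2310 : ℤ) ∣ (t : ℤ) - a % 2310 := by exact_mod_cast h4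
    have h7 : (t : ℤ) - a = ((t : ℤ) - a % 2310) - 2310 * (a / 2310) := by omega
    rw [h7]
    exact dvd_sub h6 (dvd_mul_right _ _)
  rcases le_or_gt l 12 with hl12 | hl12
  · obtain ⟨a1, a2, -, -⟩ := ha l hl hl12
    have hlt : (l : ℤ) ∣ (t : ℤ) - a := (AB_dvd hl hl12).trans hta
    refine ⟨fun h => a1 ?_, fun h => a2 ?_⟩
    · have := dvd_sub h hlt
      rwa [show (t : ℤ) - ((t : ℤ) - a) = a by ring] at this
    · have := dvd_sub h hlt
      rwa [show (t : ℤ) - s - ((t : ℤ) - a) = a + -s by ring] at this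
  · refine ⟨fun h => ?_, fun h => ?_⟩
    · have h3 : l ∣ t := Int.natCast_dvd_natCast.1 h
      have h4 : l = t := (Nat.prime_dvd_prime_iff_eq hl k3).1 h3
      have h5 := AB_pow hδ1 hx100 h2
      have h6 : (y : ℝ) < (t : ℝ) := by exact_mod_cast k1
      rw [h4] at hlx
      linarith
    · apply k5 l hl hl12 hlx
      have h4 := (ZMod.intCast_zmod_eq_zero_iff_dvd _ l).2 h
      push_cast at h4
      have h5 : (t : ZMod l) = (s : ZMod l) := sub_eq_zero.1 h4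
      rw [← ZMod.val_natCast, h5]
      exact mem_image_of_mem _ (by simp)

end Pool.Agent.H63.SG
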