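import Pool.Agent.H63.SG.CoreB

/-!
# Refined lower bound: exact factors at the primes where the class is `0`
-/

set_option autoImplicit false

open Finset

namespace Pool.Agent.H63.SG

open H69PG BVL

theorem CoreU_prod {m : ℕ} (hm : Fac m) (hm1 : 1 ≤ m) {z : ℕ} (hz : 12 ≤ z) (d : ℕ → ℕ) (hd : ∀ l, d l ≤ m) (Zs : Finset ℕ)
    (hZs : ∀ l ∈ Zs, l ∈ PK 12 z ∧ d l = 0) :
    (1 / 6 : ℝ) * (VV 12 z 1) ^ m * ∏ l ∈ Zs, (1 + 1 / (l : ℝ)) ≤ ∏ l ∈ PK 12 z, (1 - (d l : ℝ) / ((l : ℝ) - 1)) := by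
  classical
  have hZ0 : (0 : ℝ) ≤ ∏ l ∈ Zs, (1 + 1 / (l : ℝ)) := prod_nonneg (fun l _ => by positivity)
  have h0 : (1 / 6 : ℝ) * (VV 12 z 1) ^ m ≤ ∏ l ∈ PK 12 z, ((1 - ((1 : ℕ) : ℝ) / l) ^ m * (1 - 10 / (l : ℝ) ^ 2)) := by
    rw [prod_mul_distrib, prod_pow]
    have h2 : (1 / 6 : ℝ) ≤ ∏ l ∈ PK 12 z, (1 - 10 / (l : ℝ) ^ 2) := by
      refine le_trans ?_ (Core_one_sub (PK 12 z) (fun l => 10 / (l : ℝ) ^ 2) (fun l _ => by positivity) (fun l hl => ?_))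
      · have h3 : ∑ l ∈ PK 12 z, (10 / (l : ℝ) ^ 2) ≤ ∑ l ∈ Ioc 12 z, (10 / (l : ℝ) ^ 2) :=
          sum_le_sum_of_subset_of_nonneg (filter_subset _ _) (fun l _ _ => by positivity)
        have h4 : ∑ l ∈ Ioc 12 z, (10 / (l : ℝ) ^ 2) = 10 * ∑ l ∈ Ioc 12 z, ((l : ℝ) ^ 2)⁻¹ := by
          rw [mul_sum]
          exact sum_congr rfl (fun l _ => by rw [div_eq_mul_inv])
        have h5 := sum_Ioc_inv_sq_le_sub (α := ℝ) (k := 12) (n := z) (by norm_num) hz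
        have h6 : (0 : ℝ) ≤ ((z : ℝ))⁻¹ := by positivity
        rw [h4] at h3
        norm_num at h5
        linarith
      · have hl' : (13 : ℝ) ≤ l := by exact_mod_cast (bh_mem_PK.1 hl).1
        show 10 / (l : ℝ) ^ 2 ≤ 1
        rw [div_le_one (by positivity)]
        nlinarith
    have h3 : (0 : ℝ) ≤ (VV 12 z 1) ^ m := pow_nonneg (vv_pos (by norm_num)).le m
    have h4 : (VV 12 z 1) ^ m = (∏ l ∈ PK 12 z, (1 - ((1 : ℕ) : ℝ) / l)) ^ m := rfl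
    rw [← h4]
    nlinarith
  have e1 : ∏ l ∈ Zs, (1 + 1 / (l : ℝ)) = ∏ l ∈ PK 12 z, (if l ∈ Zs then (1 + 1 / (l : ℝ)) else 1) := by
    rw [← prod_filter]
    refine prod_congr ?_ (fun _ _ => rfl)
    ext l
    rw [mem_filter]
    exact ⟨fun h => ⟨(hZs l h).1, h⟩, fun h => h.2⟩
  refine (mul_le_mul_of_nonneg_right h0 hZ0).trans ?_
  rw [e1, ← prod_mul_distrib]
  refine prod_le_prod (fun l hl => ?_) (fun l hl => ?_)
  · have hl' : (13 : ℝ) ≤ l := by exact_mod_cast (bh_mem_PK.1 hl).1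
    have h2 : ((1 : ℕ) : ℝ) / l ≤ 1 := by
      rw [div_le_one (by linarith), Nat.cast_one]
      linarith
    have h3 : 10 / (l : ℝ) ^ 2 ≤ 1 := by
      rw [div_le_one (by positivity)]
      nlinarith
    have h4 : (0 : ℝ) ≤ (if l ∈ Zs then (1 + 1 / (l : ℝ)) else 1) := by split_ifs <;> positivity
    exact mul_nonneg (mul_nonneg (pow_nonneg (by linarith) m) (by linarith)) h4
  · have hl12 := (bh_mem_PK.1 hl).1
    have hl' : (13 : ℝ) ≤ l := by exact_mod_cast hl12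
    split_ifs with h
    · rw [(hZs l h).2, Nat.cast_zero, zero_div, sub_zero, Nat.cast_one]
      obtain ⟨u, hu⟩ : ∃ u : ℝ, u = 1 / (l : ℝ) := ⟨_, rfl⟩
      have hu0 : 0 < u := by rw [hu]; positivity
      have hu1 : u ≤ 1 / 13 := by
        rw [hu]
        exact one_div_le_one_div_of_le (by norm_num) hl'
      have e2 : 10 / (l : ℝ) ^ 2 = 10 * u ^ 2 := by
        rw [hu]
        field_simp
      rw [e2, ← hu]
      have h5 : (1 - u) ^ m ≤ 1 - u := by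
        calc (1 - u) ^ m ≤ (1 - u) ^ 1 := pow_le_pow_of_le_one (by linarith) (by linarith) hm1
          _ = 1 - u := pow_one _
      have h6 : 0 ≤ (1 - u) ^ m := pow_nonneg (by linarith) m
      have h7 : 0 ≤ 1 - 10 * u ^ 2 := by nlinarith
      calc (1 - u) ^ m * (1 - 10 * u ^ 2) * (1 + u) ≤ (1 - u) * 1 * (1 + u) := by
            refine mul_le_mul_of_nonneg_right ?_ (by linarith)
            exact mul_le_mul h5 (by nlinarith) h7 (by linarith)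
        _ ≤ 1 := by nlinarith
    · rw [mul_one]
      exact hm l hl12 _ (hd l)

theorem coreU (m : ℕ) (hm3 : m ≤ 3) (hm1 : 1 ≤ m) (hm : Fac m) : ∃ δ : ℝ, 0 < δ ∧ δ ≤ 1 / 8 ∧ ∀ M : ℕ, 1 ≤ M → (∀ l : ℕ, l.Prime → 12 < l → Nat.Coprime M l) →
    ∃ κ : ℝ, 0 < κ ∧ ∃ X0 : ℕ, ∀ x y : ℕ, X0 ≤ x → y ≤ x → x ≤ 8 * (x - y) → x ≤ 8 * y →
      ∀ a : ℕ, Nat.Coprime a M → ∀ D : ℕ → Finset ℕ, (∀ l, (D l).card ≤ m) → ∀ Zs : Finset ℕ,
      (∀ l ∈ Zs, l.Prime ∧ 12 < l ∧ (l : ℝ) ≤ (x : ℝ) ^ δ ∧ ∀ r ∈ D l, r % l = 0) →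
      ∃ F : Finset ℕ, κ * ((x : ℝ) / Real.log x ^ (m + 1)) * ∏ l ∈ Zs, (1 + 1 / (l : ℝ)) ≤ (F.card : ℝ) ∧
        ∀ t ∈ F, y < t ∧ t ≤ x ∧ t.Prime ∧ t ≡ a [MOD M] ∧
          ∀ l : ℕ, l.Prime → 12 < l → (l : ℝ) ≤ (x : ℝ) ^ δ → t % l ∉ D l := by
  classical
  obtain ⟨C0, hC0, HB⟩ := H60PP.bhG
  obtain ⟨c, hc1, -, -, -, hcV, -⟩ := Pool.Agent.H67.GT.MERT.mert
  set b0 : ℕ := C0 * (3 + 1) with hb0
  set D0 : ℕ := 4 * b0 + 10 with hD0
  have hD0r : (0 : ℝ) < D0 := by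
    have : 0 < D0 := by omega
    exact_mod_cast this
  set δ : ℝ := 1 / (8 * (D0 : ℝ)) with hδ
  have hδ0 : 0 < δ := by positivity
  have hδ1 : δ ≤ 1 / 8 := by
    rw [hδ]
    apply one_div_le_one_div_of_le (by norm_num)
    have : (1 : ℝ) ≤ D0 := by
      have : 1 ≤ D0 := by omega
      exact_mod_cast this
    linarith
  refine ⟨δ, hδ0, hδ1, fun M hM hMc => ?_⟩
  obtain ⟨N0, hN0⟩ := bv_pi (ε := 1 / 4) (by norm_num) 6 3
  have hφ : (0 : ℝ) < (Nat.totient M : ℝ) := by exact_mod_cast Nat.totient_pos.2 hM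
  have hc0 : 0 < c := by linarith
  set κ0 : ℝ := 1 / (96 * (Nat.totient M : ℝ) * c ^ m) with hκ0
  have hκ0p : 0 < κ0 := by positivity
  obtain ⟨X1, hX1⟩ := Core_ev δ hδ0 M (20 / κ0)
  refine ⟨κ0 / 2, by positivity, max N0 X1, fun x y hx hyx hxy hy8 a ha D hD Zs hZs => ?_⟩
  obtain ⟨hx100, hxL, hxl1, hx13, hxM⟩ := hX1 x ((le_max_right _ _).trans hx)
  obtain ⟨E, hE0, hE1, hE2⟩ := hN0 x ((le_max_left _ _).trans hx)
  have hxr : (100 : ℝ) ≤ x := by exact_mod_cast hx100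
  have hx0 : (0 : ℝ) < x := by linarith
  have hl0 : 0 < Real.log x := by linarith
  -- the sifting level
  set z : ℕ := ⌊(x : ℝ) ^ δ⌋₊ with hz
  have hz12 : 12 ≤ z := by
    rw [hz]
    exact Nat.le_floor (by push_cast; linarith)
  have hzx : (z : ℝ) ≤ (x : ℝ) ^ δ := Nat.floor_le (by positivity)
  have hz0 : (0 : ℝ) < z := by
    have : 0 < z := by omega
    exact_mod_cast this
  have hlz : Real.log z ≤ Real.log x := by
    have h1 : (x : ℝ) ^ δ ≤ (x : ℝ) ^ (1 : ℝ) :=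
      Real.rpow_le_rpow_of_exponent_le (by linarith) (by linarith)
    rw [Real.rpow_one] at h1
    exact Real.log_le_log hz0 (hzx.trans h1)
  have hlz0 : 0 < Real.log z := by
    apply Real.log_pos
    have : 1 < z := by omega
    exact_mod_cast this
  -- `z` is smaller than `y`
  have hzy : (x : ℝ) ^ δ < y := by
    have h1 : (x : ℝ) ^ δ ≤ (x : ℝ) ^ (1 / 2 : ℝ) :=
      Real.rpow_le_rpow_of_exponent_le (by linarith) (by linarith)
    rw [← Real.sqrt_eq_rpow] at h1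
    have h2 : Real.sqrt x * Real.sqrt x = x := Real.mul_self_sqrt hx0.le
    have h3 : 10 ≤ Real.sqrt x := by
      rw [show (10 : ℝ) = Real.sqrt 100 by
        rw [show (100 : ℝ) = 10 ^ 2 by norm_num, Real.sqrt_sq (by norm_num)]]
      exact Real.sqrt_le_sqrt hxr
    have h4 : (x : ℝ) ≤ 8 * y := by exact_mod_cast hy8
    nlinarith
  have hy2 : 2 ≤ y := by omega
  -- the level of distribution
  set Q : ℕ := ⌊(x : ℝ) ^ (1 / 2 - 1 / 4 : ℝ)⌋₊ with hQ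
  have hzD : ((z ^ D0 : ℕ) : ℝ) ≤ (x : ℝ) ^ (1 / 8 : ℝ) := by
    rw [Nat.cast_pow]
    calc (z : ℝ) ^ D0 ≤ ((x : ℝ) ^ δ) ^ D0 := pow_le_pow_left₀ hz0.le hzx D0
      _ = (x : ℝ) ^ (1 / 8 : ℝ) := by
        rw [← Real.rpow_natCast, ← Real.rpow_mul hx0.le]
        congr 1
        rw [hδ]
        field_simp
  have hQM : M * z ^ D0 ≤ Q := by
    rw [hQ]
    apply Nat.le_floor
    rw [Nat.cast_mul]
    calc (M : ℝ) * ((z ^ D0 : ℕ) : ℝ) ≤ (x : ℝ) ^ (1 / 8 : ℝ) * (x : ℝ) ^ (1 / 8 : ℝ) :=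
          mul_le_mul hxM hzD (by positivity) (by positivity)
      _ = (x : ℝ) ^ (1 / 2 - 1 / 4 : ℝ) := by
        rw [← Real.rpow_add hx0]
        norm_num
  have hEQ : ∀ q : ℕ, 1 ≤ q → q ≤ Q → ∀ a : ℕ, Nat.Coprime a q → ∀ y : ℕ, 2 ≤ y → y ≤ x →
      |((((Icc 1 y).filter (fun p => p.Prime ∧ p ≡ a [MOD q])).card : ℕ) : ℝ) -
        Pool.Agent.H17.ZB.Li y / (Nat.totient q : ℝ)| ≤ E q := by
    intro q hq hqQ
    refine hE1 q hq ?_
    exact (Nat.cast_le.2 hqQ).trans (Nat.floor_le (by positivity))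
  -- the sieve
  set Y : ℝ := (Pool.Agent.H17.ZB.Li x - Pool.Agent.H17.ZB.Li y) / (Nat.totient M : ℝ) with hY
  have hli := Core_li (x := (x : ℝ)) (y := (y : ℝ)) (by exact_mod_cast hy2) (by exact_mod_cast hyx)
  have hxy' : (x : ℝ) ≤ 8 * ((x : ℝ) - y) := by
    have h1 : ((x : ℕ) : ℝ) ≤ ((8 * (x - y) : ℕ) : ℝ) := by exact_mod_cast hxy
    rw [Nat.cast_mul, Nat.cast_sub hyx] at h1
    exact_mod_cast h1
  have hYlow : (x : ℝ) / (8 * Real.log x * (Nat.totient M : ℝ)) ≤ Y := by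
    rw [hY, le_div_iff₀ hφ]
    refine le_trans ?_ hli
    rw [le_div_iff₀ hl0]
    have e : (x : ℝ) / (8 * Real.log x * (Nat.totient M : ℝ)) * (Nat.totient M : ℝ) * Real.log x = x / 8 := by
      field_simp
    rw [e]
    linarith
  have hY0 : 0 ≤ Y := le_trans (by positivity) hYlow
  set g : ℕ → ℝ := fun l => ((Ds D l).card : ℝ) / ((l : ℝ) - 1) with hg
  set T : Finset ℕ := (Ioc y x).filter (fun t => t.Prime ∧ t ≡ a [MOD M]) with hT
  set B : ℕ → ℕ → Prop := fun t l => t % l ∈ Ds D l with hB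
  set R : Finset ℕ → ℝ := fun S => (3 : ℝ) ^ S.card * (2 * E (M * ∏ p ∈ S, p)) with hR
  have hprime : ∀ S ⊆ PK 12 z, ∀ l ∈ S, l.Prime ∧ 12 < l := by
    intro S hS l hl
    have h := bh_mem_PK.1 (hS hl)
    exact ⟨h.2.2, h.1⟩
  have key := HB 3 b0 le_rfl 12 z (by norm_num) (by norm_num) hz12 g (by
      intro p hp
      have h := bh_mem_PK.1 hp
      have hp' : (13 : ℝ) ≤ p := by exact_mod_cast h.1
      have hcd : ((Ds D p).card : ℝ) ≤ 3 := by exact_mod_cast (Ds_card hD p).trans hm3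
      refine ⟨div_nonneg (Nat.cast_nonneg _) (by linarith), ?_⟩
      show ((Ds D p).card : ℝ) / ((p : ℝ) - 1) ≤ 2 * ((3 : ℕ) : ℝ) / p
      rw [div_le_div_iff₀ (by linarith) (by linarith)]
      push_cast
      nlinarith) T B Y R hY0 (fun S => mul_nonneg (by positivity) (mul_nonneg (by norm_num) (hE0 _))) (by
      intro S hS hSD
      have hMS : M * ∏ p ∈ S, p ≤ Q := (Nat.mul_le_mul_left M hSD).trans hQM
      have h1 := Cnt_main (x := x) (y := y) hEQ (Ds D) hy2 hyx le_rfl S (fun l hl => (hprime S hS l hl).1)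
        (fun l _ r hr => Ds_mem hr) M a hM (fun l hl => hMc l (hprime S hS l hl).1 (hprime S hS l hl).2) ha hMS
      rw [Core_filt T _ _ (TT (Ds D) y x M a S) (fun t => TT_mem)]
      refine h1.trans ?_
      show (∏ l ∈ S, ((Ds D l).card : ℝ)) * (2 * E (M * ∏ l ∈ S, l)) ≤ (3 : ℝ) ^ S.card * (2 * E (M * ∏ p ∈ S, p))
      refine mul_le_mul_of_nonneg_right ?_ (mul_nonneg (by norm_num) (hE0 _))
      calc ∏ l ∈ S, ((Ds D l).card : ℝ) ≤ ∏ l ∈ S, (3 : ℝ) :=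
            prod_le_prod (fun l _ => Nat.cast_nonneg _) (fun l _ => by exact_mod_cast (Ds_card hD l).trans hm3)
        _ = (3 : ℝ) ^ S.card := by rw [prod_const])
  -- the terms
  obtain ⟨PZ, hPZ⟩ : ∃ PZ : ℝ, PZ = ∏ l ∈ Zs, (1 + 1 / (l : ℝ)) := ⟨_, rfl⟩
  have hPZ1 : 1 ≤ PZ := by
    rw [hPZ]
    calc (1 : ℝ) = ∏ l ∈ Zs, (1 : ℝ) := by rw [prod_const_one]
      _ ≤ _ := prod_le_prod (fun _ _ => zero_le_one) (fun l _ => by
        have : (0 : ℝ) ≤ 1 / (l : ℝ) := by positivity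
        linarith)
  have hprod := CoreU_prod hm hm1 hz12 (fun l => (Ds D l).card) (fun l => Ds_card hD l) Zs (by
    intro l hl
    obtain ⟨z1, z2, z3, z4⟩ := hZs l hl
    refine ⟨bh_mem_PK.2 ⟨z2, Nat.le_floor z3, z1⟩, ?_⟩
    show (Ds D l).card = 0
    rw [card_eq_zero, eq_empty_iff_forall_notMem]
    intro r hr
    have h1 := z4 r (mem_filter.1 hr).1
    have h2 := Ds_mem hr
    rw [Nat.mod_eq_of_lt h2.2] at h1
    omega)
  rw [← hPZ] at hprod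
  have hvv := Core_vv hc1 hcV hz12
  have hP : 1 / (6 * c ^ m * Real.log x ^ m) * PZ ≤ ∏ p ∈ PK 12 z, (1 - g p) := by
    refine le_trans (mul_le_mul_of_nonneg_right ?_ (by linarith : (0 : ℝ) ≤ PZ)) hprod
    have h1 : 1 / (c * Real.log x) ≤ VV 12 z 1 := by
      refine le_trans ?_ hvv
      apply one_div_le_one_div_of_le (by positivity)
      exact mul_le_mul_of_nonneg_left hlz hc0.le
    have h2 : (1 / (c * Real.log x)) ^ m ≤ (VV 12 z 1) ^ m := pow_le_pow_left₀ (by positivity) h1 m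
    have e : 1 / (6 * c ^ m * Real.log x ^ m) = (1 / 6 : ℝ) * (1 / (c * Real.log x)) ^ m := by
      rw [one_div_pow, mul_pow]
      field_simp
    rw [e]
    exact mul_le_mul_of_nonneg_left h2 (by norm_num)
  have hmain : 2 * κ0 * ((x : ℝ) / Real.log x ^ (m + 1)) * PZ ≤ Y * ∏ p ∈ PK 12 z, (1 - g p) := by
    refine le_trans (le_of_eq ?_) (mul_le_mul hYlow hP (by positivity) hY0)
    rw [hκ0, pow_succ]
    field_simp
    ring
  have hsum := Core_sum (z := z) (D0 := D0) hE0 hM hQM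
  have hlog2 : ((Nat.log 2 z : ℝ) + 2) ≤ 5 * Real.log x := by
    have h1 : (2 : ℝ) ^ (Nat.log 2 z) ≤ z := by exact_mod_cast Nat.pow_log_le_self 2 (by omega : z ≠ 0)
    have h2 := Real.log_le_log (by positivity) h1
    rw [Real.log_pow] at h2
    have h3 := Real.log_two_gt_d9
    have h4 : (0 : ℝ) ≤ (Nat.log 2 z : ℝ) := Nat.cast_nonneg _
    nlinarith
  have hE2' : ∑ q ∈ Icc 1 Q, |(3 : ℝ)| ^ q.primeFactors.card * E q ≤ (x : ℝ) / Real.log x ^ 6 := by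
    have h1 := hE2
    rw [show (6 : ℝ) = ((6 : ℕ) : ℝ) by norm_num, Real.rpow_natCast] at h1
    exact h1
  have herr : ((Nat.log 2 z : ℝ) + 2) * ∑ S ∈ (PK 12 z).powerset.filter (fun S => ∏ p ∈ S, p ≤ z ^ (4 * b0 + 10)), R S ≤
      κ0 / 2 * ((x : ℝ) / Real.log x ^ (m + 1)) := by
    have h1 : ∑ S ∈ (PK 12 z).powerset.filter (fun S => ∏ p ∈ S, p ≤ z ^ (4 * b0 + 10)), R S ≤
        2 * ((x : ℝ) / Real.log x ^ 6) := hsum.trans (mul_le_mul_of_nonneg_left hE2' (by norm_num))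
    have h2 : ((Nat.log 2 z : ℝ) + 2) * ∑ S ∈ (PK 12 z).powerset.filter (fun S => ∏ p ∈ S, p ≤ z ^ (4 * b0 + 10)), R S ≤
        5 * Real.log x * (2 * ((x : ℝ) / Real.log x ^ 6)) :=
      mul_le_mul hlog2 h1 (sum_nonneg (fun S _ => mul_nonneg (by positivity) (mul_nonneg (by norm_num) (hE0 _)))) (by positivity)
    refine h2.trans ?_
    have e : 5 * Real.log x * (2 * ((x : ℝ) / Real.log x ^ 6)) = 10 / Real.log x * ((x : ℝ) / Real.log x ^ 4) := by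
      field_simp
      ring
    rw [e]
    have hm4 : (x : ℝ) / Real.log x ^ 4 ≤ (x : ℝ) / Real.log x ^ (m + 1) :=
      div_le_div_of_nonneg_left hx0.le (by positivity) (pow_le_pow_right₀ hxl1 (by omega))
    refine mul_le_mul ?_ hm4 (by positivity) (by positivity)
    rw [div_le_iff₀ hl0]
    rw [div_le_iff₀ hκ0p] at hxL
    linarith
  have hexp : Real.exp (-(b0 : ℝ)) ≤ 1 / 2 := by
    have hb : (1 : ℝ) ≤ b0 := by
      have : 1 ≤ b0 := by omega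
      exact_mod_cast this
    have h1 : Real.exp (-(b0 : ℝ)) ≤ Real.exp (-1) := Real.exp_le_exp.2 (by linarith)
    have h2 := Real.exp_one_gt_d9
    have h3 : Real.exp (-1) ≤ 1 / 2 := by
      rw [Real.exp_neg, inv_le_comm₀ (Real.exp_pos 1) (by norm_num)]
      linarith
    exact h1.trans h3
  have hP0 : 0 ≤ Y * ∏ p ∈ PK 12 z, (1 - g p) := le_trans (by positivity) hmain
  obtain ⟨F, hF2, hF1⟩ : ∃ F : Finset ℕ,
      |((F.card : ℕ) : ℝ) - Y * ∏ p ∈ PK 12 z, (1 - g p)| ≤ Real.exp (-(b0 : ℝ)) * (Y * ∏ p ∈ PK 12 z, (1 - g p)) +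
        ((Nat.log 2 z : ℝ) + 2) * ∑ S ∈ (PK 12 z).powerset.filter (fun S => ∏ p ∈ S, p ≤ z ^ (4 * b0 + 10)), R S ∧
      (∀ t, t ∈ F ↔ t ∈ T ∧ ∀ p ∈ PK 12 z, ¬ B t p) :=
    ⟨_, key, fun t => Core_filtm T _ _ t⟩
  have hlow : κ0 / 2 * ((x : ℝ) / Real.log x ^ (m + 1)) * PZ ≤ ((F.card : ℕ) : ℝ) := by
    have hXX : κ0 / 2 * ((x : ℝ) / Real.log x ^ (m + 1)) ≤ κ0 / 2 * ((x : ℝ) / Real.log x ^ (m + 1)) * PZ :=
      le_mul_of_one_le_right (by positivity) hPZ1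
    have h1 := (abs_le.1 hF2).1
    have h2 : Real.exp (-(b0 : ℝ)) * (Y * ∏ p ∈ PK 12 z, (1 - g p)) ≤ 1 / 2 * (Y * ∏ p ∈ PK 12 z, (1 - g p)) :=
      mul_le_mul_of_nonneg_right hexp hP0
    nlinarith
  rw [← hPZ]
  refine ⟨F, hlow, fun t ht => ?_⟩
  obtain ⟨ht1, ht2⟩ := (hF1 t).1 ht
  obtain ⟨ht3, ht4, ht5⟩ := mem_filter.1 ht1
  refine ⟨(mem_Ioc.1 ht3).1, (mem_Ioc.1 ht3).2, ht4, ht5, fun l hl hl12 hlx hmem => ?_⟩
  have hlz' : l ≤ z := Nat.le_floor hlx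
  refine ht2 l (bh_mem_PK.2 ⟨hl12, hlz', hl⟩) ?_
  show t % l ∈ Ds D l
  refine mem_filter.2 ⟨hmem, ?_, Nat.mod_lt _ hl.pos⟩
  rw [Nat.pos_iff_ne_zero]
  intro h0
  have h1 : l ∣ t := Nat.dvd_of_mod_eq_zero h0
  have h2 : l = t := (Nat.prime_dvd_prime_iff_eq hl ht4).1 h1
  have h3 : y < t := (mem_Ioc.1 ht3).1
  have h4 : (y : ℝ) < l := by
    rw [h2]
    exact_mod_cast h3
  linarith

end Pool.Agent.H63.SG
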