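import Pool.Agent.H63.SG.AB
import Pool.Agent.H63.SG.CoreU

/-!
# Primes `t` such that `t - s` has no small prime factor, with the factor at the primes which divide `s`
-/

set_option autoImplicit false

open Finset

namespace Pool.Agent.H63.SG

theorem ABU_low : ∃ δ : ℝ, 0 < δ ∧ δ ≤ 1 / 8 ∧ ∃ κ : ℝ, 0 < κ ∧ ∃ X0 : ℕ, ∀ x y : ℕ, X0 ≤ x → y ≤ x → x ≤ 8 * (x - y) → x ≤ 8 * y →
    ∀ s : ℤ, (6 : ℤ) ∣ s → ∀ Zs : Finset ℕ, (∀ l ∈ Zs, l.Prime ∧ 12 < l ∧ (l : ℝ) ≤ (x : ℝ) ^ δ ∧ (l : ℤ) ∣ s) →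
    ∃ F : Finset ℕ, κ * ((x : ℝ) / Real.log x ^ 2) * ∏ l ∈ Zs, (1 + 1 / (l : ℝ)) ≤ (F.card : ℝ) ∧
      ∀ t ∈ F, y < t ∧ t ≤ x ∧ t.Prime ∧ ∀ l : ℕ, l.Prime → (l : ℝ) ≤ (x : ℝ) ^ δ → ¬ (l : ℤ) ∣ (t : ℤ) ∧ ¬ (l : ℤ) ∣ (t : ℤ) - s := by
  obtain ⟨δ, hδ0, hδ1, H⟩ := coreU 1 (by norm_num) le_rfl Fac1
  obtain ⟨κ, hκ, X0, H1⟩ := H 2310 (by norm_num) (fun l hl hl12 => by
    refine ((Nat.Prime.coprime_iff_not_dvd hl).2 (fun h => ?_)).symm
    have := AB_le hl h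
    omega)
  refine ⟨δ, hδ0, hδ1, κ, hκ, max X0 100, fun x y hx hyx h1 h2 s hs Zs hZs => ?_⟩
  have hx0 : X0 ≤ x := le_trans (le_max_left _ _) hx
  have hx100 : 100 ≤ x := le_trans (le_max_right _ _) hx
  obtain ⟨a, ha⟩ := Loc_q 2 0 (-s) (dvd_zero _) ((dvd_neg).2 hs)
  have ha0 : 0 ≤ a % 2310 := Int.emod_nonneg a (by norm_num)
  have ha1 : (((a % 2310).toNat : ℕ) : ℤ) = a % 2310 := Int.toNat_of_nonneg ha0
  have hcop : Nat.Coprime (a % 2310).toNat 2310 := by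
    by_contra hc
    obtain ⟨l, hl, hl1, hl2⟩ := Nat.Prime.not_coprime_iff_dvd.1 hc
    apply (ha l hl (AB_le hl hl2)).1
    have h3 : (l : ℤ) ∣ a % 2310 := by
      rw [← ha1]
      exact Int.natCast_dvd_natCast.2 hl1
    have h4 : (l : ℤ) ∣ 2310 := by exact_mod_cast hl2
    have h5 := Int.emod_add_mul_ediv a 2310
    rw [← h5]
    exact dvd_add h3 (Dvd.dvd.mul_right h4 _)
  obtain ⟨F, hF1, hF2⟩ := H1 x y hx0 hyx h1 h2 (a % 2310).toNat hcop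
    (fun l => ({(s : ZMod l)} : Finset (ZMod l)).image ZMod.val)
    (fun l => card_image_le.trans (by simp)) Zs (fun l hl => by
      obtain ⟨k1, k2, k3, k4⟩ := hZs l hl
      refine ⟨k1, k2, k3, fun r hr => ?_⟩
      obtain ⟨w, hw, rfl⟩ := mem_image.1 hr
      rw [mem_singleton] at hw
      subst hw
      have h0 : (s : ZMod l) = 0 := (ZMod.intCast_zmod_eq_zero_iff_dvd s l).2 k4
      rw [h0]
      simp)
  refine ⟨F, by simpa using hF1, fun t ht => ?_⟩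
  obtain ⟨k1, k2, k3, k4, k5⟩ := hF2 t ht
  refine ⟨k1, k2, k3, fun l hl hlx => ?_⟩
  have hta : (2310 : ℤ) ∣ (t : ℤ) - a := by
    have h3 : (((a % 2310).toNat : ℕ) : ℤ) ≡ (t : ℤ) [ZMOD ((2310 : ℕ) : ℤ)] :=
      Int.natCast_modEq_iff.2 k4.symm
    have h4 := h3.dvd
    rw [ha1] at h4
    have h6 : (2310 : ℤ) ∣ (t : ℤ) - a % 2310 := by exact_mod_cast h4
    have h7 : (t : ℤ) - a = ((t : ℤ) - a % 2310) - 2310 * (a / 2310) := by omega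
    rw [h7]
    exact dvd_sub h6 (dvd_mul_right _ _)
  rcases le_or_gt l 12 with hl12 | hl12
  · obtain ⟨a1, a2, -, -⟩ := ha l hl hl12
    have hlt : (l : ℤ) ∣ (t : ℤ) - a := (AB_dvd hl hl12).trans hta
    refine ⟨fun h => a1 ?_, fun h => a2 ?_⟩
    · have := dvd_sub h hlt
      rwa [show (t : ℤ) - ((t : ℤ) - a) = a by ring] at this
    · have := dvd_sub h hlt
      rwa [show (t : ℤ) - s - ((t : ℤ) - a) = a + -s by ring] at this
  · refine ⟨fun h => ?_, fun h => ?_⟩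
    · have h3 : l ∣ t := Int.natCast_dvd_natCast.1 h
      have h4 : l = t := (Nat.prime_dvd_prime_iff_eq hl k3).1 h3
      have h5 := AB_pow hδ1 hx100 h2
      have h6 : (y : ℝ) < (t : ℝ) := by exact_mod_cast k1
      rw [h4] at hlx
      linarith
    · apply k5 l hl hl12 hlx
      have h4 := (ZMod.intCast_zmod_eq_zero_iff_dvd _ l).2 h
      push_cast at h4
      have h5 : (t : ZMod l) = (s : ZMod l) := sub_eq_zero.1 h4
      rw [← ZMod.val_natCast, h5]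
      exact mem_image_of_mem _ (by simp)

end Pool.Agent.H63.SG
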