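import Pool.Agent.H17.BV.Omg

/-!
# The average of the singular factor

`(1 + 6/l)^8 ≤ 1 + A/l` with `A = 1530`, so that the summand is at most `∑_{d ∣ m} A^ω(d)/d`;
summing over `m ≤ X` gives at most `∑_{d ≤ X} (A^ω(d)/d) (X/d)`, and `A^ω(d)/φ(d) ≤ C1 d^(-1/2)`.
-/

set_option autoImplicit false

open Finset

namespace Pool.Agent.H63.SG

lemma Av_pow {t : ℝ} (h0 : 0 ≤ t) (h1 : t ≤ 1) : (1 + t) ^ 8 ≤ 1 + 255 * t := by
  have a : ∀ n : ℕ, t ^ (n + 1) ≤ t := fun n => by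
    rw [pow_succ]
    exact mul_le_of_le_one_left h0 (pow_le_one₀ h0 h1)
  have := a 1
  have := a 2
  have := a 3
  have := a 4
  have := a 5
  have := a 6
  have := a 7
  have e : (1 + t) ^ 8 = 1 + 8 * t + 28 * t ^ (1 + 1) + 56 * t ^ (2 + 1) + 70 * t ^ (3 + 1) +
      56 * t ^ (4 + 1) + 28 * t ^ (5 + 1) + 8 * t ^ (6 + 1) + t ^ (7 + 1) := by ring
  rw [e]
  linarith

lemma Av_div (A : ℝ) (hA : 0 ≤ A) (m : ℕ) (hm : m ≠ 0) :
    ∏ l ∈ m.primeFactors, (1 + A / (l : ℝ)) ≤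
      ∑ d ∈ m.divisors, A ^ d.primeFactors.card / (d : ℝ) := by
  rw [Finset.prod_one_add]
  have hinj : Set.InjOn (fun t : Finset ℕ => ∏ p ∈ t, p) (m.primeFactors.powerset : Set (Finset ℕ)) := by
    intro s hs t ht hst
    have hs' := Finset.mem_powerset.mp (Finset.mem_coe.mp hs)
    have ht' := Finset.mem_powerset.mp (Finset.mem_coe.mp ht)
    have e1 := Nat.primeFactors_prod (s := s) (fun p hp => Nat.prime_of_mem_primeFactors (hs' hp))
    have e2 := Nat.primeFactors_prod (s := t) (fun p hp => Nat.prime_of_mem_primeFactors (ht' hp))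
    have hst' : ∏ p ∈ s, p = ∏ p ∈ t, p := hst
    rw [← e1, ← e2, hst']
  have h2 : ∑ t ∈ m.primeFactors.powerset, ∏ l ∈ t, A / (l : ℝ) =
      ∑ d ∈ m.primeFactors.powerset.image (fun t : Finset ℕ => ∏ p ∈ t, p),
        A ^ d.primeFactors.card / (d : ℝ) := by
    rw [Finset.sum_image hinj]
    apply Finset.sum_congr rfl
    intro t ht
    have ht' := Finset.mem_powerset.mp ht
    rw [Nat.primeFactors_prod (s := t) (fun p hp => Nat.prime_of_mem_primeFactors (ht' hp)),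
      Finset.prod_div_distrib, Finset.prod_const, Nat.cast_prod]
  rw [h2]
  apply Finset.sum_le_sum_of_subset_of_nonneg
  · intro d hd
    obtain ⟨t, ht, rfl⟩ := Finset.mem_image.mp hd
    have ht' := Finset.mem_powerset.mp ht
    rw [Nat.mem_divisors]
    exact ⟨(Finset.prod_dvd_prod_of_subset _ _ _ ht').trans (Nat.prod_primeFactors_dvd m), hm⟩
  · intro d _ _
    positivity

lemma Av_swap (G : ℕ → ℝ) (hG : ∀ d, 0 ≤ G d) (X : ℕ) :
    ∑ m ∈ Icc 1 X, ∑ d ∈ m.divisors, G d ≤ ∑ d ∈ Icc 1 X, G d * ((X : ℝ) / d) := by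
  have h1 : ∀ m ∈ Icc 1 X, ∑ d ∈ m.divisors, G d =
      ∑ d ∈ Icc 1 X, if d ∣ m then G d else 0 := by
    intro m hm
    rw [← Finset.sum_filter]
    apply Finset.sum_congr _ fun _ _ => rfl
    have hm' := Finset.mem_Icc.1 hm
    ext d
    rw [Nat.mem_divisors, Finset.mem_filter, Finset.mem_Icc]
    constructor
    · rintro ⟨h1, h2⟩
      have h3 := Nat.le_of_dvd (by omega) h1
      have h4 := Nat.pos_of_dvd_of_pos h1 (by omega)
      exact ⟨⟨h4, by omega⟩, h1⟩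
    · rintro ⟨-, h2⟩
      exact ⟨h2, by omega⟩
  rw [Finset.sum_congr rfl h1, Finset.sum_comm]
  apply Finset.sum_le_sum
  intro d hd
  rw [← Finset.sum_filter, Finset.sum_const, nsmul_eq_mul, mul_comm]
  apply mul_le_mul_of_nonneg_left _ (hG d)
  have h2 : (Icc 1 X).filter (fun m => d ∣ m) = (Ioc 0 X).filter (fun m => d ∣ m) := by
    ext m
    simp only [Finset.mem_filter, Finset.mem_Icc, Finset.mem_Ioc]
    constructor
    · rintro ⟨⟨a, b⟩, c⟩
      exact ⟨⟨by omega, b⟩, c⟩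
    · rintro ⟨⟨a, b⟩, c⟩
      exact ⟨⟨by omega, b⟩, c⟩
  rw [h2, Nat.Ioc_filter_dvd_card_eq_div]
  exact Nat.cast_div_le

theorem Av_bd : ∃ C : ℝ, 0 < C ∧ ∀ X : ℕ, 1 ≤ X →
    ∑ m ∈ Icc 1 X, (∏ l ∈ m.primeFactors.filter (fun l => 12 < l), (1 + 6 / (l : ℝ))) ^ 8 ≤ C * X := by
  obtain ⟨C1, hC1, hb⟩ := BVL.omega_bound (C := 1530) (by norm_num) (η := 1 / 2) (by norm_num)
  have hsum : Summable (fun n : ℕ => (n : ℝ) ^ (-(3 / 2) : ℝ)) :=
    Real.summable_nat_rpow.2 (by norm_num)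
  let T : ℝ := ∑' n : ℕ, (n : ℝ) ^ (-(3 / 2) : ℝ)
  have hT : 0 ≤ T := tsum_nonneg fun n => by positivity
  refine ⟨C1 * T + 1, by positivity, fun X hX => ?_⟩
  let G : ℕ → ℝ := fun d => (1530 : ℝ) ^ d.primeFactors.card / (d : ℝ)
  have hG : ∀ d, 0 ≤ G d := fun d => by positivity
  have h1 : ∀ m ∈ Icc 1 X, (∏ l ∈ m.primeFactors.filter (fun l => 12 < l),
      (1 + 6 / (l : ℝ))) ^ 8 ≤ ∑ d ∈ m.divisors, G d := by
    intro m hm
    have hm' := Finset.mem_Icc.1 hm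
    refine le_trans ?_ (Av_div 1530 (by norm_num) m (by omega))
    rw [← Finset.prod_pow]
    calc ∏ l ∈ m.primeFactors.filter (fun l => 12 < l), (1 + 6 / (l : ℝ)) ^ 8
        ≤ ∏ l ∈ m.primeFactors.filter (fun l => 12 < l), (1 + 1530 / (l : ℝ)) := by
          apply Finset.prod_le_prod
          · intro l _
            positivity
          · intro l hl
            have hl' : (12 : ℝ) < l := by exact_mod_cast (Finset.mem_filter.1 hl).2
            have h2 : (6 : ℝ) / l ≤ 1 := by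
              rw [div_le_one (by linarith)]
              linarith
            have h3 := Av_pow (t := 6 / (l : ℝ)) (by positivity) h2
            have h4 : 1 + 255 * (6 / (l : ℝ)) = 1 + 1530 / (l : ℝ) := by ring
            rw [← h4]
            exact h3
      _ ≤ ∏ l ∈ m.primeFactors, (1 + 1530 / (l : ℝ)) := by
          rw [Finset.prod_filter]
          apply Finset.prod_le_prod
          · intro l _
            split_ifs <;> positivity
          · intro l _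
            have h3 : (0 : ℝ) ≤ 1530 / (l : ℝ) := by positivity
            split_ifs <;> linarith
  refine (Finset.sum_le_sum h1).trans ((Av_swap G hG X).trans ?_)
  have h2 : ∀ d ∈ Icc 1 X, G d * ((X : ℝ) / d) ≤ C1 * X * (d : ℝ) ^ (-(3 / 2) : ℝ) := by
    intro d hd
    have hd1 : 1 ≤ d := (Finset.mem_Icc.1 hd).1
    have hd0 : (0 : ℝ) < d := by exact_mod_cast hd1
    have h3 := hb d hd1
    have h4 : G d ≤ C1 * (d : ℝ) ^ (-1 + 1 / 2 : ℝ) := by
      refine le_trans ?_ h3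
      apply div_le_div_of_nonneg_left (by positivity)
      · exact_mod_cast Nat.totient_pos.2 hd1
      · exact_mod_cast Nat.totient_le d
    have h5 : (d : ℝ) ^ (-(3 / 2) : ℝ) = (d : ℝ) ^ (-1 + 1 / 2 : ℝ) / d := by
      rw [← Real.rpow_sub_one hd0.ne']
      norm_num
    calc G d * ((X : ℝ) / d) ≤ (C1 * (d : ℝ) ^ (-1 + 1 / 2 : ℝ)) * ((X : ℝ) / d) :=
          mul_le_mul_of_nonneg_right h4 (by positivity)
      _ = C1 * X * (d : ℝ) ^ (-(3 / 2) : ℝ) := by rw [h5]; ring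
  refine (Finset.sum_le_sum h2).trans ?_
  rw [← Finset.mul_sum]
  have h6 : ∑ d ∈ Icc 1 X, (d : ℝ) ^ (-(3 / 2) : ℝ) ≤ T :=
    hsum.sum_le_tsum _ fun n _ => by positivity
  have h7 : C1 * X * ∑ d ∈ Icc 1 X, (d : ℝ) ^ (-(3 / 2) : ℝ) ≤ C1 * X * T :=
    mul_le_mul_of_nonneg_left h6 (by positivity)
  have h8 : (0 : ℝ) ≤ X := by positivity
  nlinarith

end Pool.Agent.H63.SG
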