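import Pool.Agent.H63.SG.Av

/-!
# ROW Av2: the average of the square of the product of four singular factors

PROOF. Let `x ≥ N = 2 max |s i| + 2` (or the sum of the `|s i|` instead of the maximum). For `n ∈ Ioc (x/2) x` the numbers `n + s i` are in `[1, 2x]`. `(∏_i HH (n + s i))^2 = ∏_i a_i` with `a_i = HH (n + s i)^2 ≥ 0`, and
`a₀ a₁ a₂ a₃ ≤ (a₀^4 + a₁^4 + a₂^4 + a₃^4)/4` (`inner_le_nnorm_mul_nnorm`-free: twice `a b ≤ (a^2 + b^2)/2`). `∑_n HH (n + s i)^8 ≤ ∑_{m ∈ Icc 1 (2x)} HH m^8 ≤ 2 C x` (`Av_bd`; `n ↦ (n + s i).toNat` is injective).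
-/

set_option autoImplicit false

open Finset

namespace Pool.Agent.H63.SG

/-- `∏_{l ∣ m, l > 12} (1 + 6/l)` -/
noncomputable def HH (m : ℤ) : ℝ := ∏ l ∈ m.natAbs.primeFactors.filter (fun l => 12 < l), (1 + 6 / (l : ℝ))

private lemma four_bd (a b c d : ℝ) : (a * b * c * d) ^ 2 ≤ (a ^ 8 + b ^ 8 + c ^ 8 + d ^ 8) / 4 := by
  have h1 : (a * b * c * d) ^ 2 ≤ ((a * b) ^ 4 + (c * d) ^ 4) / 2 := by
    nlinarith [sq_nonneg ((a * b) ^ 2 - (c * d) ^ 2)]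
  have h2 : (a * b) ^ 4 ≤ (a ^ 8 + b ^ 8) / 2 := by
    nlinarith [sq_nonneg (a ^ 4 - b ^ 4)]
  have h3 : (c * d) ^ 4 ≤ (c ^ 8 + d ^ 8) / 2 := by
    nlinarith [sq_nonneg (c ^ 4 - d ^ 4)]
  linarith

theorem Av2_bd : ∃ C : ℝ, 0 < C ∧ ∀ s : Fin 4 → ℤ, ∃ N : ℕ, ∀ x : ℕ, N ≤ x →
    ∑ n ∈ Ioc (x / 2) x, (∏ i, HH ((n : ℤ) + s i)) ^ 2 ≤ C * x := by
  obtain ⟨C, hC, hb⟩ := Av_bd
  refine ⟨2 * C, by positivity, fun s => ⟨2 * ∑ i, (s i).natAbs + 2, fun x hx => ?_⟩⟩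
  have hs : ∀ i, 2 * (s i).natAbs + 2 ≤ x := by
    intro i
    have h1 : (s i).natAbs ≤ ∑ i, (s i).natAbs :=
      Finset.single_le_sum (f := fun i => (s i).natAbs) (fun _ _ => Nat.zero_le _) (Finset.mem_univ i)
    omega
  have hone : ∀ i, ∑ n ∈ Ioc (x / 2) x, HH ((n : ℤ) + s i) ^ 8 ≤ C * (2 * x) := by
    intro i
    have hi := hs i
    have hinj : Set.InjOn (fun n : ℕ => ((n : ℤ) + s i).natAbs) (Ioc (x / 2) x : Set ℕ) := by
      intro m hm n hn hmn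
      have hm' := Finset.mem_Ioc.1 (Finset.mem_coe.1 hm)
      have hn' := Finset.mem_Ioc.1 (Finset.mem_coe.1 hn)
      have e : ((m : ℤ) + s i).natAbs = ((n : ℤ) + s i).natAbs := hmn
      omega
    have e : ∑ n ∈ Ioc (x / 2) x, HH ((n : ℤ) + s i) ^ 8 =
        ∑ m ∈ (Ioc (x / 2) x).image (fun n : ℕ => ((n : ℤ) + s i).natAbs),
          (∏ l ∈ m.primeFactors.filter (fun l => 12 < l), (1 + 6 / (l : ℝ))) ^ 8 := by
      rw [Finset.sum_image hinj]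
      rfl
    rw [e]
    have h2 := hb (2 * x) (by omega)
    push_cast at h2
    refine le_trans ?_ h2
    apply Finset.sum_le_sum_of_subset_of_nonneg
    · intro m hm
      obtain ⟨n, hn, rfl⟩ := Finset.mem_image.1 hm
      have hn' := Finset.mem_Ioc.1 hn
      rw [Finset.mem_Icc]
      omega
    · intro m _ _
      positivity
  have h4 : ∀ n ∈ Ioc (x / 2) x, (∏ i, HH ((n : ℤ) + s i)) ^ 2 ≤
      (HH ((n : ℤ) + s 0) ^ 8 + HH ((n : ℤ) + s 1) ^ 8 + HH ((n : ℤ) + s 2) ^ 8 +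
        HH ((n : ℤ) + s 3) ^ 8) / 4 := by
    intro n _
    rw [Fin.prod_univ_four]
    exact four_bd _ _ _ _
  refine (Finset.sum_le_sum h4).trans ?_
  rw [← Finset.sum_div, Finset.sum_add_distrib, Finset.sum_add_distrib, Finset.sum_add_distrib]
  have := hone 0
  have := hone 1
  have := hone 2
  have := hone 3
  linarith

end Pool.Agent.H63.SG
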