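import Pool.Agent.H63.SG.Av2

/-!
# ROW Av3: uniform version of `Av2_bd`

PROOF. As `Av2_bd`; for `n ∈ Ioc (x/2) x`: `x/4 ≤ n + s i ≤ 2x` and `n + s i ≥ 1`.
-/

set_option autoImplicit false

open Finset

namespace Pool.Agent.H63.SG

private lemma Av3_four (a b c d : ℝ) : (a * b * c * d) ^ 2 ≤ (a ^ 8 + b ^ 8 + c ^ 8 + d ^ 8) / 4 := by
  have h1 : (a * b * c * d) ^ 2 ≤ ((a * b) ^ 4 + (c * d) ^ 4) / 2 := by
    nlinarith [sq_nonneg ((a * b) ^ 2 - (c * d) ^ 2)]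
  have h2 : (a * b) ^ 4 ≤ (a ^ 8 + b ^ 8) / 2 := by
    nlinarith [sq_nonneg (a ^ 4 - b ^ 4)]
  have h3 : (c * d) ^ 4 ≤ (c ^ 8 + d ^ 8) / 2 := by
    nlinarith [sq_nonneg (c ^ 4 - d ^ 4)]
  linarith

theorem Av3_bd : ∃ C : ℝ, 0 < C ∧ ∀ (s : Fin 4 → ℤ) (x : ℕ), 8 ≤ x → (∀ i, 4 * (s i).natAbs ≤ x) →
    ∑ n ∈ Ioc (x / 2) x, (∏ i, HH ((n : ℤ) + s i)) ^ 2 ≤ C * x := by
  obtain ⟨C, hC, hb⟩ := Av_bd
  refine ⟨2 * C, by positivity, fun s x hx hsx => ?_⟩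
  have hs : ∀ i, 2 * (s i).natAbs + 2 ≤ x := by
    intro i
    have h1 := hsx i
    omega
  have hone : ∀ i, ∑ n ∈ Ioc (x / 2) x, HH ((n : ℤ) + s i) ^ 8 ≤ C * (2 * x) := by
    intro i
    have hi := hs i
    have hinj : Set.InjOn (fun n : ℕ => ((n : ℤ) + s i).natAbs) (Ioc (x / 2) x : Set ℕ) := by
      intro m hm n hn hmn
      have hm' := Finset.mem_Ioc.1 (Finset.mem_coe.1 hm)
      have hn' := Finset.mem_Ioc.1 (Finset.mem_coe.1 hn)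
      have e : ((m : ℤ) + s i).natAbs = ((n : ℤ) + s i).natAbs := hmn
      omega
    have e : ∑ n ∈ Ioc (x / 2) x, HH ((n : ℤ) + s i) ^ 8 =
        ∑ m ∈ (Ioc (x / 2) x).image (fun n : ℕ => ((n : ℤ) + s i).natAbs),
          (∏ l ∈ m.primeFactors.filter (fun l => 12 < l), (1 + 6 / (l : ℝ))) ^ 8 := by
      rw [Finset.sum_image hinj]
      rfl
    rw [e]
    have h2 := hb (2 * x) (by omega)
    push_cast at h2
    refine le_trans ?_ h2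
    apply Finset.sum_le_sum_of_subset_of_nonneg
    · intro m hm
      obtain ⟨n, hn, rfl⟩ := Finset.mem_image.1 hm
      have hn' := Finset.mem_Ioc.1 hn
      rw [Finset.mem_Icc]
      omega
    · intro m _ _
      positivity
  have h4 : ∀ n ∈ Ioc (x / 2) x, (∏ i, HH ((n : ℤ) + s i)) ^ 2 ≤
      (HH ((n : ℤ) + s 0) ^ 8 + HH ((n : ℤ) + s 1) ^ 8 + HH ((n : ℤ) + s 2) ^ 8 +
        HH ((n : ℤ) + s 3) ^ 8) / 4 := by
    intro n _
    rw [Fin.prod_univ_four]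
    exact Av3_four _ _ _ _
  refine (Finset.sum_le_sum h4).trans ?_
  rw [← Finset.sum_div, Finset.sum_add_distrib, Finset.sum_add_distrib, Finset.sum_add_distrib]
  have := hone 0
  have := hone 1
  have := hone 2
  have := hone 3
  linarith

end Pool.Agent.H63.SG
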