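import Pool.Agent.H17.BV.Pii

/-!
# Counting primes in several residue classes at once
-/

set_option autoImplicit false

open Finset

namespace Pool.Agent.H63.SG

/-- The primes `t` in `(y, x]` in the class of `a` mod `M` whose residue mod `l` is in `D l` for all `l ∈ S`. -/
def TT (D : ℕ → Finset ℕ) (y x M a : ℕ) (S : Finset ℕ) : Finset ℕ :=
  (Ioc y x).filter (fun t => t.Prime ∧ t ≡ a [MOD M] ∧ ∀ l ∈ S, t % l ∈ D l)

theorem Cnt_base {E : ℕ → ℝ} {N q : ℕ} (hE : ∀ a : ℕ, Nat.Coprime a q → ∀ y : ℕ, 2 ≤ y → y ≤ N →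
      |((((Icc 1 y).filter (fun p => p.Prime ∧ p ≡ a [MOD q])).card : ℕ) : ℝ) -
        Pool.Agent.H17.ZB.Li y / (Nat.totient q : ℝ)| ≤ E q)
    (D : ℕ → Finset ℕ) {x y a : ℕ} (hy : 2 ≤ y) (hyx : y ≤ x) (hx : x ≤ N) (ha : Nat.Coprime a q) :
    |((TT D y x q a ∅).card : ℝ) - (Pool.Agent.H17.ZB.Li x - Pool.Agent.H17.ZB.Li y) / (Nat.totient q : ℝ)| ≤ 2 * E q := by
  have h1 := hE a ha x (hy.trans hyx) hx
  have h2 := hE a ha y hy (hyx.trans hx)
  have h3 : ((Icc 1 x).filter (fun p => p.Prime ∧ p ≡ a [MOD q])).card =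
      ((Icc 1 y).filter (fun p => p.Prime ∧ p ≡ a [MOD q])).card + (TT D y x q a ∅).card := by
    rw [← card_union_of_disjoint]
    · congr 1
      ext t
      simp only [TT, mem_filter, mem_union, mem_Icc, mem_Ioc, notMem_empty, false_imp_iff, implies_true, and_true]
      constructor
      · rintro ⟨⟨h1, h2⟩, h3⟩
        by_cases h : t ≤ y
        · exact Or.inl ⟨⟨h1, h⟩, h3⟩
        · exact Or.inr ⟨⟨by omega, h2⟩, h3⟩
      · rintro (⟨⟨h1, h2⟩, h3⟩ | ⟨⟨h1, h2⟩, h3⟩)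
        · exact ⟨⟨h1, h2.trans hyx⟩, h3⟩
        · exact ⟨⟨by omega, h2⟩, h3⟩
    · rw [disjoint_left]
      intro t ht ht'
      have h4 := (mem_Icc.1 (mem_filter.1 ht).1).2
      have h5 := (mem_Ioc.1 (mem_filter.1 ht').1).1
      omega
  have h4 : ((TT D y x q a ∅).card : ℝ) = (((Icc 1 x).filter (fun p => p.Prime ∧ p ≡ a [MOD q])).card : ℝ) -
      (((Icc 1 y).filter (fun p => p.Prime ∧ p ≡ a [MOD q])).card : ℝ) := by
    rw [h3]; push_cast; ring
  rw [h4, sub_div]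
  rw [abs_le] at h1 h2 ⊢
  constructor <;> linarith [h1.1, h1.2, h2.1, h2.2]

theorem Cnt_step (D : ℕ → Finset ℕ) {x y M a l : ℕ} {S : Finset ℕ} (hl : l.Prime) (hM : Nat.Coprime M l) (hlS : l ∉ S)
    (hD : ∀ r ∈ D l, 0 < r ∧ r < l) :
    ∃ f : ℕ → ℕ, (∀ r ∈ D l, (Nat.Coprime a M → Nat.Coprime (f r) (M * l))) ∧
      (TT D y x M a (insert l S)).card = ∑ r ∈ D l, (TT D y x (M * l) (f r) S).card := by
  refine ⟨fun r => (Nat.chineseRemainder hM a r : ℕ), ?_, ?_⟩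
  · intro r hr ha
    have h1 := (Nat.chineseRemainder hM a r).2.1
    have h2 := (Nat.chineseRemainder hM a r).2.2
    obtain ⟨h3, h4⟩ := hD r hr
    refine Nat.Coprime.mul_right ?_ ?_
    · rw [Nat.coprime_iff_gcd_eq_one, h1.gcd_eq]
      exact ha
    · rw [Nat.coprime_iff_gcd_eq_one, h2.gcd_eq]
      exact ((Nat.Prime.coprime_iff_not_dvd hl).2 (fun h => absurd (Nat.le_of_dvd h3 h) (by omega))).symm
  · rw [← card_biUnion]
    · congr 1
      ext t
      simp only [TT, mem_filter, mem_biUnion, mem_insert, forall_eq_or_imp]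
      constructor
      · rintro ⟨h1, h2, h3, h4, h5⟩
        refine ⟨t % l, h4, h1, h2, ?_, h5⟩
        rw [← Nat.modEq_and_modEq_iff_modEq_mul hM]
        exact ⟨h3.trans (Nat.chineseRemainder hM a (t % l)).2.1.symm,
          (Nat.mod_modEq t l).symm.trans (Nat.chineseRemainder hM a (t % l)).2.2.symm⟩
      · rintro ⟨r, hr, h1, h2, h3, h5⟩
        rw [← Nat.modEq_and_modEq_iff_modEq_mul hM] at h3
        refine ⟨h1, h2, h3.1.trans (Nat.chineseRemainder hM a r).2.1, ?_, h5⟩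
        have h6 : t ≡ r [MOD l] := h3.2.trans (Nat.chineseRemainder hM a r).2.2
        have h7 : t % l = r := by
          rw [h6, Nat.mod_eq_of_lt (hD r hr).2]
        rw [h7]
        exact hr
    · intro r hr r' hr' hne
      rw [Function.onFun, disjoint_left]
      intro t ht ht'
      apply hne
      have h1 : t ≡ r [MOD l] := by
        have h := (mem_filter.1 ht).2.2.1
        rw [← Nat.modEq_and_modEq_iff_modEq_mul hM] at h
        exact h.2.trans (Nat.chineseRemainder hM a r).2.2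
      have h2 : t ≡ r' [MOD l] := by
        have h := (mem_filter.1 ht').2.2.1
        rw [← Nat.modEq_and_modEq_iff_modEq_mul hM] at h
        exact h.2.trans (Nat.chineseRemainder hM a r').2.2
      have h3 := h1.symm.trans h2
      exact Nat.ModEq.eq_of_lt_of_lt h3 (hD r hr).2 (hD r' hr').2

theorem Cnt_main {E : ℕ → ℝ} {N Q : ℕ} (hE : ∀ q : ℕ, 1 ≤ q → q ≤ Q → ∀ a : ℕ, Nat.Coprime a q → ∀ y : ℕ, 2 ≤ y → y ≤ N →
      |((((Icc 1 y).filter (fun p => p.Prime ∧ p ≡ a [MOD q])).card : ℕ) : ℝ) -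
        Pool.Agent.H17.ZB.Li y / (Nat.totient q : ℝ)| ≤ E q)
    (D : ℕ → Finset ℕ) {x y : ℕ} (hy : 2 ≤ y) (hyx : y ≤ x) (hx : x ≤ N) (S : Finset ℕ) :
    (∀ l ∈ S, l.Prime) → (∀ l ∈ S, ∀ r ∈ D l, 0 < r ∧ r < l) →
    ∀ M a : ℕ, 1 ≤ M → (∀ l ∈ S, Nat.Coprime M l) → Nat.Coprime a M → M * ∏ l ∈ S, l ≤ Q →
    |((TT D y x M a S).card : ℝ) - (Pool.Agent.H17.ZB.Li x - Pool.Agent.H17.ZB.Li y) / (Nat.totient M : ℝ) *
      ∏ l ∈ S, (((D l).card : ℝ) / ((l : ℝ) - 1))| ≤ (∏ l ∈ S, ((D l).card : ℝ)) * (2 * E (M * ∏ l ∈ S, l)) := by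
  induction S using Finset.induction_on with
  | empty =>
    intro _ _ M a hM _ ha hQ
    rw [prod_empty, mul_one] at hQ
    simp only [prod_empty, mul_one, one_mul]
    exact Cnt_base (hE M hM hQ) D hy hyx hx ha
  | insert l S hlS ih =>
    intro hP hD M a hM hc ha hQ
    have hl : l.Prime := hP l (mem_insert_self _ _)
    have hMl : Nat.Coprime M l := hc l (mem_insert_self _ _)
    obtain ⟨f, hf1, hf2⟩ := Cnt_step (x := x) (y := y) (a := a) D (S := S) hl hMl hlS (hD l (mem_insert_self _ _))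
    have hMl1 : 1 ≤ M * l := Nat.mul_pos hM hl.pos
    have hcS : ∀ l' ∈ S, Nat.Coprime (M * l) l' := by
      intro l' hl'
      refine Nat.Coprime.mul_left (hc l' (mem_insert_of_mem hl')) ?_
      rw [Nat.coprime_primes hl (hP l' (mem_insert_of_mem hl'))]
      rintro rfl
      exact hlS hl'
    rw [prod_insert hlS, ← mul_assoc] at hQ
    have ih' := fun r (hr : r ∈ D l) => ih (fun l' hl' => hP l' (mem_insert_of_mem hl'))
      (fun l' hl' => hD l' (mem_insert_of_mem hl')) (M * l) (f r) hMl1 hcS (hf1 r hr ha) hQ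
    rw [hf2, prod_insert hlS, prod_insert hlS, prod_insert hlS, ← mul_assoc M l (∏ x ∈ S, x)]
    have hl1 : (0 : ℝ) < (l : ℝ) - 1 := by
      have : (2 : ℝ) ≤ l := by exact_mod_cast hl.two_le
      linarith
    have htot : (Nat.totient (M * l) : ℝ) = (Nat.totient M : ℝ) * ((l : ℝ) - 1) := by
      rw [Nat.totient_mul hMl, Nat.totient_prime hl, Nat.cast_mul, Nat.cast_sub hl.one_le, Nat.cast_one]
    set Q1 : ℝ := ∏ l' ∈ S, (((D l').card : ℝ) / ((l' : ℝ) - 1)) with hQ1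
    set A : ℝ := Pool.Agent.H17.ZB.Li x - Pool.Agent.H17.ZB.Li y with hA
    have e1 : A / (Nat.totient M : ℝ) * (((D l).card : ℝ) / ((l : ℝ) - 1) * Q1) =
        ∑ r ∈ D l, A / (Nat.totient (M * l) : ℝ) * Q1 := by
      rw [sum_const, nsmul_eq_mul, htot, div_mul_eq_div_div]
      field_simp
    rw [e1, Nat.cast_sum, ← sum_sub_distrib]
    refine (abs_sum_le_sum_abs _ _).trans ?_
    refine (sum_le_sum ih').trans ?_
    rw [sum_const, nsmul_eq_mul, ← mul_assoc]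

end Pool.Agent.H63.SG
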