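import Pool.Agent.H63.SG.CoreB

/-!
# `core` for the modulus 4620 and classes in `ZMod l`
-/

set_option autoImplicit false

open Finset

namespace Pool.Agent.H63.SG

theorem Cor1_le {l : ℕ} (hl : l.Prime) (h : l ∣ 4620) : l ≤ 12 := by
  have h1 : l ∣ 2 * 2 * 3 * 5 * 7 * 11 := h
  rcases (Nat.Prime.dvd_mul hl).1 h1 with h1 | h1
  · rcases (Nat.Prime.dvd_mul hl).1 h1 with h1 | h1
    · rcases (Nat.Prime.dvd_mul hl).1 h1 with h1 | h1
      · rcases (Nat.Prime.dvd_mul hl).1 h1 with h1 | h1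
        · rcases (Nat.Prime.dvd_mul hl).1 h1 with h1 | h1
          · have := Nat.le_of_dvd (by norm_num) h1
            omega
          · have := Nat.le_of_dvd (by norm_num) h1
            omega
        · have := Nat.le_of_dvd (by norm_num) h1
          omega
      · have := Nat.le_of_dvd (by norm_num) h1
        omega
    · have := Nat.le_of_dvd (by norm_num) h1
      omega
  · have := Nat.le_of_dvd (by norm_num) h1
    omega

theorem Cor1_card (l : ℕ) (a b c : ZMod l) : (({a, b, c} : Finset (ZMod l)).image ZMod.val).card ≤ 3 :=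
  card_image_le.trans card_le_three

theorem core1 : ∃ δ : ℝ, 0 < δ ∧ δ ≤ 1 / 8 ∧ ∃ κ : ℝ, 0 < κ ∧ ∃ X0 : ℕ, ∀ x y : ℕ, X0 ≤ x → y ≤ x → x ≤ 8 * (x - y) → x ≤ 8 * y →
    ∀ a : ℤ, (∀ l : ℕ, l.Prime → l ≤ 12 → ¬ (l : ℤ) ∣ a) → ∀ u₁ u₂ u₃ : ∀ l : ℕ, ZMod l,
      ∃ F : Finset ℕ, κ * ((x : ℝ) / Real.log x ^ 4) ≤ (F.card : ℝ) ∧
        ∀ t ∈ F, y < t ∧ t ≤ x ∧ t.Prime ∧ (4620 : ℤ) ∣ (t : ℤ) - a ∧
          ∀ l : ℕ, l.Prime → 12 < l → (l : ℝ) ≤ (x : ℝ) ^ δ → (t : ZMod l) ≠ u₁ l ∧ (t : ZMod l) ≠ u₂ l ∧ (t : ZMod l) ≠ u₃ l := by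
  obtain ⟨δ, hδ0, hδ1, H⟩ := core
  obtain ⟨κ, hκ, X0, H1⟩ := H 4620 (by norm_num) (fun l hl hl12 => by
    refine ((Nat.Prime.coprime_iff_not_dvd hl).2 (fun h => ?_)).symm
    have := Cor1_le hl h
    omega)
  refine ⟨δ, hδ0, hδ1, κ, hκ, X0, fun x y hx hyx h1 h2 a ha u₁ u₂ u₃ => ?_⟩
  have ha0 : 0 ≤ a % 4620 := Int.emod_nonneg a (by norm_num)
  have ha1 : (((a % 4620).toNat : ℕ) : ℤ) = a % 4620 := Int.toNat_of_nonneg ha0
  have hcop : Nat.Coprime (a % 4620).toNat 4620 := by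
    by_contra hc
    obtain ⟨l, hl, hl1, hl2⟩ := Nat.Prime.not_coprime_iff_dvd.1 hc
    apply ha l hl (Cor1_le hl hl2)
    have h3 : (l : ℤ) ∣ a % 4620 := by
      rw [← ha1]
      exact Int.natCast_dvd_natCast.2 hl1
    have h4 : (l : ℤ) ∣ 4620 := by exact_mod_cast hl2
    have h5 := Int.emod_add_mul_ediv a 4620
    rw [← h5]
    exact dvd_add h3 (Dvd.dvd.mul_right h4 _)
  obtain ⟨F, hF1, hF2⟩ := H1 x y hx hyx h1 h2 (a % 4620).toNat hcop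
    (fun l => ({u₁ l, u₂ l, u₃ l} : Finset (ZMod l)).image ZMod.val) (fun l => Cor1_card l _ _ _)
  refine ⟨F, hF1, fun t ht => ?_⟩
  obtain ⟨k1, k2, k3, k4, k5⟩ := hF2 t ht
  refine ⟨k1, k2, k3, ?_, fun l hl hl12 hlx => ?_⟩
  · have h3 : (((a % 4620).toNat : ℕ) : ℤ) ≡ (t : ℤ) [ZMOD ((4620 : ℕ) : ℤ)] := Int.natCast_modEq_iff.2 k4.symm
    have h4 := h3.dvd
    rw [ha1] at h4
    have h5 := Int.emod_add_mul_ediv a 4620
    have h6 : (4620 : ℤ) ∣ (t : ℤ) - a % 4620 := by exact_mod_cast h4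
    have h7 : (t : ℤ) - a = ((t : ℤ) - a % 4620) - 4620 * (a / 4620) := by omega
    rw [h7]
    exact dvd_sub h6 (dvd_mul_right _ _)
  · have h3 := k5 l hl hl12 hlx
    refine ⟨fun h => h3 ?_, fun h => h3 ?_, fun h => h3 ?_⟩
    · rw [← ZMod.val_natCast, h]
      exact mem_image_of_mem _ (by simp)
    · rw [← ZMod.val_natCast, h]
      exact mem_image_of_mem _ (by simp)
    · rw [← ZMod.val_natCast, h]
      exact mem_image_of_mem _ (by simp)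

end Pool.Agent.H63.SG
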