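import Pool.Agent.H63.SG.Cnt
import Pool.Agent.H60.PP.BhG
import Pool.Agent.H69.PG.VVf

/-!
# Primes in a residue class avoiding three classes modulo every prime up to a power of `x`

Brun-Hooley sieve (`H60PP.bhG`) with the Bombieri-Vinogradov theorem (`BVL.bv_pi`).
-/

set_option autoImplicit false

open Finset

namespace Pool.Agent.H63.SG

open H69PG BVL

theorem Core_li {x y : ℝ} (hy : 2 ≤ y) (hyx : y ≤ x) :
    (x - y) / Real.log x ≤ Pool.Agent.H17.ZB.Li x - Pool.Agent.H17.ZB.Li y := by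
  have hint : ∀ a b : ℝ, 2 ≤ a → a ≤ b → IntervalIntegrable (fun t : ℝ => 1 / Real.log t) MeasureTheory.volume a b := by
    intro a b ha hab
    apply ContinuousOn.intervalIntegrable
    intro t ht
    rw [Set.uIcc_of_le hab] at ht
    have ht0 : t ≠ 0 := by linarith [ht.1]
    have hlt : Real.log t ≠ 0 := (Real.log_pos (by linarith [ht.1])).ne'
    apply ContinuousAt.continuousWithinAt
    fun_prop
  have h1 : Pool.Agent.H17.ZB.Li x - Pool.Agent.H17.ZB.Li y = ∫ t in y..x, 1 / Real.log t := by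
    unfold Pool.Agent.H17.ZB.Li
    rw [← intervalIntegral.integral_add_adjacent_intervals (hint 2 y le_rfl hy) (hint y x hy hyx)]
    ring
  rw [h1]
  have hx0 : 0 < Real.log x := Real.log_pos (by linarith)
  have h2 : ∫ t in y..x, (1 / Real.log x : ℝ) ≤ ∫ t in y..x, 1 / Real.log t :=
    intervalIntegral.integral_mono_on hyx intervalIntegrable_const (hint y x hy hyx) (fun t ht =>
      one_div_le_one_div_of_le (Real.log_pos (by linarith [ht.1])) (Real.log_le_log (by linarith [ht.1]) ht.2))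
  rw [intervalIntegral.integral_const, smul_eq_mul, mul_one_div] at h2
  exact h2

theorem Core_one_sub {ι : Type*} (T : Finset ι) (a : ι → ℝ) (ha0 : ∀ i ∈ T, 0 ≤ a i) (ha1 : ∀ i ∈ T, a i ≤ 1) :
    1 - ∑ i ∈ T, a i ≤ ∏ i ∈ T, (1 - a i) := by
  classical
  induction T using Finset.induction_on with
  | empty => simp
  | insert i T hi ih =>
    rw [sum_insert hi, prod_insert hi]
    have h0 := ha0 i (mem_insert_self _ _)
    have h1 := ha1 i (mem_insert_self _ _)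
    have ih' := ih (fun j hj => ha0 j (mem_insert_of_mem hj)) (fun j hj => ha1 j (mem_insert_of_mem hj))
    have h2 : 0 ≤ ∑ j ∈ T, a j := sum_nonneg (fun j hj => ha0 j (mem_insert_of_mem hj))
    nlinarith

theorem Core_fac {l : ℕ} (hl : 12 < l) {d : ℕ} (hd : d ≤ 3) :
    (1 - ((1 : ℕ) : ℝ) / l) ^ 3 * (1 - 10 / (l : ℝ) ^ 2) ≤ 1 - (d : ℝ) / ((l : ℝ) - 1) := by
  have hl' : (13 : ℝ) ≤ l := by exact_mod_cast hl
  have hl0 : (0 : ℝ) < l := by linarith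
  have hd' : (d : ℝ) ≤ 3 := by exact_mod_cast hd
  have h1 : (d : ℝ) / ((l : ℝ) - 1) ≤ 3 / ((l : ℝ) - 1) := div_le_div_of_nonneg_right hd' (by linarith)
  have h2 : (1 - ((1 : ℕ) : ℝ) / l) ^ 3 * (1 - 10 / (l : ℝ) ^ 2) ≤ 1 - 3 / ((l : ℝ) - 1) := by
    obtain ⟨u, hu⟩ : ∃ u : ℝ, u = 1 / (l : ℝ) := ⟨_, rfl⟩
    have hu0 : 0 < u := by rw [hu]; positivity
    have hu1 : u ≤ 1 / 13 := by
      rw [hu]
      exact one_div_le_one_div_of_le (by norm_num) hl'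
    have e1 : 3 / ((l : ℝ) - 1) = 3 * u / (1 - u) := by
      rw [hu]
      have : (l : ℝ) - 1 ≠ 0 := by linarith
      field_simp
    have e2 : 10 / (l : ℝ) ^ 2 = 10 * u ^ 2 := by
      rw [hu]
      field_simp
    have e3 : ((1 : ℕ) : ℝ) / (l : ℝ) = u := by rw [hu, Nat.cast_one]
    rw [e1, e2, e3]
    have h1u : 0 < 1 - u := by linarith
    rw [le_sub_iff_add_le, ← le_sub_iff_add_le', div_le_iff₀ h1u]
    nlinarith [pow_pos hu0 2, pow_pos hu0 3, pow_pos hu0 4, pow_pos hu0 5, pow_pos hu0 6,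
      mul_nonneg (pow_pos hu0 2).le (by linarith : (0:ℝ) ≤ 1 / 13 - u), mul_nonneg (pow_pos hu0 3).le (by linarith : (0:ℝ) ≤ 1 / 13 - u),
      mul_nonneg (pow_pos hu0 4).le (by linarith : (0:ℝ) ≤ 1 / 13 - u), mul_nonneg (pow_pos hu0 5).le (by linarith : (0:ℝ) ≤ 1 / 13 - u)]
  linarith

/-- the local inequality at the primes `l > 12` for `m` classes -/
def Fac (m : ℕ) : Prop := ∀ l : ℕ, 12 < l → ∀ d : ℕ, d ≤ m →
  (1 - ((1 : ℕ) : ℝ) / l) ^ m * (1 - 10 / (l : ℝ) ^ 2) ≤ 1 - (d : ℝ) / ((l : ℝ) - 1)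

theorem Fac3 : Fac 3 := fun _ hl _ hd => Core_fac hl hd

theorem Fac1 : Fac 1 := by
  intro l hl d hd
  have hl' : (13 : ℝ) ≤ l := by exact_mod_cast hl
  have hl0 : (0 : ℝ) < l := by linarith
  have hd' : (d : ℝ) ≤ 1 := by exact_mod_cast hd
  have h1 : (d : ℝ) / ((l : ℝ) - 1) ≤ 1 / ((l : ℝ) - 1) := div_le_div_of_nonneg_right hd' (by linarith)
  have h2 : (1 - ((1 : ℕ) : ℝ) / l) ^ 1 * (1 - 10 / (l : ℝ) ^ 2) ≤ 1 - 1 / ((l : ℝ) - 1) := by
    obtain ⟨u, hu⟩ : ∃ u : ℝ, u = 1 / (l : ℝ) := ⟨_, rfl⟩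
    have hu0 : 0 < u := by rw [hu]; positivity
    have hu1 : u ≤ 1 / 13 := by
      rw [hu]
      exact one_div_le_one_div_of_le (by norm_num) hl'
    have e1 : 1 / ((l : ℝ) - 1) = u / (1 - u) := by
      rw [hu]
      have : (l : ℝ) - 1 ≠ 0 := by linarith
      field_simp
    have e2 : 10 / (l : ℝ) ^ 2 = 10 * u ^ 2 := by
      rw [hu]
      field_simp
    have e3 : ((1 : ℕ) : ℝ) / (l : ℝ) = u := by rw [hu, Nat.cast_one]
    rw [e1, e2, e3, pow_one]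
    have h1u : 0 < 1 - u := by linarith
    rw [le_sub_iff_add_le, ← le_sub_iff_add_le', div_le_iff₀ h1u]
    nlinarith [pow_pos hu0 2, pow_pos hu0 3, pow_pos hu0 4,
      mul_nonneg (pow_pos hu0 2).le (by linarith : (0:ℝ) ≤ 1 / 13 - u), mul_nonneg (pow_pos hu0 3).le (by linarith : (0:ℝ) ≤ 1 / 13 - u)]
  linarith

theorem Core_prod {m : ℕ} (hm : Fac m) {z : ℕ} (hz : 12 ≤ z) (d : ℕ → ℕ) (hd : ∀ l, d l ≤ m) :
    (1 / 6 : ℝ) * (VV 12 z 1) ^ m ≤ ∏ l ∈ PK 12 z, (1 - (d l : ℝ) / ((l : ℝ) - 1)) := by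
  have h1 : ∏ l ∈ PK 12 z, ((1 - ((1 : ℕ) : ℝ) / l) ^ m * (1 - 10 / (l : ℝ) ^ 2)) ≤
      ∏ l ∈ PK 12 z, (1 - (d l : ℝ) / ((l : ℝ) - 1)) := by
    refine prod_le_prod (fun l hl => ?_) (fun l hl => hm l (bh_mem_PK.1 hl).1 _ (hd l))
    have hl' : (13 : ℝ) ≤ l := by exact_mod_cast (bh_mem_PK.1 hl).1
    have h2 : ((1 : ℕ) : ℝ) / l ≤ 1 := by
      rw [div_le_one (by linarith), Nat.cast_one]
      linarith
    have h3 : 10 / (l : ℝ) ^ 2 ≤ 1 := by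
      rw [div_le_one (by positivity)]
      nlinarith
    exact mul_nonneg (pow_nonneg (by linarith) m) (by linarith)
  refine le_trans ?_ h1
  rw [prod_mul_distrib, prod_pow]
  have h2 : (1 / 6 : ℝ) ≤ ∏ l ∈ PK 12 z, (1 - 10 / (l : ℝ) ^ 2) := by
    refine le_trans ?_ (Core_one_sub (PK 12 z) (fun l => 10 / (l : ℝ) ^ 2) (fun l _ => by positivity) (fun l hl => ?_))
    · have h3 : ∑ l ∈ PK 12 z, (10 / (l : ℝ) ^ 2) ≤ ∑ l ∈ Ioc 12 z, (10 / (l : ℝ) ^ 2) :=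
        sum_le_sum_of_subset_of_nonneg (filter_subset _ _) (fun l _ _ => by positivity)
      have h4 : ∑ l ∈ Ioc 12 z, (10 / (l : ℝ) ^ 2) = 10 * ∑ l ∈ Ioc 12 z, ((l : ℝ) ^ 2)⁻¹ := by
        rw [mul_sum]
        exact sum_congr rfl (fun l _ => by rw [div_eq_mul_inv])
      have h5 := sum_Ioc_inv_sq_le_sub (α := ℝ) (k := 12) (n := z) (by norm_num) hz
      have h6 : (0 : ℝ) ≤ ((z : ℝ))⁻¹ := by positivity
      rw [h4] at h3
      norm_num at h5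
      linarith
    · have hl' : (13 : ℝ) ≤ l := by exact_mod_cast (bh_mem_PK.1 hl).1
      show 10 / (l : ℝ) ^ 2 ≤ 1
      rw [div_le_one (by positivity)]
      nlinarith
  have h3 : (0 : ℝ) ≤ (VV 12 z 1) ^ m := pow_nonneg (vv_pos (by norm_num)).le m
  have h4 : (VV 12 z 1) ^ m = (∏ l ∈ PK 12 z, (1 - ((1 : ℕ) : ℝ) / l)) ^ m := rfl
  rw [← h4]
  nlinarith

theorem Core_vv {c : ℝ} (hc1 : 1 ≤ c) (hc : ∀ (P : Set ℕ) (z : ℕ), 2 ≤ z → 1 / (c * Real.log z) ≤ Pool.Agent.H67.GT.V P z)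
    {z : ℕ} (hz : 12 ≤ z) : 1 / (c * Real.log z) ≤ VV 12 z 1 := by
  have h1 := hc Set.univ z (by omega)
  rw [VVFaux.vuniv_split hz] at h1
  have h2 := VVFaux.vuniv_le_one 12
  have h3 := vv_pos (K := 12) (z := z) (j := 1) (by norm_num)
  nlinarith [VVFaux.vuniv_pos 12]

theorem Core_sum {E : ℕ → ℝ} (hE : ∀ q, 0 ≤ E q) {M z D0 Q : ℕ} (hM : 1 ≤ M) (hQ : M * z ^ D0 ≤ Q) :
    ∑ S ∈ (PK 12 z).powerset.filter (fun S => ∏ p ∈ S, p ≤ z ^ D0), ((3 : ℝ) ^ S.card * (2 * E (M * ∏ p ∈ S, p))) ≤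
      2 * ∑ q ∈ Icc 1 Q, |(3 : ℝ)| ^ q.primeFactors.card * E q := by
  classical
  set F := (PK 12 z).powerset.filter (fun S => ∏ p ∈ S, p ≤ z ^ D0) with hF
  have hpr : ∀ S ∈ F, ∀ p ∈ S, p.Prime := by
    intro S hS p hp
    exact (bh_mem_PK.1 (mem_powerset.1 (mem_filter.1 hS).1 hp)).2.2
  have hpos : ∀ S ∈ F, 0 < ∏ p ∈ S, p := fun S hS => prod_pos (fun p hp => (hpr S hS p hp).pos)
  have hinj : ∀ S ∈ F, ∀ S' ∈ F, M * ∏ p ∈ S, p = M * ∏ p ∈ S', p → S = S' := by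
    intro S hS S' hS' h
    have h1 : ∏ p ∈ S, p = ∏ p ∈ S', p := Nat.eq_of_mul_eq_mul_left hM h
    rw [← Nat.primeFactors_prod (hpr S hS), ← Nat.primeFactors_prod (hpr S' hS'), h1]
  have h1 : ∀ S ∈ F, (3 : ℝ) ^ S.card * (2 * E (M * ∏ p ∈ S, p)) ≤
      2 * (|(3 : ℝ)| ^ (M * ∏ p ∈ S, p).primeFactors.card * E (M * ∏ p ∈ S, p)) := by
    intro S hS
    have h2 : S.card ≤ (M * ∏ p ∈ S, p).primeFactors.card := by
      apply card_le_card
      intro p hp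
      rw [Nat.mem_primeFactors]
      exact ⟨hpr S hS p hp, Dvd.dvd.mul_left (dvd_prod_of_mem _ hp) _, (Nat.mul_pos hM (hpos S hS)).ne'⟩
    have h3 : (3 : ℝ) ^ S.card ≤ |(3 : ℝ)| ^ (M * ∏ p ∈ S, p).primeFactors.card := by
      rw [abs_of_pos (by norm_num : (0 : ℝ) < 3)]
      exact pow_le_pow_right₀ (by norm_num) h2
    have h4 := mul_le_mul_of_nonneg_right h3 (hE (M * ∏ p ∈ S, p))
    linarith
  refine (sum_le_sum h1).trans ?_
  rw [← mul_sum]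
  refine mul_le_mul_of_nonneg_left ?_ (by norm_num)
  rw [← sum_image (f := fun q => |(3 : ℝ)| ^ q.primeFactors.card * E q) (g := fun S : Finset ℕ => M * ∏ p ∈ S, p)
    (fun S hS S' hS' h => hinj S hS S' hS' h)]
  refine sum_le_sum_of_subset_of_nonneg ?_ (fun q _ _ => mul_nonneg (pow_nonneg (abs_nonneg _) _) (hE q))
  intro q hq
  obtain ⟨S, hS, rfl⟩ := mem_image.1 hq
  rw [mem_Icc]
  exact ⟨Nat.mul_pos hM (hpos S hS), (Nat.mul_le_mul_left M (mem_filter.1 hS).2).trans hQ⟩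

end Pool.Agent.H63.SG
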