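import Mathlib

/-!
# ROW Cs: Cauchy-Schwarz

PROOF. `R n = #{e ∈ A × B : f e = n}`, `∑_{n ∈ I} R n = |A| |B|`, the terms with `R n > 0` are in `I' = {n ∈ I : ∃ a b, f a b = n}`; `(∑_{I'} R n)^2 ≤ |I'| ∑_{I'} (R n)^2 ≤ |I'| W^2 ∑ (g n)^2`.
-/

set_option autoImplicit false

open Finset

namespace Pool.Agent.H63.SG

open scoped Classical in
theorem Cs_bd (A B I : Finset ℕ) (f : ℕ → ℕ → ℕ) (hf : ∀ a ∈ A, ∀ b ∈ B, f a b ∈ I) (g : ℕ → ℝ) (W Z : ℝ) (hW : 0 ≤ W)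
    (h1 : ∀ n ∈ I, (((A ×ˢ B).filter (fun e => f e.1 e.2 = n)).card : ℝ) ≤ W * g n) (h2 : ∑ n ∈ I, g n ^ 2 ≤ Z) :
    ((A.card : ℝ) * B.card) ^ 2 ≤ ((I.filter (fun n => ∃ a ∈ A, ∃ b ∈ B, f a b = n)).card : ℝ) * (W ^ 2 * Z) := by
  set I' := I.filter (fun n => ∃ a ∈ A, ∃ b ∈ B, f a b = n) with hI'
  have e1 : (A ×ˢ B).card
      = ∑ n ∈ I', ((A ×ˢ B).filter (fun e => f e.1 e.2 = n)).card := by
    refine card_eq_sum_card_fiberwise fun e he => ?_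
    have he' := mem_product.1 (mem_coe.1 he)
    rw [hI', mem_coe, mem_filter]
    exact ⟨hf _ he'.1 _ he'.2, e.1, he'.1, e.2, he'.2, rfl⟩
  have e2 : (A.card : ℝ) * B.card
      = ∑ n ∈ I', (((A ×ˢ B).filter (fun e => f e.1 e.2 = n)).card : ℝ) := by
    rw [card_product] at e1
    exact_mod_cast e1
  rw [e2]
  refine le_trans sq_sum_le_card_mul_sum_sq ?_
  refine mul_le_mul_of_nonneg_left ?_ (Nat.cast_nonneg _)
  calc ∑ n ∈ I', (((A ×ˢ B).filter (fun e => f e.1 e.2 = n)).card : ℝ) ^ 2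
      ≤ ∑ n ∈ I', W ^ 2 * g n ^ 2 := by
        refine sum_le_sum fun n hn => ?_
        rw [← mul_pow]
        exact pow_le_pow_left₀ (Nat.cast_nonneg _) (h1 n (mem_filter.1 hn).1) 2
    _ ≤ ∑ n ∈ I, W ^ 2 * g n ^ 2 :=
        sum_le_sum_of_subset_of_nonneg (filter_subset _ _) fun n _ _ => by positivity
    _ = W ^ 2 * ∑ n ∈ I, g n ^ 2 := by rw [mul_sum]
    _ ≤ W ^ 2 * Z := mul_le_mul_of_nonneg_left h2 (by positivity)

end Pool.Agent.H63.SG
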