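import Pool.Agent.H63.SG.Av2

/-!
# Four primes on average over the shifts (MP_9c53e9_nt, second hand-in): definitions

Goal: there are absolute `C, β > 0` such that for large `x` and `C log x ≤ D ≤ x/400`, for at least `β D^2` pairs of shifts `|d₁|, |d₂| ≤ D` divisible by `6`
(every sign pattern) at least `β x` of the even (odd) `n ≤ x` have a representation `n = p + c(n) q` with all FOUR numbers `p, p - d₁, q, q + d₂` prime.
-/

set_option autoImplicit false

open Finset

namespace Pool.Agent.H63.SG

/-- the primes `p = 1` mod `3` in `(y, x]` -/
def P1 (y x : ℕ) : Finset ℕ := (Ioc y x).filter (fun p => p.Prime ∧ p % 3 = 1)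

/-- the number of `p` such that `p` and `p + e` are both in `P1 y x` -/
def Me (y x e : ℕ) : ℕ := ((P1 y x).filter (fun p => p + e ∈ P1 y x)).card

end Pool.Agent.H63.SG
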