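import Pool.Agent.H60.PP.BhG
import Pool.Agent.H69.PG.VVf

/-!
# ROW Up: upper bound sieve for four classes

PROOF. `H60PP.bhG` with `J = 2`, `b0 = 3 C0`, `K = 12`, `D0 = 4 b0 + 10`, `δ₀ = 1/(8 D0)`, `δ ≤ δ₀` arbitrary, `z = ⌊x^δ⌋₊`, `T = Icc 1 x`, `Dl l = ` image of `i ↦ (u i l).val` (at most 4 elements, all `< l` for `l` prime), `B t l := t % l ∈ Dl l`,
`g l = |Dl l|/l ≤ 4/l`, `Y = x`, `R S = 4^|S|`. Hypothesis on `T`: for a set `S` of primes, `|#{t ∈ Icc 1 x : ∀ l ∈ S, t % l ∈ Dl l} - x ∏_{l ∈ S} |Dl l|/l| ≤ ∏_{l ∈ S} |Dl l| ≤ 4^|S|`: induction on `S` exactly as `Cnt_main`, `Cnt_step` in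
`Pool/Agent/H63/SG/Cnt.lean` (general modulus `M` and class `a`; the base case is that the number of `t ∈ Icc 1 x`, `t ≡ a [MOD M]`, is `x/M` with an error `≤ 1`: `Nat.count_modEq_card` or `Nat.Ioc_filter_modEq_card`); or see `Pool/Agent/H69/PG/Crt.lean`.
`F ⊆ ` the sifted set, so `|F| ≤ 2 x ∏_{l ∈ PK 12 z} (1 - g l) + (log2 z + 2) ∑_{∏ S ≤ z^D0} 4^|S|`, and the last sum is `≤ z^(2 D0) ≤ x^(1/4)` (`4^|S| ≤ ∏ S ≤ z^D0`, and `S ↦ ∏ S ∈ Icc 1 (z^D0)` is injective, cf. `Core_sum` in `Core.lean`), so the error is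
`≤ 5 log x · x^(1/4) ≤ x/(log x)^4` for large `x`.
Main term: for `l ∉ Bad` `|Dl l| = 4`; for `l ∈ Bad` use `1 - g l ≤ 1 ≤ (1 - 4/l)(1 + 6/l)` (`l ≥ 13`). So `∏ (1 - g l) ≤ ∏ (1 - 4/l) ∏_{l ∈ Bad, l prime, 12 < l} (1 + 6/l)`, `1 - 4/l ≤ (1 - 1/l)^4` (Bernoulli: `one_add_mul_le_pow`),
`VV 12 z 1 = V univ z/V univ 12 ≤ (c/log z)/V univ 12` (`VVFaux.vuniv_split`, and the fifth part of `Pool.Agent.H67.GT.MERT.mert`; see also `vv1` in `Pool/Agent/H82/LX/Zfu.lean`), `log z ≥ (δ/2) log x` for large `x`.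
-/

set_option autoImplicit false

open Finset

namespace Pool.Agent.H63.SG

open H69PG

/-- The `t` in `(0, x]` in the class of `a` mod `M` whose residue mod `l` is in `D l` for all `l ∈ S`. -/
def UpXU (D : ℕ → Finset ℕ) (x M a : ℕ) (S : Finset ℕ) : Finset ℕ :=
  (Ioc 0 x).filter (fun t => t ≡ a [MOD M] ∧ ∀ l ∈ S, t % l ∈ D l)

theorem UpX_base (D : ℕ → Finset ℕ) {x M a : ℕ} (hM : 1 ≤ M) :
    |((UpXU D x M a ∅).card : ℝ) - (x : ℝ) / (M : ℝ)| ≤ 1 := by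
  have h0 : UpXU D x M a ∅ = (Ioc 0 x).filter (fun t => t ≡ a [MOD M]) := by
    unfold UpXU
    apply filter_congr
    intro t _
    simp
  have h1 := Nat.Ioc_filter_modEq_card 0 x (r := M) (by omega) a
  rw [h0]
  have hM' : (0 : ℚ) < M := by exact_mod_cast hM
  set A : ℚ := ((x : ℚ) - a) / M with hA
  set B : ℚ := ((0 : ℕ) - (a : ℚ)) / M with hB
  have hAB : A - B = (x : ℚ) / M := by
    rw [hA, hB, Nat.cast_zero]
    field_simp
    ring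
  have hx0 : (0 : ℚ) ≤ (x : ℚ) / M := by positivity
  have a1 := Int.floor_le A
  have a2 := Int.lt_floor_add_one A
  have b1 := Int.floor_le B
  have b2 := Int.lt_floor_add_one B
  have hle : ⌊B⌋ ≤ ⌊A⌋ := Int.floor_le_floor (by linarith)
  have h2 : ((((Ioc 0 x).filter (fun t => t ≡ a [MOD M])).card : ℕ) : ℤ) = ⌊A⌋ - ⌊B⌋ := by
    rw [h1]
    exact max_eq_left (by linarith)
  have h3 : ((((Ioc 0 x).filter (fun t => t ≡ a [MOD M])).card : ℕ) : ℚ) = (⌊A⌋ : ℚ) - (⌊B⌋ : ℚ) := by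
    exact_mod_cast h2
  have h4 : |((((Ioc 0 x).filter (fun t => t ≡ a [MOD M])).card : ℕ) : ℚ) - (x : ℚ) / M| ≤ 1 := by
    rw [h3, ← hAB, abs_le]
    constructor <;> linarith
  have h5 : ((|((((Ioc 0 x).filter (fun t => t ≡ a [MOD M])).card : ℕ) : ℚ) - (x : ℚ) / M| : ℚ) : ℝ) ≤ ((1 : ℚ) : ℝ) := by
    exact_mod_cast h4
  push_cast at h5
  exact h5

theorem UpX_step (D : ℕ → Finset ℕ) {x M a l : ℕ} {S : Finset ℕ} (hM : Nat.Coprime M l)
    (hD : ∀ r ∈ D l, r < l) :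
    ∃ f : ℕ → ℕ, (UpXU D x M a (insert l S)).card = ∑ r ∈ D l, (UpXU D x (M * l) (f r) S).card := by
  refine ⟨fun r => (Nat.chineseRemainder hM a r : ℕ), ?_⟩
  rw [← card_biUnion]
  · congr 1
    ext t
    simp only [UpXU, mem_filter, mem_biUnion, mem_insert, forall_eq_or_imp]
    constructor
    · rintro ⟨h1, h3, h4, h5⟩
      refine ⟨t % l, h4, h1, ?_, h5⟩
      rw [← Nat.modEq_and_modEq_iff_modEq_mul hM]
      exact ⟨h3.trans (Nat.chineseRemainder hM a (t % l)).2.1.symm,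
        (Nat.mod_modEq t l).symm.trans (Nat.chineseRemainder hM a (t % l)).2.2.symm⟩
    · rintro ⟨r, hr, h1, h3, h5⟩
      rw [← Nat.modEq_and_modEq_iff_modEq_mul hM] at h3
      refine ⟨h1, h3.1.trans (Nat.chineseRemainder hM a r).2.1, ?_, h5⟩
      have h6 : t ≡ r [MOD l] := h3.2.trans (Nat.chineseRemainder hM a r).2.2
      have h7 : t % l = r := by
        rw [h6, Nat.mod_eq_of_lt (hD r hr)]
      rw [h7]
      exact hr
  · intro r hr r' hr' hne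
    rw [Function.onFun, disjoint_left]
    intro t ht ht'
    apply hne
    have h1 : t ≡ r [MOD l] := by
      have h := (mem_filter.1 ht).2.1
      rw [← Nat.modEq_and_modEq_iff_modEq_mul hM] at h
      exact h.2.trans (Nat.chineseRemainder hM a r).2.2
    have h2 : t ≡ r' [MOD l] := by
      have h := (mem_filter.1 ht').2.1
      rw [← Nat.modEq_and_modEq_iff_modEq_mul hM] at h
      exact h.2.trans (Nat.chineseRemainder hM a r').2.2
    have h3 := h1.symm.trans h2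
    exact Nat.ModEq.eq_of_lt_of_lt h3 (hD r hr) (hD r' hr')

theorem UpX_main (D : ℕ → Finset ℕ) {x : ℕ} (S : Finset ℕ) :
    (∀ l ∈ S, l.Prime) → (∀ l ∈ S, ∀ r ∈ D l, r < l) →
    ∀ M a : ℕ, 1 ≤ M → (∀ l ∈ S, Nat.Coprime M l) →
    |((UpXU D x M a S).card : ℝ) - (x : ℝ) / (M : ℝ) * ∏ l ∈ S, (((D l).card : ℝ) / (l : ℝ))| ≤
      ∏ l ∈ S, ((D l).card : ℝ) := by
  induction S using Finset.induction_on with
  | empty =>
    intro _ _ M a hM _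
    simp only [prod_empty, mul_one]
    exact UpX_base D hM
  | insert l S hlS ih =>
    intro hP hD M a hM hc
    have hl : l.Prime := hP l (mem_insert_self _ _)
    have hMl : Nat.Coprime M l := hc l (mem_insert_self _ _)
    obtain ⟨f, hf2⟩ := UpX_step (x := x) (a := a) D (S := S) hMl (hD l (mem_insert_self _ _))
    have hMl1 : 1 ≤ M * l := Nat.mul_pos hM hl.pos
    have hcS : ∀ l' ∈ S, Nat.Coprime (M * l) l' := by
      intro l' hl'
      refine Nat.Coprime.mul_left (hc l' (mem_insert_of_mem hl')) ?_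
      rw [Nat.coprime_primes hl (hP l' (mem_insert_of_mem hl'))]
      rintro rfl
      exact hlS hl'
    have ih' := fun r (_ : r ∈ D l) => ih (fun l' hl' => hP l' (mem_insert_of_mem hl'))
      (fun l' hl' => hD l' (mem_insert_of_mem hl')) (M * l) (f r) hMl1 hcS
    rw [hf2, prod_insert hlS, prod_insert hlS]
    have hl1 : (l : ℝ) ≠ 0 := by exact_mod_cast hl.ne_zero
    have hM1 : (M : ℝ) ≠ 0 := by exact_mod_cast (by omega : M ≠ 0)
    set Q1 : ℝ := ∏ l' ∈ S, (((D l').card : ℝ) / (l' : ℝ)) with hQ1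
    have e1 : (x : ℝ) / (M : ℝ) * (((D l).card : ℝ) / (l : ℝ) * Q1) =
        ∑ r ∈ D l, (x : ℝ) / ((M * l : ℕ) : ℝ) * Q1 := by
      rw [sum_const, nsmul_eq_mul, Nat.cast_mul]
      field_simp
    rw [e1, Nat.cast_sum, ← sum_sub_distrib]
    refine (abs_sum_le_sum_abs _ _).trans ?_
    refine (sum_le_sum ih').trans ?_
    rw [sum_const, nsmul_eq_mul]

/-- the sum of the errors -/
theorem UpX_sum {z D0 : ℕ} : ∑ S ∈ (PK 12 z).powerset.filter (fun S => ∏ p ∈ S, p ≤ z ^ D0), ((4 : ℝ) ^ S.card) ≤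
    ((z : ℝ) ^ D0) * ((z : ℝ) ^ D0) := by
  classical
  set F := (PK 12 z).powerset.filter (fun S => ∏ p ∈ S, p ≤ z ^ D0) with hF
  have hmem : ∀ S ∈ F, ∀ p ∈ S, 12 < p ∧ p.Prime := by
    intro S hS p hp
    have := bh_mem_PK.1 (mem_powerset.1 (mem_filter.1 hS).1 hp)
    exact ⟨this.1, this.2.2⟩
  have hpos : ∀ S ∈ F, 0 < ∏ p ∈ S, p := fun S hS => prod_pos (fun p hp => (hmem S hS p hp).2.pos)
  have hinj : ∀ S ∈ F, ∀ S' ∈ F, ∏ p ∈ S, p = ∏ p ∈ S', p → S = S' := by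
    intro S hS S' hS' h1
    rw [← Nat.primeFactors_prod (fun p hp => (hmem S hS p hp).2),
      ← Nat.primeFactors_prod (fun p hp => (hmem S' hS' p hp).2), h1]
  have h1 : ∀ S ∈ F, (4 : ℝ) ^ S.card ≤ (z : ℝ) ^ D0 := by
    intro S hS
    have h2 : (4 : ℝ) ^ S.card ≤ ∏ p ∈ S, (p : ℝ) := by
      rw [← prod_const]
      refine prod_le_prod (fun _ _ => by norm_num) (fun p hp => ?_)
      have := (hmem S hS p hp).1
      exact_mod_cast (by omega : 4 ≤ p)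
    have h3 : (∏ p ∈ S, (p : ℝ)) ≤ (z : ℝ) ^ D0 := by
      have h4 : ((∏ p ∈ S, p : ℕ) : ℝ) ≤ ((z ^ D0 : ℕ) : ℝ) := Nat.cast_le.2 (mem_filter.1 hS).2
      rw [Nat.cast_prod, Nat.cast_pow] at h4
      exact h4
    exact h2.trans h3
  have h2 : F.card ≤ z ^ D0 := by
    have h3 : F.card = (F.image (fun S => ∏ p ∈ S, p)).card := (card_image_of_injOn (fun S hS S' hS' h => hinj S hS S' hS' h)).symm
    rw [h3]
    have h4 : F.image (fun S => ∏ p ∈ S, p) ⊆ Icc 1 (z ^ D0) := by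
      intro q hq
      obtain ⟨S, hS, rfl⟩ := mem_image.1 hq
      exact mem_Icc.2 ⟨hpos S hS, (mem_filter.1 hS).2⟩
    have h5 := card_le_card h4
    rw [Nat.card_Icc, Nat.add_sub_cancel] at h5
    exact h5
  calc ∑ S ∈ F, (4 : ℝ) ^ S.card ≤ ∑ _S ∈ F, (z : ℝ) ^ D0 := sum_le_sum h1
    _ = (F.card : ℝ) * (z : ℝ) ^ D0 := by rw [sum_const, nsmul_eq_mul]
    _ ≤ _ := mul_le_mul_of_nonneg_right (by exact_mod_cast h2) (by positivity)

/-- one factor -/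
theorem UpX_fac {l : ℕ} (hl : 12 < l) : 1 - 4 / (l : ℝ) ≤ (1 - ((1 : ℕ) : ℝ) / l) ^ 4 ∧
    1 ≤ (1 - ((1 : ℕ) : ℝ) / l) ^ 4 * (1 + 6 / (l : ℝ)) ∧ 0 ≤ (1 - ((1 : ℕ) : ℝ) / l) := by
  have hl' : (13 : ℝ) ≤ l := by exact_mod_cast hl
  have hl0 : (0 : ℝ) < l := by linarith
  obtain ⟨u, hu⟩ : ∃ u : ℝ, u = 1 / (l : ℝ) := ⟨_, rfl⟩
  have hu0 : 0 < u := by rw [hu]; positivity
  have hu1 : u ≤ 1 / 13 := by
    rw [hu]
    exact one_div_le_one_div_of_le (by norm_num) hl'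
  have e1 : 4 / (l : ℝ) = 4 * u := by rw [hu]; ring
  have e2 : 6 / (l : ℝ) = 6 * u := by rw [hu]; ring
  have e3 : ((1 : ℕ) : ℝ) / (l : ℝ) = u := by rw [hu, Nat.cast_one]
  rw [e1, e2, e3]
  have h1 : 1 - 4 * u ≤ (1 - u) ^ 4 := by nlinarith [pow_pos hu0 2, pow_pos hu0 3, pow_pos hu0 4]
  refine ⟨h1, ?_, by linarith⟩
  have h2 : 1 ≤ (1 - 4 * u) * (1 + 6 * u) := by nlinarith
  nlinarith

/-- the product -/
theorem UpX_prod {z : ℕ} (g : ℕ → ℝ) (Bad : Finset ℕ) (hg0 : ∀ l ∈ PK 12 z, 0 ≤ g l)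
    (hg : ∀ l ∈ PK 12 z, l ∉ Bad → g l = 4 / (l : ℝ)) (hg1 : ∀ l ∈ PK 12 z, g l ≤ 1) :
    ∏ l ∈ PK 12 z, (1 - g l) ≤ (VV 12 z 1) ^ 4 * ∏ l ∈ Bad.filter (fun l => l.Prime ∧ 12 < l), (1 + 6 / (l : ℝ)) := by
  classical
  have h1 : ∏ l ∈ PK 12 z, (1 - g l) ≤ ∏ l ∈ PK 12 z, ((1 - ((1 : ℕ) : ℝ) / l) ^ 4 * (if l ∈ Bad then 1 + 6 / (l : ℝ) else 1)) := by
    refine prod_le_prod (fun l hl => by linarith [hg1 l hl]) (fun l hl => ?_)
    obtain ⟨f1, f2, f3⟩ := UpX_fac (bh_mem_PK.1 hl).1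
    by_cases hb : l ∈ Bad
    · rw [if_pos hb]
      linarith [hg0 l hl]
    · rw [if_neg hb, mul_one, hg l hl hb]
      exact f1
  refine h1.trans ?_
  rw [prod_mul_distrib, prod_pow]
  have h2 : ∏ l ∈ PK 12 z, (if l ∈ Bad then 1 + 6 / (l : ℝ) else 1) ≤
      ∏ l ∈ Bad.filter (fun l => l.Prime ∧ 12 < l), (1 + 6 / (l : ℝ)) := by
    rw [← prod_filter]
    have hsub : (PK 12 z).filter (fun l => l ∈ Bad) ⊆ Bad.filter (fun l => l.Prime ∧ 12 < l) := by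
      intro l hl
      rw [mem_filter] at hl ⊢
      have := bh_mem_PK.1 hl.1
      exact ⟨hl.2, this.2.2, this.1⟩
    have hone : ∀ l : ℕ, (1 : ℝ) ≤ 1 + 6 / (l : ℝ) := by
      intro l
      have : (0 : ℝ) ≤ 6 / (l : ℝ) := by positivity
      linarith
    rw [← prod_sdiff hsub]
    have h4 : (1 : ℝ) ≤ ∏ l ∈ (Bad.filter (fun l => l.Prime ∧ 12 < l)) \ ((PK 12 z).filter (fun l => l ∈ Bad)), (1 + 6 / (l : ℝ)) :=
      prod_induction _ (fun r : ℝ => 1 ≤ r) (fun a b ha hb => one_le_mul_of_one_le_of_one_le ha hb) le_rfl (fun l _ => hone l)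
    have h5 : (0 : ℝ) ≤ ∏ l ∈ (PK 12 z).filter (fun l => l ∈ Bad), (1 + 6 / (l : ℝ)) :=
      prod_nonneg (fun l _ => by linarith [hone l])
    exact le_mul_of_one_le_left h5 h4
  have h3 : (0 : ℝ) ≤ (VV 12 z 1) ^ 4 := pow_nonneg (vv_pos (by norm_num)).le 4
  exact mul_le_mul_of_nonneg_left h2 h3

theorem UpX_vv : ∃ C : ℝ, 1 ≤ C ∧ ∀ z : ℕ, 12 ≤ z → VV 12 z 1 ≤ C / Real.log z := by
  obtain ⟨C, hC, h⟩ := vv_mu
  have h12 : 1 ≤ Real.log 12 := by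
    rw [Real.le_log_iff_exp_le (by norm_num)]
    have := Real.exp_one_lt_d9
    linarith
  refine ⟨4 * C * Real.log 12, by nlinarith, fun z hz => ?_⟩
  have h1 := h 2 12 z le_rfl (by norm_num) hz
  have hp : primorial 2 = 2 := by
    unfold primorial
    decide
  rw [hp] at h1
  have ht : Nat.totient 2 = 1 := Nat.totient_two
  rw [ht] at h1
  have c12 : ((12 : ℕ) : ℝ) = 12 := by norm_num
  have c2 : ((2 : ℕ) : ℝ) = 2 := by norm_num
  have c1 : ((1 : ℕ) : ℝ) = 1 := by norm_num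
  rw [c12, c2, c1] at h1
  have lz : 0 < Real.log z := Real.log_pos (by exact_mod_cast (by omega : 1 < z))
  have lK : 0 < Real.log 12 := by linarith
  have l2 : 1 / 2 < Real.log 2 := by
    have := Real.log_two_gt_d9
    linarith
  obtain ⟨a, ha⟩ : ∃ a, a = Real.log 12 := ⟨_, rfl⟩
  obtain ⟨b, hb⟩ : ∃ b, b = Real.log 2 := ⟨_, rfl⟩
  obtain ⟨w, hw⟩ : ∃ w, w = Real.log z := ⟨_, rfl⟩
  rw [← ha, ← hb, ← hw] at h1
  rw [← ha, ← hw]
  rw [← ha] at lK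
  rw [← hb] at l2
  rw [← hw] at lz
  have hb0 : 0 < b := by linarith
  have h2 : VV 12 z 1 ≤ 2 * (C * a) / (b * w) := by
    have e : 2 * (C * a) / (b * w) = 2 * (C * a / (b * w)) := by ring
    rw [e]
    linarith
  refine h2.trans ?_
  rw [div_le_div_iff₀ (by positivity) lz]
  have h3 : 0 < C * a * w := by positivity
  have h4 := mul_pos (sub_pos.2 l2) h3
  nlinarith [h4]

/-- the conditions on `x` -/
theorem UpX_large {δ : ℝ} (hδ : 0 < δ) : ∃ X0 : ℕ, ∀ x : ℕ, X0 ≤ x →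
    1 ≤ Real.log x ∧ 12 ≤ (x : ℝ) ^ δ ∧ 2 ≤ (x : ℝ) ^ (δ / 2) ∧
      4 * Real.log x * (x : ℝ) ^ (1 / 4 : ℝ) ≤ (x : ℝ) / Real.log x ^ 4 := by
  have hcast := tendsto_natCast_atTop_atTop (R := ℝ)
  have e0 : ∀ᶠ x : ℝ in Filter.atTop, 1 ≤ Real.log x := Real.tendsto_log_atTop.eventually_ge_atTop 1
  have e1 : ∀ᶠ x : ℝ in Filter.atTop, 12 ≤ x ^ δ := (tendsto_rpow_atTop hδ).eventually_ge_atTop 12
  have e2 : ∀ᶠ x : ℝ in Filter.atTop, 2 ≤ x ^ (δ / 2) :=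
    (tendsto_rpow_atTop (by positivity : 0 < δ / 2)).eventually_ge_atTop 2
  have e3 : ∀ᶠ x : ℝ in Filter.atTop, ‖Real.log x ^ (5 : ℝ)‖ ≤ 1 / 4 * ‖x ^ (3 / 4 : ℝ)‖ :=
    (isLittleO_log_rpow_rpow_atTop 5 (by norm_num : (0 : ℝ) < 3 / 4)).bound (by norm_num)
  have e4 : ∀ᶠ x : ℝ in Filter.atTop, 1 ≤ x := Filter.eventually_ge_atTop 1
  have h := hcast.eventually (e0.and (e1.and (e2.and (e3.and e4))))
  obtain ⟨X0, hX0⟩ := Filter.eventually_atTop.1 h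
  refine ⟨X0, fun x hx => ?_⟩
  obtain ⟨a0, a1, a2, a3, a4⟩ := hX0 x hx
  refine ⟨a0, a1, a2, ?_⟩
  have hx0 : (0 : ℝ) < x := by linarith
  have hl : 0 < Real.log x := by linarith
  rw [Real.norm_of_nonneg (by positivity), Real.norm_of_nonneg (by positivity)] at a3
  have a3' : 4 * Real.log x ^ 5 ≤ (x : ℝ) ^ (3 / 4 : ℝ) := by
    have : Real.log (x : ℝ) ^ (5 : ℝ) = Real.log (x : ℝ) ^ (5 : ℕ) := by
      rw [← Real.rpow_natCast]
      norm_num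
    rw [this] at a3
    linarith
  rw [le_div_iff₀ (by positivity)]
  have e : (x : ℝ) = (x : ℝ) ^ (3 / 4 : ℝ) * (x : ℝ) ^ (1 / 4 : ℝ) := by
    rw [← Real.rpow_add hx0]
    norm_num
  have h14 : 0 < (x : ℝ) ^ (1 / 4 : ℝ) := by positivity
  calc 4 * Real.log x * (x : ℝ) ^ (1 / 4 : ℝ) * Real.log x ^ 4 = (4 * Real.log x ^ 5) * (x : ℝ) ^ (1 / 4 : ℝ) := by ring
    _ ≤ (x : ℝ) ^ (3 / 4 : ℝ) * (x : ℝ) ^ (1 / 4 : ℝ) := mul_le_mul_of_nonneg_right a3' h14.le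
    _ = x := e.symm

theorem Up_bd : ∃ δ₀ : ℝ, 0 < δ₀ ∧ δ₀ ≤ 1 / 8 ∧ ∀ δ : ℝ, 0 < δ → δ ≤ δ₀ → ∃ C : ℝ, 0 < C ∧ ∃ X0 : ℕ, ∀ x : ℕ, X0 ≤ x → ∀ u : Fin 4 → ∀ l : ℕ, ZMod l,
    ∀ Bad : Finset ℕ, (∀ l : ℕ, l.Prime → 12 < l → (l : ℝ) ≤ (x : ℝ) ^ δ → l ∉ Bad → Function.Injective (fun i => u i l)) →
    ∀ F : Finset ℕ, (∀ t ∈ F, 1 ≤ t ∧ t ≤ x ∧ ∀ l : ℕ, l.Prime → 12 < l → (l : ℝ) ≤ (x : ℝ) ^ δ → ∀ i, (t : ZMod l) ≠ u i l) →
      (F.card : ℝ) ≤ C * ((x : ℝ) / Real.log x ^ 4) * ∏ l ∈ Bad.filter (fun l => l.Prime ∧ 12 < l), (1 + 6 / (l : ℝ)) := by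
  classical
  obtain ⟨C0, hC0, hbh⟩ := H60PP.bhG
  obtain ⟨c, hc, hvv⟩ := UpX_vv
  obtain ⟨b0, hb0⟩ : ∃ b0, b0 = C0 * (2 + 1) := ⟨_, rfl⟩
  obtain ⟨D0, hD0⟩ : ∃ D0, D0 = 4 * b0 + 10 := ⟨_, rfl⟩
  have hD0' : (10 : ℝ) ≤ D0 := by
    rw [hD0]
    push_cast
    have : (0 : ℝ) ≤ b0 := Nat.cast_nonneg _
    linarith
  refine ⟨1 / (8 * D0), by positivity, ?_, ?_⟩
  · apply one_div_le_one_div_of_le (by norm_num)
    linarith
  intro δ hδ0 hδ
  have hδ1 : δ ≤ 1 / 8 := by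
    refine hδ.trans ?_
    apply one_div_le_one_div_of_le (by norm_num)
    linarith
  obtain ⟨X0, hX0⟩ := UpX_large hδ0
  refine ⟨2 * (c * (2 / δ)) ^ 4 + 1, by positivity, X0, ?_⟩
  intro x hx u Bad hBad F hF
  obtain ⟨a0, a1, a2, a3⟩ := hX0 x hx
  have hx1 : (1 : ℝ) ≤ x := by
    by_contra hcon
    rw [not_le] at hcon
    have : x = 0 := by
      have : x < 1 := by exact_mod_cast hcon
      omega
    rw [this] at a0
    norm_num at a0
  have hx0 : (0 : ℝ) < x := by linarith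
  set z : ℕ := ⌊(x : ℝ) ^ δ⌋₊ with hz
  have hz12 : 12 ≤ z := Nat.le_floor (by exact_mod_cast a1)
  have hzle : (z : ℝ) ≤ (x : ℝ) ^ δ := Nat.floor_le (by positivity)
  have hPK : ∀ l ∈ PK 12 z, l.Prime ∧ 12 < l ∧ (l : ℝ) ≤ (x : ℝ) ^ δ := by
    intro l hl
    obtain ⟨h1, h2, h3⟩ := bh_mem_PK.1 hl
    have : (l : ℝ) ≤ (z : ℝ) := by exact_mod_cast h2
    exact ⟨h3, h1, this.trans hzle⟩
  set D : ℕ → Finset ℕ := fun l => (univ : Finset (Fin 4)).image (fun i => (u i l).val) with hD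
  have hDc : ∀ l, (D l).card ≤ 4 := fun l => card_image_le.trans (by simp)
  have hDlt : ∀ l, l.Prime → ∀ r ∈ D l, r < l := by
    intro l hl r hr
    have : Fact l.Prime := ⟨hl⟩
    obtain ⟨i, _, rfl⟩ := mem_image.1 hr
    exact ZMod.val_lt _
  set g : ℕ → ℝ := fun l => ((D l).card : ℝ) / (l : ℝ) with hg
  have hg0 : ∀ l, 0 ≤ g l := fun l => by rw [hg]; positivity
  have hg1 : ∀ l, g l ≤ 4 / (l : ℝ) := fun l =>
    div_le_div_of_nonneg_right (by exact_mod_cast hDc l) (Nat.cast_nonneg l)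
  have hmain := hbh 2 b0 (le_of_eq hb0.symm) 12 z (by norm_num) (by norm_num) hz12 g
    (fun p _ => ⟨hg0 p, by have := hg1 p; push_cast; norm_num; exact this⟩)
    (Ioc 0 x) (fun t p => t % p ∈ D p) (x : ℝ) (fun S => (4 : ℝ) ^ S.card) hx0.le (fun S => by positivity) (by
      intro S hS _
      have hP : ∀ l ∈ S, l.Prime := fun l hl => (hPK l (hS hl)).1
      have h1 := UpX_main D (x := x) S hP (fun l hl => hDlt l (hP l hl)) 1 0 le_rfl (fun l _ => Nat.coprime_one_left l)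
      have h2 : UpXU D x 1 0 S = (Ioc 0 x).filter (fun t => ∀ p ∈ S, t % p ∈ D p) := by
        unfold UpXU
        apply filter_congr
        intro t _
        simp [Nat.modEq_one]
      rw [h2, Nat.cast_one, div_one] at h1
      have h3 : ∏ l ∈ S, ((D l).card : ℝ) ≤ (4 : ℝ) ^ S.card := by
        rw [← prod_const]
        exact prod_le_prod (fun l _ => Nat.cast_nonneg _) (fun l _ => by exact_mod_cast hDc l)
      refine le_trans (le_of_eq ?_) (h1.trans h3)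
      congr!)
  set P : ℝ := ∏ l ∈ Bad.filter (fun l => l.Prime ∧ 12 < l), (1 + 6 / (l : ℝ)) with hP
  have hP1 : 1 ≤ P := prod_induction _ (fun r : ℝ => 1 ≤ r) (fun a b ha hb => one_le_mul_of_one_le_of_one_le ha hb) le_rfl
    (fun l _ => by
      have : (0 : ℝ) ≤ 6 / (l : ℝ) := by positivity
      linarith)
  -- the main term
  have hprod : ∏ l ∈ PK 12 z, (1 - g l) ≤ (VV 12 z 1) ^ 4 * P := by
    refine UpX_prod g Bad (fun l _ => hg0 l) (fun l hl hb => ?_) (fun l hl => ?_)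
    · obtain ⟨p1, p2, p3⟩ := hPK l hl
      have : Fact l.Prime := ⟨p1⟩
      have hinj := hBad l p1 p2 p3 hb
      have h1 : (D l).card = 4 := by
        rw [hD]
        simp only
        rw [card_image_of_injective _ (fun i j hij => hinj (ZMod.val_injective l hij))]
        simp
      rw [hg]
      simp only
      rw [h1]
      norm_num
    · refine (hg1 l).trans ?_
      have h1 : (13 : ℝ) ≤ l := by exact_mod_cast (hPK l hl).2.1
      rw [div_le_one (by linarith)]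
      linarith
  have hprod0 : 0 ≤ ∏ l ∈ PK 12 z, (1 - g l) := prod_nonneg (fun l hl => by
    have h1 : (13 : ℝ) ≤ l := by exact_mod_cast (hPK l hl).2.1
    have h2 : 4 / (l : ℝ) ≤ 1 := by
      rw [div_le_one (by linarith)]
      linarith
    linarith [hg1 l])
  have hlogz : δ / 2 * Real.log x ≤ Real.log z := by
    rw [← Real.log_rpow hx0]
    apply Real.log_le_log (by positivity)
    have h1 : (x : ℝ) ^ δ < z + 1 := Nat.lt_floor_add_one _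
    have h2 : (x : ℝ) ^ δ = (x : ℝ) ^ (δ / 2) * (x : ℝ) ^ (δ / 2) := by
      rw [← Real.rpow_add hx0]
      congr 1
      ring
    nlinarith
  have hlx : 0 < Real.log x := by linarith
  have hlz : 0 < Real.log z := lt_of_lt_of_le (by positivity) hlogz
  have hV0 : 0 < VV 12 z 1 := vv_pos (by norm_num)
  have hV : VV 12 z 1 ≤ c * (2 / δ) / Real.log x := by
    refine (hvv z hz12).trans ?_
    rw [div_le_div_iff₀ hlz hlx]
    have h1 : c * (2 / δ) * (δ / 2 * Real.log x) = c * Real.log x := by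
      field_simp
    rw [← h1]
    exact mul_le_mul_of_nonneg_left hlogz (by positivity)
  have hV4 : (VV 12 z 1) ^ 4 ≤ (c * (2 / δ)) ^ 4 / Real.log x ^ 4 := by
    rw [← div_pow]
    exact pow_le_pow_left₀ hV0.le hV 4
  -- the error term
  have herr : ((Nat.log 2 z : ℝ) + 2) * ∑ S ∈ (PK 12 z).powerset.filter (fun S => ∏ p ∈ S, p ≤ z ^ (4 * b0 + 10)), (4 : ℝ) ^ S.card ≤
      (x : ℝ) / Real.log x ^ 4 := by
    have h1 := UpX_sum (z := z) (D0 := D0)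
    rw [hD0] at h1
    have h2 : ((z : ℝ) ^ D0) * ((z : ℝ) ^ D0) ≤ (x : ℝ) ^ (1 / 4 : ℝ) := by
      have h3 : (z : ℝ) ^ D0 ≤ (x : ℝ) ^ (1 / 8 : ℝ) := by
        calc (z : ℝ) ^ D0 ≤ ((x : ℝ) ^ δ) ^ D0 := pow_le_pow_left₀ (Nat.cast_nonneg _) hzle _
          _ = (x : ℝ) ^ (δ * D0) := by
              rw [← Real.rpow_natCast, ← Real.rpow_mul hx0.le]
          _ ≤ (x : ℝ) ^ (1 / 8 : ℝ) := by
              apply Real.rpow_le_rpow_of_exponent_le hx1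
              have hD1 : (0 : ℝ) < 8 * D0 := by linarith
              rw [le_div_iff₀ hD1] at hδ
              linarith
      have h4 : (x : ℝ) ^ (1 / 4 : ℝ) = (x : ℝ) ^ (1 / 8 : ℝ) * (x : ℝ) ^ (1 / 8 : ℝ) := by
        rw [← Real.rpow_add hx0]
        norm_num
      rw [h4]
      exact mul_le_mul h3 h3 (by positivity) (by positivity)
    have h5 : ((Nat.log 2 z : ℝ) + 2) ≤ 4 * Real.log x := by
      have hz0 : z ≠ 0 := by omega
      have h6 : ((2 : ℝ) ^ Nat.log 2 z) ≤ z := by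
        exact_mod_cast Nat.pow_log_le_self 2 hz0
      have h7 : (z : ℝ) ≤ x := by
        refine hzle.trans ?_
        calc (x : ℝ) ^ δ ≤ (x : ℝ) ^ (1 : ℝ) := Real.rpow_le_rpow_of_exponent_le hx1 (by linarith)
          _ = x := Real.rpow_one _
      have h8 : (Nat.log 2 z : ℝ) * Real.log 2 ≤ Real.log x := by
        have := Real.log_le_log (by positivity) (h6.trans h7)
        rwa [Real.log_pow] at this
      have h9 := Real.log_two_gt_d9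
      have h10 : (0 : ℝ) ≤ (Nat.log 2 z : ℝ) := Nat.cast_nonneg _
      nlinarith
    rw [hD0] at h2
    calc ((Nat.log 2 z : ℝ) + 2) * ∑ S ∈ (PK 12 z).powerset.filter (fun S => ∏ p ∈ S, p ≤ z ^ (4 * b0 + 10)), (4 : ℝ) ^ S.card
        ≤ 4 * Real.log x * (x : ℝ) ^ (1 / 4 : ℝ) :=
          mul_le_mul h5 (h1.trans h2) (sum_nonneg (fun S _ => by positivity)) (by positivity)
      _ ≤ _ := a3
  have hexp : Real.exp (-(b0 : ℝ)) ≤ 1 := by
    rw [Real.exp_le_one_iff]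
    have : (0 : ℝ) ≤ b0 := Nat.cast_nonneg _
    linarith
  have hfin := sub_le_iff_le_add.1 (abs_le.1 hmain).2
  have hcard := le_trans (Nat.cast_le.2 (card_le_card (s := F) (fun t ht => by
    obtain ⟨t1, t2, t3⟩ := hF t ht
    simp only [mem_filter, mem_Ioc]
    refine ⟨⟨t1, t2⟩, fun p hp hmem => ?_⟩
    obtain ⟨p1, p2, p3⟩ := hPK p hp
    have : Fact p.Prime := ⟨p1⟩
    obtain ⟨i, _, hi⟩ := mem_image.1 hmem
    apply t3 p p1 p2 p3 i
    apply ZMod.val_injective p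
    rw [ZMod.val_natCast]
    exact hi.symm))) hfin
  have hY : 0 ≤ (x : ℝ) * ∏ l ∈ PK 12 z, (1 - g l) := mul_nonneg hx0.le hprod0
  have hX4 : 0 ≤ (x : ℝ) / Real.log x ^ 4 := by positivity
  have hm1 : (x : ℝ) * ∏ l ∈ PK 12 z, (1 - g l) ≤ (c * (2 / δ)) ^ 4 * ((x : ℝ) / Real.log x ^ 4) * P := by
    calc (x : ℝ) * ∏ l ∈ PK 12 z, (1 - g l) ≤ x * ((c * (2 / δ)) ^ 4 / Real.log x ^ 4 * P) := by
          refine mul_le_mul_of_nonneg_left (hprod.trans ?_) hx0.le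
          exact mul_le_mul_of_nonneg_right hV4 (by linarith)
      _ = _ := by ring
  have hm2 : Real.exp (-(b0 : ℝ)) * ((x : ℝ) * ∏ l ∈ PK 12 z, (1 - g l)) ≤ (x : ℝ) * ∏ l ∈ PK 12 z, (1 - g l) :=
    mul_le_of_le_one_left hY hexp
  have hm3 : (x : ℝ) / Real.log x ^ 4 ≤ (x : ℝ) / Real.log x ^ 4 * P := le_mul_of_one_le_right hX4 hP1
  have e : (2 * (c * (2 / δ)) ^ 4 + 1) * ((x : ℝ) / Real.log x ^ 4) * P =
      2 * ((c * (2 / δ)) ^ 4 * ((x : ℝ) / Real.log x ^ 4) * P) + (x : ℝ) / Real.log x ^ 4 * P := by ring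
  rw [e]
  linarith

end Pool.Agent.H63.SG
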