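import Pool.Agent.H63.SG.Df2
import Pool.Agent.H63.SG.Up

/-!
# ROW PU: upper bound for the prime pairs

PROOF. The version of `Up_bd` (`Up.lean`) for two classes (`Fin 2` in place of `Fin 4`, exponent `2` in place of `4`; copy the proof, e.g. with prefix `PUX_`), one `δ` is enough. Apply it to the set of `p ∈ P1 y x` with `p + e ∈ P1 y x`, the classes `0`, `- e`, `Bad = e.primeFactors`:
for a prime `l ≤ x^δ`, `12 < l`: `l ∤ p`, `l ∤ p + e` since both are primes `> y ≥ x/8 > x^δ` (for large `x`); `0 ≠ - e` mod `l` if `l ∤ e`.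
-/

set_option autoImplicit false

open Finset

namespace Pool.Agent.H63.SG

open H69PG in
/-- one factor -/
theorem PUX_fac {l : ℕ} (hl : 12 < l) : 1 - 2 / (l : ℝ) ≤ (1 - ((1 : ℕ) : ℝ) / l) ^ 2 ∧
    1 ≤ (1 - ((1 : ℕ) : ℝ) / l) ^ 2 * (1 + 6 / (l : ℝ)) ∧ 0 ≤ (1 - ((1 : ℕ) : ℝ) / l) := by
  have hl' : (13 : ℝ) ≤ l := by exact_mod_cast hl
  have hl0 : (0 : ℝ) < l := by linarith
  obtain ⟨u, hu⟩ : ∃ u : ℝ, u = 1 / (l : ℝ) := ⟨_, rfl⟩
  have hu0 : 0 < u := by rw [hu]; positivity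
  have hu1 : u ≤ 1 / 13 := by
    rw [hu]
    exact one_div_le_one_div_of_le (by norm_num) hl'
  have e1 : 2 / (l : ℝ) = 2 * u := by rw [hu]; ring
  have e2 : 6 / (l : ℝ) = 6 * u := by rw [hu]; ring
  have e3 : ((1 : ℕ) : ℝ) / (l : ℝ) = u := by rw [hu, Nat.cast_one]
  rw [e1, e2, e3]
  have h1 : 1 - 2 * u ≤ (1 - u) ^ 2 := by nlinarith [pow_pos hu0 2]
  refine ⟨h1, ?_, by linarith⟩
  have h2 : 1 ≤ (1 - 2 * u) * (1 + 6 * u) := by nlinarith
  nlinarith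

open H69PG in
/-- the product -/
theorem PUX_prod {z : ℕ} (g : ℕ → ℝ) (Bad : Finset ℕ) (hg0 : ∀ l ∈ PK 12 z, 0 ≤ g l)
    (hg : ∀ l ∈ PK 12 z, l ∉ Bad → g l = 2 / (l : ℝ)) (hg1 : ∀ l ∈ PK 12 z, g l ≤ 1) :
    ∏ l ∈ PK 12 z, (1 - g l) ≤ (VV 12 z 1) ^ 2 * ∏ l ∈ Bad.filter (fun l => l.Prime ∧ 12 < l), (1 + 6 / (l : ℝ)) := by
  classical
  have h1 : ∏ l ∈ PK 12 z, (1 - g l) ≤ ∏ l ∈ PK 12 z, ((1 - ((1 : ℕ) : ℝ) / l) ^ 2 * (if l ∈ Bad then 1 + 6 / (l : ℝ) else 1)) := by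
    refine prod_le_prod (fun l hl => by linarith [hg1 l hl]) (fun l hl => ?_)
    obtain ⟨f1, f2, f3⟩ := PUX_fac (bh_mem_PK.1 hl).1
    by_cases hb : l ∈ Bad
    · rw [if_pos hb]
      linarith [hg0 l hl]
    · rw [if_neg hb, mul_one, hg l hl hb]
      exact f1
  refine h1.trans ?_
  rw [prod_mul_distrib, prod_pow]
  have h2 : ∏ l ∈ PK 12 z, (if l ∈ Bad then 1 + 6 / (l : ℝ) else 1) ≤
      ∏ l ∈ Bad.filter (fun l => l.Prime ∧ 12 < l), (1 + 6 / (l : ℝ)) := by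
    rw [← prod_filter]
    have hsub : (PK 12 z).filter (fun l => l ∈ Bad) ⊆ Bad.filter (fun l => l.Prime ∧ 12 < l) := by
      intro l hl
      rw [mem_filter] at hl ⊢
      have := bh_mem_PK.1 hl.1
      exact ⟨hl.2, this.2.2, this.1⟩
    have hone : ∀ l : ℕ, (1 : ℝ) ≤ 1 + 6 / (l : ℝ) := by
      intro l
      have : (0 : ℝ) ≤ 6 / (l : ℝ) := by positivity
      linarith
    rw [← prod_sdiff hsub]
    have h4 : (1 : ℝ) ≤ ∏ l ∈ (Bad.filter (fun l => l.Prime ∧ 12 < l)) \ ((PK 12 z).filter (fun l => l ∈ Bad)), (1 + 6 / (l : ℝ)) :=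
      prod_induction _ (fun r : ℝ => 1 ≤ r) (fun a b ha hb => one_le_mul_of_one_le_of_one_le ha hb) le_rfl (fun l _ => hone l)
    have h5 : (0 : ℝ) ≤ ∏ l ∈ (PK 12 z).filter (fun l => l ∈ Bad), (1 + 6 / (l : ℝ)) :=
      prod_nonneg (fun l _ => by linarith [hone l])
    exact le_mul_of_one_le_left h5 h4
  have h3 : (0 : ℝ) ≤ (VV 12 z 1) ^ 2 := pow_nonneg (vv_pos (by norm_num)).le 2
  exact mul_le_mul_of_nonneg_left h2 h3

open H69PG in
theorem PUX_bd : ∃ δ₀ : ℝ, 0 < δ₀ ∧ δ₀ ≤ 1 / 8 ∧ ∀ δ : ℝ, 0 < δ → δ ≤ δ₀ → ∃ C : ℝ, 0 < C ∧ ∃ X0 : ℕ, ∀ x : ℕ, X0 ≤ x → ∀ u : Fin 2 → ∀ l : ℕ, ZMod l,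
    ∀ Bad : Finset ℕ, (∀ l : ℕ, l.Prime → 12 < l → (l : ℝ) ≤ (x : ℝ) ^ δ → l ∉ Bad → Function.Injective (fun i => u i l)) →
    ∀ F : Finset ℕ, (∀ t ∈ F, 1 ≤ t ∧ t ≤ x ∧ ∀ l : ℕ, l.Prime → 12 < l → (l : ℝ) ≤ (x : ℝ) ^ δ → ∀ i, (t : ZMod l) ≠ u i l) →
      (F.card : ℝ) ≤ C * ((x : ℝ) / Real.log x ^ 2) * ∏ l ∈ Bad.filter (fun l => l.Prime ∧ 12 < l), (1 + 6 / (l : ℝ)) := by
  classical
  obtain ⟨C0, hC0, hbh⟩ := H60PP.bhG
  obtain ⟨c, hc, hvv⟩ := UpX_vv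
  obtain ⟨b0, hb0⟩ : ∃ b0, b0 = C0 * (2 + 1) := ⟨_, rfl⟩
  obtain ⟨D0, hD0⟩ : ∃ D0, D0 = 4 * b0 + 10 := ⟨_, rfl⟩
  have hD0' : (10 : ℝ) ≤ D0 := by
    rw [hD0]
    push_cast
    have : (0 : ℝ) ≤ b0 := Nat.cast_nonneg _
    linarith
  refine ⟨1 / (8 * D0), by positivity, ?_, ?_⟩
  · apply one_div_le_one_div_of_le (by norm_num)
    linarith
  intro δ hδ0 hδ
  have hδ1 : δ ≤ 1 / 8 := by
    refine hδ.trans ?_
    apply one_div_le_one_div_of_le (by norm_num)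
    linarith
  obtain ⟨X0, hX0⟩ := UpX_large hδ0
  refine ⟨2 * (c * (2 / δ)) ^ 2 + 1, by positivity, X0, ?_⟩
  intro x hx u Bad hBad F hF
  obtain ⟨a0, a1, a2, a3⟩ := hX0 x hx
  have hx1 : (1 : ℝ) ≤ x := by
    by_contra hcon
    rw [not_le] at hcon
    have : x = 0 := by
      have : x < 1 := by exact_mod_cast hcon
      omega
    rw [this] at a0
    norm_num at a0
  have hx0 : (0 : ℝ) < x := by linarith
  have a3' : 4 * Real.log x * (x : ℝ) ^ (1 / 4 : ℝ) ≤ (x : ℝ) / Real.log x ^ 2 := by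
    refine a3.trans ?_
    apply div_le_div_of_nonneg_left hx0.le (by positivity)
    exact pow_le_pow_right₀ a0 (by norm_num)
  set z : ℕ := ⌊(x : ℝ) ^ δ⌋₊ with hz
  have hz12 : 12 ≤ z := Nat.le_floor (by exact_mod_cast a1)
  have hzle : (z : ℝ) ≤ (x : ℝ) ^ δ := Nat.floor_le (by positivity)
  have hPK : ∀ l ∈ PK 12 z, l.Prime ∧ 12 < l ∧ (l : ℝ) ≤ (x : ℝ) ^ δ := by
    intro l hl
    obtain ⟨h1, h2, h3⟩ := bh_mem_PK.1 hl
    have : (l : ℝ) ≤ (z : ℝ) := by exact_mod_cast h2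
    exact ⟨h3, h1, this.trans hzle⟩
  set D : ℕ → Finset ℕ := fun l => (univ : Finset (Fin 2)).image (fun i => (u i l).val) with hD
  have hDc : ∀ l, (D l).card ≤ 2 := fun l => card_image_le.trans (by simp)
  have hDlt : ∀ l, l.Prime → ∀ r ∈ D l, r < l := by
    intro l hl r hr
    have : Fact l.Prime := ⟨hl⟩
    obtain ⟨i, _, rfl⟩ := mem_image.1 hr
    exact ZMod.val_lt _
  set g : ℕ → ℝ := fun l => ((D l).card : ℝ) / (l : ℝ) with hg
  have hg0 : ∀ l, 0 ≤ g l := fun l => by rw [hg]; positivity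
  have hg1 : ∀ l, g l ≤ 2 / (l : ℝ) := fun l =>
    div_le_div_of_nonneg_right (by exact_mod_cast hDc l) (Nat.cast_nonneg l)
  have hmain := hbh 2 b0 (le_of_eq hb0.symm) 12 z (by norm_num) (by norm_num) hz12 g
    (fun p _ => ⟨hg0 p, (hg1 p).trans (div_le_div_of_nonneg_right (by norm_num) (Nat.cast_nonneg p))⟩)
    (Ioc 0 x) (fun t p => t % p ∈ D p) (x : ℝ) (fun S => (4 : ℝ) ^ S.card) hx0.le (fun S => by positivity) (by
      intro S hS _
      have hP : ∀ l ∈ S, l.Prime := fun l hl => (hPK l (hS hl)).1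
      have h1 := UpX_main D (x := x) S hP (fun l hl => hDlt l (hP l hl)) 1 0 le_rfl (fun l _ => Nat.coprime_one_left l)
      have h2 : UpXU D x 1 0 S = (Ioc 0 x).filter (fun t => ∀ p ∈ S, t % p ∈ D p) := by
        unfold UpXU
        apply filter_congr
        intro t _
        simp [Nat.modEq_one]
      rw [h2, Nat.cast_one, div_one] at h1
      have h3 : ∏ l ∈ S, ((D l).card : ℝ) ≤ (4 : ℝ) ^ S.card := by
        rw [← prod_const]
        exact prod_le_prod (fun l _ => Nat.cast_nonneg _) (fun l _ => by exact_mod_cast (hDc l).trans (by norm_num))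
      refine le_trans (le_of_eq ?_) (h1.trans h3)
      congr!)
  set P : ℝ := ∏ l ∈ Bad.filter (fun l => l.Prime ∧ 12 < l), (1 + 6 / (l : ℝ)) with hP
  have hP1 : 1 ≤ P := prod_induction _ (fun r : ℝ => 1 ≤ r) (fun a b ha hb => one_le_mul_of_one_le_of_one_le ha hb) le_rfl
    (fun l _ => by
      have : (0 : ℝ) ≤ 6 / (l : ℝ) := by positivity
      linarith)
  -- the main term
  have hprod : ∏ l ∈ PK 12 z, (1 - g l) ≤ (VV 12 z 1) ^ 2 * P := by
    refine PUX_prod g Bad (fun l _ => hg0 l) (fun l hl hb => ?_) (fun l hl => ?_)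
    · obtain ⟨p1, p2, p3⟩ := hPK l hl
      have : Fact l.Prime := ⟨p1⟩
      have hinj := hBad l p1 p2 p3 hb
      have h1 : (D l).card = 2 := by
        rw [hD]
        simp only
        rw [card_image_of_injective _ (fun i j hij => hinj (ZMod.val_injective l hij))]
        simp
      rw [hg]
      simp only
      rw [h1]
      norm_num
    · refine (hg1 l).trans ?_
      have h1 : (13 : ℝ) ≤ l := by exact_mod_cast (hPK l hl).2.1
      rw [div_le_one (by linarith)]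
      linarith
  have hprod0 : 0 ≤ ∏ l ∈ PK 12 z, (1 - g l) := prod_nonneg (fun l hl => by
    have h1 : (13 : ℝ) ≤ l := by exact_mod_cast (hPK l hl).2.1
    have h2 : 2 / (l : ℝ) ≤ 1 := by
      rw [div_le_one (by linarith)]
      linarith
    linarith [hg1 l])
  have hlogz : δ / 2 * Real.log x ≤ Real.log z := by
    rw [← Real.log_rpow hx0]
    apply Real.log_le_log (by positivity)
    have h1 : (x : ℝ) ^ δ < z + 1 := Nat.lt_floor_add_one _
    have h2 : (x : ℝ) ^ δ = (x : ℝ) ^ (δ / 2) * (x : ℝ) ^ (δ / 2) := by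
      rw [← Real.rpow_add hx0]
      congr 1
      ring
    nlinarith
  have hlx : 0 < Real.log x := by linarith
  have hlz : 0 < Real.log z := lt_of_lt_of_le (by positivity) hlogz
  have hV0 : 0 < VV 12 z 1 := vv_pos (by norm_num)
  have hV : VV 12 z 1 ≤ c * (2 / δ) / Real.log x := by
    refine (hvv z hz12).trans ?_
    rw [div_le_div_iff₀ hlz hlx]
    have h1 : c * (2 / δ) * (δ / 2 * Real.log x) = c * Real.log x := by
      field_simp
    rw [← h1]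
    exact mul_le_mul_of_nonneg_left hlogz (by positivity)
  have hV4 : (VV 12 z 1) ^ 2 ≤ (c * (2 / δ)) ^ 2 / Real.log x ^ 2 := by
    rw [← div_pow]
    exact pow_le_pow_left₀ hV0.le hV 2
  -- the error term
  have herr : ((Nat.log 2 z : ℝ) + 2) * ∑ S ∈ (PK 12 z).powerset.filter (fun S => ∏ p ∈ S, p ≤ z ^ (4 * b0 + 10)), (4 : ℝ) ^ S.card ≤
      (x : ℝ) / Real.log x ^ 2 := by
    have h1 := UpX_sum (z := z) (D0 := D0)
    rw [hD0] at h1
    have h2 : ((z : ℝ) ^ D0) * ((z : ℝ) ^ D0) ≤ (x : ℝ) ^ (1 / 4 : ℝ) := by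
      have h3 : (z : ℝ) ^ D0 ≤ (x : ℝ) ^ (1 / 8 : ℝ) := by
        calc (z : ℝ) ^ D0 ≤ ((x : ℝ) ^ δ) ^ D0 := pow_le_pow_left₀ (Nat.cast_nonneg _) hzle _
          _ = (x : ℝ) ^ (δ * D0) := by
              rw [← Real.rpow_natCast, ← Real.rpow_mul hx0.le]
          _ ≤ (x : ℝ) ^ (1 / 8 : ℝ) := by
              apply Real.rpow_le_rpow_of_exponent_le hx1
              have hD1 : (0 : ℝ) < 8 * D0 := by linarith
              rw [le_div_iff₀ hD1] at hδ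
              linarith
      have h4 : (x : ℝ) ^ (1 / 4 : ℝ) = (x : ℝ) ^ (1 / 8 : ℝ) * (x : ℝ) ^ (1 / 8 : ℝ) := by
        rw [← Real.rpow_add hx0]
        norm_num
      rw [h4]
      exact mul_le_mul h3 h3 (by positivity) (by positivity)
    have h5 : ((Nat.log 2 z : ℝ) + 2) ≤ 4 * Real.log x := by
      have hz0 : z ≠ 0 := by omega
      have h6 : ((2 : ℝ) ^ Nat.log 2 z) ≤ z := by
        exact_mod_cast Nat.pow_log_le_self 2 hz0
      have h7 : (z : ℝ) ≤ x := by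
        refine hzle.trans ?_
        calc (x : ℝ) ^ δ ≤ (x : ℝ) ^ (1 : ℝ) := Real.rpow_le_rpow_of_exponent_le hx1 (by linarith)
          _ = x := Real.rpow_one _
      have h8 : (Nat.log 2 z : ℝ) * Real.log 2 ≤ Real.log x := by
        have := Real.log_le_log (by positivity) (h6.trans h7)
        rwa [Real.log_pow] at this
      have h9 := Real.log_two_gt_d9
      have h10 : (0 : ℝ) ≤ (Nat.log 2 z : ℝ) := Nat.cast_nonneg _
      nlinarith
    rw [hD0] at h2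
    calc ((Nat.log 2 z : ℝ) + 2) * ∑ S ∈ (PK 12 z).powerset.filter (fun S => ∏ p ∈ S, p ≤ z ^ (4 * b0 + 10)), (4 : ℝ) ^ S.card
        ≤ 4 * Real.log x * (x : ℝ) ^ (1 / 4 : ℝ) :=
          mul_le_mul h5 (h1.trans h2) (sum_nonneg (fun S _ => by positivity)) (by positivity)
      _ ≤ _ := a3'
  have hexp : Real.exp (-(b0 : ℝ)) ≤ 1 := by
    rw [Real.exp_le_one_iff]
    have : (0 : ℝ) ≤ b0 := Nat.cast_nonneg _
    linarith
  have hfin := sub_le_iff_le_add.1 (abs_le.1 hmain).2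
  have hcard := le_trans (Nat.cast_le.2 (card_le_card (s := F) (fun t ht => by
    obtain ⟨t1, t2, t3⟩ := hF t ht
    simp only [mem_filter, mem_Ioc]
    refine ⟨⟨t1, t2⟩, fun p hp hmem => ?_⟩
    obtain ⟨p1, p2, p3⟩ := hPK p hp
    have : Fact p.Prime := ⟨p1⟩
    obtain ⟨i, _, hi⟩ := mem_image.1 hmem
    apply t3 p p1 p2 p3 i
    apply ZMod.val_injective p
    rw [ZMod.val_natCast]
    exact hi.symm))) hfin
  have hY : 0 ≤ (x : ℝ) * ∏ l ∈ PK 12 z, (1 - g l) := mul_nonneg hx0.le hprod0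
  have hX4 : 0 ≤ (x : ℝ) / Real.log x ^ 2 := by positivity
  have hm1 : (x : ℝ) * ∏ l ∈ PK 12 z, (1 - g l) ≤ (c * (2 / δ)) ^ 2 * ((x : ℝ) / Real.log x ^ 2) * P := by
    calc (x : ℝ) * ∏ l ∈ PK 12 z, (1 - g l) ≤ x * ((c * (2 / δ)) ^ 2 / Real.log x ^ 2 * P) := by
          refine mul_le_mul_of_nonneg_left (hprod.trans ?_) hx0.le
          exact mul_le_mul_of_nonneg_right hV4 (by linarith)
      _ = _ := by ring
  have hm2 : Real.exp (-(b0 : ℝ)) * ((x : ℝ) * ∏ l ∈ PK 12 z, (1 - g l)) ≤ (x : ℝ) * ∏ l ∈ PK 12 z, (1 - g l) :=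
    mul_le_of_le_one_left hY hexp
  have hm3 : (x : ℝ) / Real.log x ^ 2 ≤ (x : ℝ) / Real.log x ^ 2 * P := le_mul_of_one_le_right hX4 hP1
  have e : (2 * (c * (2 / δ)) ^ 2 + 1) * ((x : ℝ) / Real.log x ^ 2) * P =
      2 * ((c * (2 / δ)) ^ 2 * ((x : ℝ) / Real.log x ^ 2) * P) + (x : ℝ) / Real.log x ^ 2 * P := by ring
  rw [e]
  linarith

/-- real powers for large `x` -/
theorem PUX_pow {δ : ℝ} (hδ0 : 0 < δ) (hδ : δ ≤ 1 / 8) {x y : ℕ} (hx : 100 ≤ x) (hy : x ≤ 8 * y) :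
    (x : ℝ) ^ δ < (y : ℝ) + 1 := by
  have hx' : (100 : ℝ) ≤ x := by exact_mod_cast hx
  have hy' : (x : ℝ) ≤ 8 * y := by exact_mod_cast hy
  have h1 : (x : ℝ) ^ δ ≤ (x : ℝ) ^ (1 / 2 : ℝ) :=
    Real.rpow_le_rpow_of_exponent_le (by linarith) (by linarith)
  rw [← Real.sqrt_eq_rpow] at h1
  have h2 : Real.sqrt x ≤ (x : ℝ) / 10 := by
    rw [Real.sqrt_le_left (by linarith)]
    nlinarith
  linarith

theorem PU : ∃ C : ℝ, 0 < C ∧ ∃ X0 : ℕ, ∀ x y : ℕ, X0 ≤ x → y ≤ x → x ≤ 8 * y → ∀ e : ℕ, 1 ≤ e → e ≤ x →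
    (Me y x e : ℝ) ≤ C * ((x : ℝ) / Real.log x ^ 2) * HH (e : ℤ) := by
  classical
  obtain ⟨δ, hδ0, hδ1, h⟩ := PUX_bd
  obtain ⟨C, hC, X0, hX⟩ := h δ hδ0 le_rfl
  refine ⟨C, hC, X0 + 100, fun x y hx hyx hxy e he _ => ?_⟩
  have hpw := PUX_pow hδ0 hδ1 (by omega : 100 ≤ x) hxy
  have hbig : ∀ l t : ℕ, l.Prime → (l : ℝ) ≤ (x : ℝ) ^ δ → t ∈ P1 y x → ¬ l ∣ t := by
    intro l t hl hlx ht hd
    unfold P1 at ht
    rw [mem_filter, mem_Ioc] at ht
    have h1 : l = t := (Nat.prime_dvd_prime_iff_eq hl ht.2.1).1 hd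
    have h2 : ((y + 1 : ℕ) : ℝ) ≤ (l : ℝ) := by
      rw [h1]
      exact_mod_cast ht.1.1
    push_cast at h2
    linarith
  have h1 := hX x (by omega) (![fun l => (0 : ZMod l), fun l => -((e : ℕ) : ZMod l)] : Fin 2 → ∀ l : ℕ, ZMod l)
    e.primeFactors (fun l hl _ _ hb => by
      have h0 : ((e : ℕ) : ZMod l) ≠ 0 := by
        intro h0
        apply hb
        rw [Nat.mem_primeFactors]
        exact ⟨hl, (ZMod.natCast_eq_zero_iff _ _).1 h0, by omega⟩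
      intro i j hij
      fin_cases i <;> fin_cases j
      · rfl
      · exfalso
        have h2 : (0 : ZMod l) = -((e : ℕ) : ZMod l) := hij
        exact h0 (neg_eq_zero.1 h2.symm)
      · exfalso
        have h2 : -((e : ℕ) : ZMod l) = (0 : ZMod l) := hij
        exact h0 (neg_eq_zero.1 h2)
      · rfl) ((P1 y x).filter (fun p => p + e ∈ P1 y x)) (fun t ht => by
      rw [mem_filter] at ht
      have h2 : t ∈ P1 y x := ht.1
      unfold P1 at h2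
      rw [mem_filter, mem_Ioc] at h2
      refine ⟨h2.2.1.one_le, h2.1.2, fun l hl _ hlx i => ?_⟩
      fin_cases i
      · intro h3
        have h4 : ((t : ℕ) : ZMod l) = 0 := h3
        exact hbig l t hl hlx ht.1 ((ZMod.natCast_eq_zero_iff _ _).1 h4)
      · intro h3
        have h4 : ((t : ℕ) : ZMod l) = -((e : ℕ) : ZMod l) := h3
        have h5 : (((t + e : ℕ)) : ZMod l) = 0 := by
          push_cast
          rw [h4]
          ring
        exact hbig l (t + e) hl hlx ht.2 ((ZMod.natCast_eq_zero_iff _ _).1 h5))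
  have h2 : ∏ l ∈ e.primeFactors.filter (fun l => l.Prime ∧ 12 < l), (1 + 6 / (l : ℝ)) = HH (e : ℤ) := by
    unfold HH
    rw [Int.natAbs_natCast]
    apply prod_congr _ (fun _ _ => rfl)
    apply filter_congr
    intro l hl
    have := Nat.prime_of_mem_primeFactors hl
    tauto
  rw [h2] at h1
  exact h1

end Pool.Agent.H63.SG
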