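import Pool.Agent.H63.SG.PL
import Pool.Agent.H63.SG.PU

/-!
# ROW GS: the good shifts have positive proportion

PROOF. `C, β₀` from `PL`, `C₂` from `PU`, `C_V` from `Av_bd` (`∑_{e ≤ D} HH(e)^2 ≤ ∑ HH(e)^8 ≤ C_V D`, `HH ≥ 1`). Write `T = x/(log x)^2`. `H0 = 4 C₂ C_V/β₀`. `∑_{HH(e) > H0} Me ≤ C₂ T ∑_{HH > H0} HH ≤ C₂ T (1/H0) ∑ HH^2 ≤ (β₀/4) D T`.
`∑_{Me < (β₀/4) T} Me ≤ (β₀/4) D T`. So the sum over the other `e` (good ones: `HH e ≤ H0`, `Me ≥ (β₀/4) T`) is `≥ (β₀/2) D T`; each term is `≤ C₂ H0 T`, so there are at least `β₀ D/(2 C₂ H0)` good ones. `β = min (β₀/4) (β₀/(2 C₂ H0))`.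
-/

set_option autoImplicit false

open Finset

namespace Pool.Agent.H63.SG

lemma GS_abs (S : Finset ℕ) (M H : ℕ → ℝ) (D T β₀ C₂ CV H0 : ℝ) (hT : 0 < T) (hβ : 0 < β₀)
    (hC₂ : 0 < C₂) (hCV : 0 < CV) (h1 : β₀ * (D * T) ≤ ∑ e ∈ S, M e)
    (h2 : ∀ e ∈ S, M e ≤ C₂ * T * H e) (hcard : (S.card : ℝ) ≤ D) (h3 : ∑ e ∈ S, H e ^ 2 ≤ CV * D)
    (hH0 : H0 = 4 * C₂ * CV / β₀) :
    β₀ / (2 * C₂ * H0) * D ≤ ((S.filter (fun e => H e ≤ H0 ∧ β₀ / 4 * T ≤ M e)).card : ℝ) := by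
  have hH0p : 0 < H0 := by rw [hH0]; positivity
  have key : ∀ e ∈ S, M e ≤ (if H e ≤ H0 ∧ β₀ / 4 * T ≤ M e then C₂ * T * H0 else 0)
      + C₂ * T / H0 * H e ^ 2 + β₀ / 4 * T := by
    intro e he
    have a1 := h2 e he
    have a2 : 0 ≤ C₂ * T / H0 * H e ^ 2 := by positivity
    have a3 : 0 ≤ β₀ / 4 * T := by positivity
    split_ifs with hg
    · have a4 : C₂ * T * H e ≤ C₂ * T * H0 := mul_le_mul_of_nonneg_left hg.1 (by positivity)
      linarith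
    · by_cases hh : H e ≤ H0
      · have a5 : M e < β₀ / 4 * T := by
          by_contra hn
          exact hg ⟨hh, not_lt.1 hn⟩
        linarith
      · have a6 : H0 < H e := not_le.1 hh
        have a7 : C₂ * T * H e ≤ C₂ * T / H0 * H e ^ 2 := by
          rw [div_mul_eq_mul_div, le_div_iff₀ hH0p, mul_assoc, mul_assoc, mul_assoc]
          have a8 : H e * H0 ≤ H e ^ 2 := by nlinarith
          have a9 : 0 ≤ C₂ * T := by positivity
          calc C₂ * (T * (H e * H0)) = C₂ * T * (H e * H0) := by ring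
            _ ≤ C₂ * T * H e ^ 2 := mul_le_mul_of_nonneg_left a8 a9
            _ = C₂ * (T * H e ^ 2) := by ring
        linarith
  have hs := Finset.sum_le_sum key
  rw [Finset.sum_add_distrib, Finset.sum_add_distrib, ← Finset.mul_sum, Finset.sum_const,
    nsmul_eq_mul, ← Finset.sum_filter, Finset.sum_const, nsmul_eq_mul] at hs
  set n : ℝ := ((S.filter (fun e => H e ≤ H0 ∧ β₀ / 4 * T ≤ M e)).card : ℝ) with hn
  have b1 : C₂ * T / H0 * ∑ e ∈ S, H e ^ 2 ≤ β₀ / 4 * (D * T) := by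
    calc C₂ * T / H0 * ∑ e ∈ S, H e ^ 2 ≤ C₂ * T / H0 * (CV * D) :=
          mul_le_mul_of_nonneg_left h3 (by positivity)
      _ = β₀ / 4 * (D * T) := by
          rw [hH0]
          field_simp
  have b2 : (S.card : ℝ) * (β₀ / 4 * T) ≤ β₀ / 4 * (D * T) := by
    calc (S.card : ℝ) * (β₀ / 4 * T) ≤ D * (β₀ / 4 * T) :=
          mul_le_mul_of_nonneg_right hcard (by positivity)
      _ = β₀ / 4 * (D * T) := by ring
  have b3 : β₀ / 2 * D * T ≤ C₂ * H0 * n * T := by nlinarith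
  have b4 : β₀ / 2 * D ≤ C₂ * H0 * n := le_of_mul_le_mul_right b3 hT
  rw [div_mul_eq_mul_div, div_le_iff₀ (by positivity)]
  linarith

lemma HH_one_le (m : ℤ) : 1 ≤ HH m := by
  unfold HH
  refine (Finset.prod_const_one (s := m.natAbs.primeFactors.filter (fun l => 12 < l))).symm.le.trans ?_
  refine Finset.prod_le_prod (fun _ _ => zero_le_one) fun l _ => ?_
  have : (0 : ℝ) ≤ 6 / (l : ℝ) := by positivity
  linarith

theorem GS : ∃ C β H0 : ℝ, 0 < C ∧ 0 < β ∧ 0 < H0 ∧ ∃ X0 : ℕ, ∀ x y : ℕ, X0 ≤ x → y ≤ x → x ≤ 8 * (x - y) → x ≤ 8 * y →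
    ∀ D : ℕ, C * Real.log x ≤ D → 20 * D ≤ x → ∃ G : Finset ℕ, β * D ≤ (G.card : ℝ) ∧
      ∀ e ∈ G, 1 ≤ e ∧ e ≤ D ∧ 6 ∣ e ∧ HH (e : ℤ) ≤ H0 ∧ β * ((x : ℝ) / Real.log x ^ 2) ≤ (Me y x e : ℝ) := by
  obtain ⟨C, β₀, hC, hβ, X1, h1⟩ := PL
  obtain ⟨C₂, hC₂, X2, h2⟩ := PU
  obtain ⟨CV, hCV, h3⟩ := Av_bd
  set H0 : ℝ := 4 * C₂ * CV / β₀ with hH0
  have hH0p : 0 < H0 := by positivity
  refine ⟨C, min (β₀ / 4) (β₀ / (2 * C₂ * H0)), H0, hC, lt_min (by positivity) (by positivity), hH0p,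
    X1 + X2 + 3, fun x y hx hyx hx8 hxy D hD hD' => ?_⟩
  have hx3 : (3 : ℝ) ≤ x := by exact_mod_cast (by omega : 3 ≤ x)
  have hlog : 0 < Real.log x := Real.log_pos (by linarith)
  have hDp : (0 : ℝ) < D := lt_of_lt_of_le (by positivity) hD
  have hD1 : 1 ≤ D := by
    have : (0 : ℕ) < D := by exact_mod_cast hDp
    omega
  have hT : 0 < (x : ℝ) / Real.log x ^ 2 := by positivity
  have g1 := h1 x y (by omega) hyx hx8 hxy D hD hD'
  have g2 : ∀ e ∈ (Icc 1 D).filter (fun e => 6 ∣ e),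
      (Me y x e : ℝ) ≤ C₂ * ((x : ℝ) / Real.log x ^ 2) * HH (e : ℤ) := by
    intro e he
    rw [mem_filter, mem_Icc] at he
    exact h2 x y (by omega) hyx hxy e he.1.1 (by omega)
  have g3 : (((Icc 1 D).filter (fun e => 6 ∣ e)).card : ℝ) ≤ D := by
    have : ((Icc 1 D).filter (fun e => 6 ∣ e)).card ≤ (Icc 1 D).card := card_filter_le _ _
    rw [Nat.card_Icc] at this
    exact_mod_cast (by omega : ((Icc 1 D).filter (fun e => 6 ∣ e)).card ≤ D)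
  have g4 : ∑ e ∈ (Icc 1 D).filter (fun e => 6 ∣ e), HH (e : ℤ) ^ 2 ≤ CV * D := by
    calc ∑ e ∈ (Icc 1 D).filter (fun e => 6 ∣ e), HH (e : ℤ) ^ 2
        ≤ ∑ e ∈ Icc 1 D, HH (e : ℤ) ^ 8 := by
          refine (sum_le_sum fun e _ => ?_).trans
            (sum_le_sum_of_subset_of_nonneg (filter_subset _ _) fun e _ _ => by positivity)
          exact pow_le_pow_right₀ (HH_one_le _) (by norm_num)
      _ ≤ CV * D := by
          refine le_trans (le_of_eq ?_) (h3 D hD1)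
          refine sum_congr rfl fun e _ => ?_
          rw [HH, Int.natAbs_natCast]
  have key := GS_abs _ (fun e => (Me y x e : ℝ)) (fun e => HH (e : ℤ)) D _ β₀ C₂ CV H0 hT hβ hC₂ hCV
    g1 g2 g3 g4 hH0
  refine ⟨_, le_trans (mul_le_mul_of_nonneg_right (min_le_right _ _) hDp.le) key, fun e he => ?_⟩
  rw [mem_filter, mem_filter, mem_Icc] at he
  obtain ⟨⟨⟨e1, e2⟩, e3⟩, e4, e5⟩ := he
  exact ⟨e1, e2, e3, e4, le_trans (mul_le_mul_of_nonneg_right (min_le_left _ _) hT.le) e5⟩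

end Pool.Agent.H63.SG
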