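import Pool.Agent.H63.SG.PP
import Pool.Agent.H63.SG.GS
import Pool.Agent.H63.SG.Av3

/-!
# Four primes on average over the shifts
-/

set_option autoImplicit false

open Finset

namespace Pool.Agent.H63.SG

theorem FP_set (y x e : ℕ) (d : ℤ) (hd : d = e ∨ d = -(e : ℤ)) : ∃ A : Finset ℕ, A.card = Me y x e ∧
    ∀ t ∈ A, y < t ∧ t ≤ x ∧ t.Prime ∧ ∃ t' : ℕ, (t' : ℤ) = (t : ℤ) - d ∧ y < t' ∧ t' ≤ x ∧ t'.Prime := by
  classical
  have hP : ∀ t, t ∈ P1 y x → y < t ∧ t ≤ x ∧ t.Prime := by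
    intro t ht
    have h1 := mem_filter.1 ht
    have h2 := mem_Ioc.1 h1.1
    exact ⟨h2.1, h2.2, h1.2.1⟩
  rcases hd with rfl | rfl
  · refine ⟨((P1 y x).filter (fun p => p + e ∈ P1 y x)).image (fun p => p + e), ?_, ?_⟩
    · rw [card_image_of_injective _ (add_left_injective e)]
      rfl
    · intro t ht
      obtain ⟨p, hp, rfl⟩ := mem_image.1 ht
      have h1 := mem_filter.1 hp
      have h2 := hP _ h1.1
      have h3 := hP _ h1.2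
      exact ⟨h3.1, h3.2.1, h3.2.2, p, by push_cast; ring, h2.1, h2.2.1, h2.2.2⟩
  · refine ⟨(P1 y x).filter (fun p => p + e ∈ P1 y x), rfl, ?_⟩
    intro p hp
    have h1 := mem_filter.1 hp
    have h2 := hP _ h1.1
    have h3 := hP _ h1.2
    exact ⟨h2.1, h2.2.1, h2.2.2, p + e, by push_cast; ring, h3.1, h3.2.1, h3.2.2⟩

theorem FP_rough {x y : ℕ} {δ : ℝ} (hδ1 : δ ≤ 1 / 8) (hx : 400 ≤ x) (hxy : x ≤ 20 * y) {t : ℕ} (ht : y < t) (htp : t.Prime) :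
    ∀ l : ℕ, l.Prime → (l : ℝ) ≤ (x : ℝ) ^ δ → ¬ (l : ℤ) ∣ (t : ℤ) := by
  intro l hl hlx hdvd
  have h1 : l ∣ t := Int.natCast_dvd_natCast.1 hdvd
  have h2 : l = t := (Nat.prime_dvd_prime_iff_eq hl htp).1 h1
  have hn' : (400 : ℝ) ≤ x := by exact_mod_cast hx
  have h' : (x : ℝ) ≤ 20 * y := by exact_mod_cast hxy
  have h3 : Real.sqrt x ≤ y := by
    have h4 : Real.sqrt x * Real.sqrt x = x := Real.mul_self_sqrt (by linarith)
    have h5 : 20 ≤ Real.sqrt x := by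
      rw [show (20 : ℝ) = Real.sqrt 400 by
        rw [show (400 : ℝ) = 20 ^ 2 by norm_num, Real.sqrt_sq (by norm_num)]]
      exact Real.sqrt_le_sqrt hn'
    nlinarith
  have h6 : (x : ℝ) ^ δ ≤ Real.sqrt x := by
    rw [Real.sqrt_eq_rpow]
    exact Real.rpow_le_rpow_of_exponent_le (by linarith) (by linarith)
  have h7 : (y : ℝ) < l := by
    rw [h2]
    exact_mod_cast ht
  linarith

theorem HH_neg (m : ℤ) : HH (-m) = HH m := by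
  unfold HH
  rw [Int.natAbs_neg]

theorem FP : ∃ C β : ℝ, 0 < C ∧ 0 < β ∧ ∃ X0 : ℕ, ∀ x : ℕ, X0 ≤ x → ∀ D : ℕ, C * Real.log x ≤ D → 400 * D ≤ x →
    ∃ G₁ G₂ : Finset ℕ, β * D ≤ (G₁.card : ℝ) ∧ β * D ≤ (G₂.card : ℝ) ∧ (∀ e ∈ G₁, 1 ≤ e ∧ e ≤ D ∧ 6 ∣ e) ∧
      (∀ e ∈ G₂, 1 ≤ e ∧ e ≤ D ∧ 6 ∣ e) ∧ ∀ e₁ ∈ G₁, ∀ e₂ ∈ G₂, ∀ d₁ d₂ : ℤ, (d₁ = e₁ ∨ d₁ = -(e₁ : ℤ)) → (d₂ = e₂ ∨ d₂ = -(e₂ : ℤ)) →
        ∀ c : ℕ, (c = 1 ∨ c = 2) → ∃ S : Finset ℕ, β * x ≤ (S.card : ℝ) ∧ ∀ n ∈ S, n ≤ x ∧ cc n = c ∧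
          ∃ p q : ℕ, n = p + cc n * q ∧ q < p ∧ p.Prime ∧ q.Prime ∧ ((p : ℤ) - d₁).toNat.Prime ∧ ((q : ℤ) + d₂).toNat.Prime := by
  classical
  obtain ⟨C₀, β₀, H0, hC₀, hβ₀, hH0, XG, HG⟩ := GS
  obtain ⟨δU, hδU, hδU1, HU⟩ := Rn_bd
  obtain ⟨CV, hCV, HV⟩ := Av3_bd
  obtain ⟨C, hC, XU, HU1⟩ := HU δU hδU le_rfl
  obtain ⟨β, hβ, hβ1, hβ2⟩ : ∃ β : ℝ, 0 < β ∧ β ≤ β₀ ∧ β ≤ (β₀ / 20) ^ 4 / (C ^ 2 * (H0 * H0) ^ 2 * CV) :=
    ⟨min β₀ ((β₀ / 20) ^ 4 / (C ^ 2 * (H0 * H0) ^ 2 * CV)), lt_min hβ₀ (by positivity), min_le_left _ _, min_le_right _ _⟩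
  refine ⟨C₀, β, hC₀, hβ, 10 * XG + XU + 2000, fun x hx D hD hDx => ?_⟩
  have hxr : (2000 : ℝ) ≤ x := by
    have : 2000 ≤ x := by omega
    exact_mod_cast this
  have hx0 : (0 : ℝ) < x := by linarith
  have hlog : 0 < Real.log x := Real.log_pos (by linarith)
  have hDle : ∀ x' : ℕ, 1 ≤ x' → x' ≤ x → C₀ * Real.log x' ≤ D := by
    intro x' h1 h2
    refine le_trans ?_ hD
    refine mul_le_mul_of_nonneg_left ?_ hC₀.le
    exact Real.log_le_log (by exact_mod_cast h1) (by exact_mod_cast h2)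
  obtain ⟨G₁, hG₁, hG₁'⟩ := HG (3 * x / 4) (x / 2) (by omega) (by omega) (by omega) (by omega) D (hDle _ (by omega) (by omega)) (by omega)
  obtain ⟨G₂, hG₂, hG₂'⟩ := HG (x / 8) (x / 16) (by omega) (by omega) (by omega) (by omega) D (hDle _ (by omega) (by omega)) (by omega)
  have hD0 : (0 : ℝ) ≤ D := Nat.cast_nonneg _
  refine ⟨G₁, G₂, (mul_le_mul_of_nonneg_right hβ1 hD0).trans hG₁, (mul_le_mul_of_nonneg_right hβ1 hD0).trans hG₂,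
    fun e he => ⟨(hG₁' e he).1, (hG₁' e he).2.1, (hG₁' e he).2.2.1⟩, fun e he => ⟨(hG₂' e he).1, (hG₂' e he).2.1, (hG₂' e he).2.2.1⟩, ?_⟩
  intro e₁ he₁ e₂ he₂ d₁ d₂ hd₁ hd₂ c hc
  obtain ⟨g1, g2, g3, g4, g5⟩ := hG₁' e₁ he₁
  obtain ⟨k1, k2, k3, k4, k5⟩ := hG₂' e₂ he₂
  obtain ⟨A, hA1, hA2⟩ := FP_set (x / 2) (3 * x / 4) e₁ d₁ hd₁
  obtain ⟨B, hB1, hB2⟩ := FP_set (x / 16) (x / 8) e₂ (-d₂) (by
    rcases hd₂ with rfl | rfl
    · exact Or.inr rfl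
    · exact Or.inl (neg_neg _))
  have hHd₁ : HH d₁ ≤ H0 := by
    rcases hd₁ with rfl | rfl
    · exact g4
    · rw [HH_neg]; exact g4
  have hHd₂ : HH d₂ ≤ H0 := by
    rcases hd₂ with rfl | rfl
    · exact k4
    · rw [HH_neg]; exact k4
  have hd₁0 : d₁ ≠ 0 := by rcases hd₁ with rfl | rfl <;> omega
  have hd₂0 : d₂ ≠ 0 := by rcases hd₂ with rfl | rfl <;> omega
  have hd₁D : d₁.natAbs ≤ D := by rcases hd₁ with rfl | rfl <;> omega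
  have hd₂D : d₂.natAbs ≤ D := by rcases hd₂ with rfl | rfl <;> omega
  have hc2 : (c : ℤ) = 1 ∨ (c : ℤ) = 2 := by
    rcases hc with rfl | rfl <;> simp
  have hSv0 : ∀ i, 4 * (Sv d₁ d₂ c i).natAbs ≤ x := by
    intro i
    fin_cases i
    · show 4 * (0 : ℤ).natAbs ≤ x
      omega
    · show 4 * (-d₁).natAbs ≤ x
      omega
    · show 4 * ((c : ℤ) * d₂).natAbs ≤ x
      rcases hc2 with h | h <;> rw [h] <;> omega
    · show 4 * ((c : ℤ) * d₂ - d₁).natAbs ≤ x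
      rcases hc2 with h | h <;> rw [h] <;> omega
  have hSv : ∀ n : ℕ, x / 2 < n → ∀ i, (n : ℤ) + Sv d₁ d₂ c i ≠ 0 := by
    intro n hn i
    have := hSv0 i
    omega
  have hcb : ∀ b : ℕ, c * b ≤ 2 * b := fun b => Nat.mul_le_mul_right b (by omega)
  have key := Cs_bd A B (Ioc (x / 2) x) (fun a b => a + c * b) (fun a ha b hb => by
      have k1 := hA2 a ha
      have k2 := hB2 b hb
      have k3 := hcb b
      rw [mem_Ioc]
      omega) (fun n => ∏ i, HH ((n : ℤ) + Sv d₁ d₂ c i)) (C * ((x : ℝ) / Real.log x ^ 4) * (H0 * H0)) (CV * x) (by positivity)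
    (fun n hn => by
      have k1 := mem_Ioc.1 hn
      have k2 := HU1 x (by omega) c n d₁ d₂ hc hd₁0 hd₂0 k1.2 (hSv n k1.1) A B
        (fun t ht l hl hlx => by
          obtain ⟨m1, m2, m3, t', m4, m5, m6, m7⟩ := hA2 t ht
          refine ⟨FP_rough hδU1 (by omega) (by omega) m1 m3 l hl hlx, ?_⟩
          rw [← m4]
          exact FP_rough hδU1 (by omega) (by omega) m5 m7 l hl hlx)
        (fun t ht => by
          obtain ⟨m1, m2, m3, t', m4, m5, m6, m7⟩ := hB2 t ht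
          refine ⟨by omega, fun l hl hlx => ⟨FP_rough hδU1 (by omega) (by omega) m1 m3 l hl hlx, ?_⟩⟩
          rw [← m4]
          exact FP_rough hδU1 (by omega) (by omega) m5 m7 l hl hlx)
      refine k2.trans ?_
      have hHH : HH d₁ * HH d₂ ≤ H0 * H0 := mul_le_mul hHd₁ hHd₂ (HH_pos _).le hH0.le
      have hpr : (0 : ℝ) ≤ ∏ i, HH ((n : ℤ) + Sv d₁ d₂ c i) := prod_nonneg (fun i _ => (HH_pos _).le)
      refine mul_le_mul_of_nonneg_right ?_ hpr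
      exact mul_le_mul_of_nonneg_left hHH (by positivity))
    (HV (Sv d₁ d₂ c) x (by omega) hSv0)
  obtain ⟨S, hS1, hS2⟩ : ∃ S : Finset ℕ, ((A.card : ℝ) * B.card) ^ 2 ≤
        (S.card : ℝ) * ((C * ((x : ℝ) / Real.log x ^ 4) * (H0 * H0)) ^ 2 * (CV * x)) ∧
      ∀ n, n ∈ S ↔ n ∈ Ioc (x / 2) x ∧ ∃ a ∈ A, ∃ b ∈ B, a + c * b = n :=
    ⟨_, key, fun n => mem_filter⟩
  refine ⟨S, ?_, fun n hn => ?_⟩
  · have a1 : β₀ / 20 * ((x : ℝ) / Real.log x ^ 2) ≤ (A.card : ℝ) := by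
      rw [hA1]
      exact (PP_cnt (n := x) hβ₀ (by omega) (by omega) (by omega)).trans g5
    have b1 : β₀ / 20 * ((x : ℝ) / Real.log x ^ 2) ≤ (B.card : ℝ) := by
      rw [hB1]
      exact (PP_cnt (n := x) hβ₀ (by omega) (by omega) (by omega)).trans k5
    have ab : (β₀ / 20 * ((x : ℝ) / Real.log x ^ 2)) * (β₀ / 20 * ((x : ℝ) / Real.log x ^ 2)) ≤ (A.card : ℝ) * B.card :=
      mul_le_mul a1 b1 (by positivity) (by positivity)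
    have ab2 : ((β₀ / 20 * ((x : ℝ) / Real.log x ^ 2)) * (β₀ / 20 * ((x : ℝ) / Real.log x ^ 2))) ^ 2 ≤
        (S.card : ℝ) * ((C * ((x : ℝ) / Real.log x ^ 4) * (H0 * H0)) ^ 2 * (CV * x)) :=
      (pow_le_pow_left₀ (by positivity) ab 2).trans hS1
    have hW : 0 < (C * ((x : ℝ) / Real.log x ^ 4) * (H0 * H0)) ^ 2 * (CV * x) := by positivity
    rw [← div_le_iff₀ hW] at ab2
    refine le_trans (mul_le_mul_of_nonneg_right hβ2 hx0.le) ?_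
    refine le_trans (le_of_eq ?_) ab2
    field_simp
  · obtain ⟨j1, a, ha, b, hb, hab⟩ := (hS2 n).1 hn
    have j2 := mem_Ioc.1 j1
    obtain ⟨m1, m2, m3, t', m4, m5, m6, m7⟩ := hA2 a ha
    obtain ⟨n1, n2, n3, t'', n4, n5, n6, n7⟩ := hB2 b hb
    have hccn : cc n = c := PP_cc m3 n3 (by omega) (by omega) hc hab.symm
    refine ⟨j2.2, hccn, a, b, by rw [hccn]; exact hab.symm, by omega, m3, n3, ?_, ?_⟩
    · rw [← m4, Int.toNat_natCast]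
      exact m7
    · have e1 : (b : ℤ) + d₂ = (t'' : ℤ) := by rw [n4]; ring
      rw [e1, Int.toNat_natCast]
      exact n7

end Pool.Agent.H63.SG
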