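import Pool.Agent.H63.SG.PPU
import Pool.Agent.H63.SG.FP

/-!
# Three primes: one shift on average, the other one arbitrary
-/

set_option autoImplicit false

open Finset

namespace Pool.Agent.H63.SG

theorem Mix : ∃ δ₀ : ℝ, 0 < δ₀ ∧ δ₀ ≤ 1 / 8 ∧ ∀ δ : ℝ, 0 < δ → δ ≤ δ₀ → ∃ C : ℝ, 0 < C ∧ ∃ X0 : ℕ, ∀ x : ℕ, X0 ≤ x →
    ∀ e₁ e₂ : ℤ, e₁ ≠ 0 → e₂ ≠ 0 → 8 * e₁.natAbs + 8 * e₂.natAbs ≤ x → ∀ c : ℕ, (c = 1 ∨ c = 2) →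
    ∀ (A B : Finset ℕ) (a b : ℝ), 0 < a → 0 < b →
      a * ((x : ℝ) / Real.log x ^ 2) * ∏ l ∈ ZZ e₁ ((x : ℝ) ^ δ), (1 + 1 / (l : ℝ)) ≤ (A.card : ℝ) →
      b * ((x : ℝ) / Real.log x ^ 2) * ∏ l ∈ ZZ e₂ ((x : ℝ) ^ δ), (1 + 1 / (l : ℝ)) ≤ (B.card : ℝ) →
      (∀ t ∈ A, x / 2 < t ∧ t ≤ 3 * x / 4 ∧
        ∀ l : ℕ, l.Prime → (l : ℝ) ≤ (x : ℝ) ^ δ → ¬ (l : ℤ) ∣ (t : ℤ) ∧ ¬ (l : ℤ) ∣ (t : ℤ) - e₁) →
      (∀ t ∈ B, 1 ≤ t ∧ t ≤ x / 8 ∧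
        ∀ l : ℕ, l.Prime → (l : ℝ) ≤ (x : ℝ) ^ δ → ¬ (l : ℤ) ∣ (t : ℤ) ∧ ¬ (l : ℤ) ∣ (t : ℤ) - (-e₂)) →
      ∃ S : Finset ℕ, (a * b) ^ 2 / C * x ≤ (S.card : ℝ) ∧
        ∀ n ∈ S, n ∈ Ioc (x / 2) x ∧ ∃ a ∈ A, ∃ b ∈ B, a + c * b = n := by
  classical
  obtain ⟨δU, hδU, hδU1, HU⟩ := RnU_bd
  obtain ⟨CV, hCV, HV⟩ := Av3_bd
  refine ⟨δU, hδU, hδU1, fun δ hδ hδδ => ?_⟩
  obtain ⟨C, hC, XU, HU1⟩ := HU δ hδ hδδ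
  refine ⟨C ^ 2 * CV, by positivity, XU + 2000, fun x hx e₁ e₂ he₁ he₂ he c hc A B a b ha hb hA1 hB1 hA2 hB2 => ?_⟩
  have hxr : (2000 : ℝ) ≤ x := by
    have : 2000 ≤ x := by omega
    exact_mod_cast this
  have hx0 : (0 : ℝ) < x := by linarith
  have hlog : 0 < Real.log x := Real.log_pos (by linarith)
  obtain ⟨P₁, hP₁⟩ : ∃ P₁ : ℝ, P₁ = ∏ l ∈ ZZ e₁ ((x : ℝ) ^ δ), (1 + 1 / (l : ℝ)) := ⟨_, rfl⟩
  obtain ⟨P₂, hP₂⟩ : ∃ P₂ : ℝ, P₂ = ∏ l ∈ ZZ e₂ ((x : ℝ) ^ δ), (1 + 1 / (l : ℝ)) := ⟨_, rfl⟩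
  have hP₁0 : 0 < P₁ := by rw [hP₁]; exact prod_pos (fun l _ => by positivity)
  have hP₂0 : 0 < P₂ := by rw [hP₂]; exact prod_pos (fun l _ => by positivity)
  rw [← hP₁] at hA1
  rw [← hP₂] at hB1
  have hc2 : (c : ℤ) = 1 ∨ (c : ℤ) = 2 := by
    rcases hc with rfl | rfl <;> simp
  have hSv : ∀ n : ℕ, x / 2 < n → ∀ i, (n : ℤ) + Sv e₁ e₂ c i ≠ 0 := by
    intro n hn i
    fin_cases i
    · show (n : ℤ) + 0 ≠ 0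
      omega
    · show (n : ℤ) + -e₁ ≠ 0
      omega
    · show (n : ℤ) + c * e₂ ≠ 0
      rcases hc2 with h | h <;> rw [h] <;> omega
    · show (n : ℤ) + (c * e₂ - e₁) ≠ 0
      rcases hc2 with h | h <;> rw [h] <;> omega
  have hSa : ∀ i, 4 * (Sv e₁ e₂ c i).natAbs ≤ x := by
    intro i
    fin_cases i
    · show 4 * (0 : ℤ).natAbs ≤ x
      simp
    · show 4 * (-e₁ : ℤ).natAbs ≤ x
      omega
    · show 4 * (c * e₂ : ℤ).natAbs ≤ x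
      rcases hc2 with h | h <;> rw [h] <;> omega
    · show 4 * (c * e₂ - e₁ : ℤ).natAbs ≤ x
      rcases hc2 with h | h <;> rw [h] <;> omega
  have hcb : ∀ b : ℕ, c * b ≤ 2 * b := fun b => Nat.mul_le_mul_right b (by omega)
  have key := Cs_bd A B (Ioc (x / 2) x) (fun a b => a + c * b) (fun a ha b hb => by
      have k1 := hA2 a ha
      have k2 := hB2 b hb
      have k3 := hcb b
      rw [mem_Ioc]
      omega) (fun n => ∏ i, HH ((n : ℤ) + Sv e₁ e₂ c i)) (C * ((x : ℝ) / Real.log x ^ 4) * (P₁ * P₂)) (CV * x) (by positivity)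
    (fun n hn => by
      have k1 := mem_Ioc.1 hn
      have k2 := HU1 x (by omega) c n e₁ e₂ hc he₁ he₂ k1.2 (hSv n k1.1) (ZZ e₁ ((x : ℝ) ^ δ)) (ZZ e₂ ((x : ℝ) ^ δ))
        (fun l => ZZ_mem he₁ _ _) (fun l => ZZ_mem he₂ _ _) A B
        (fun t ht l hl hlx => (hA2 t ht).2.2 l hl hlx)
        (fun t ht => ⟨(hB2 t ht).1, fun l hl hlx => (hB2 t ht).2.2 l hl hlx⟩)
      rw [← hP₁, ← hP₂] at k2
      exact k2)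
    (HV (Sv e₁ e₂ c) x (by omega) hSa)
  obtain ⟨S, hS1, hS2⟩ : ∃ S : Finset ℕ, ((A.card : ℝ) * B.card) ^ 2 ≤ (S.card : ℝ) * ((C * ((x : ℝ) / Real.log x ^ 4) * (P₁ * P₂)) ^ 2 * (CV * x)) ∧
      ∀ n, n ∈ S ↔ n ∈ Ioc (x / 2) x ∧ ∃ a ∈ A, ∃ b ∈ B, a + c * b = n :=
    ⟨_, key, fun n => mem_filter⟩
  refine ⟨S, ?_, fun n hn => (hS2 n).1 hn⟩
  have ab : (a * ((x : ℝ) / Real.log x ^ 2) * P₁) * (b * ((x : ℝ) / Real.log x ^ 2) * P₂) ≤ (A.card : ℝ) * B.card :=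
    mul_le_mul hA1 hB1 (by positivity) (by positivity)
  have ab2 : ((a * ((x : ℝ) / Real.log x ^ 2) * P₁) * (b * ((x : ℝ) / Real.log x ^ 2) * P₂)) ^ 2 ≤
      (S.card : ℝ) * ((C * ((x : ℝ) / Real.log x ^ 4) * (P₁ * P₂)) ^ 2 * (CV * x)) :=
    (pow_le_pow_left₀ (by positivity) ab 2).trans hS1
  have hW : 0 < (C * ((x : ℝ) / Real.log x ^ 4) * (P₁ * P₂)) ^ 2 * (CV * x) := by positivity
  rw [← div_le_iff₀ hW] at ab2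
  refine le_trans (le_of_eq ?_) ab2
  field_simp

theorem ZZ_HH (e : ℤ) (z : ℝ) : ∏ l ∈ ZZ e z, (1 + 1 / (l : ℝ)) ≤ HH e := by
  classical
  unfold HH
  have hsub : ZZ e z ⊆ e.natAbs.primeFactors.filter (fun l => 12 < l) := by
    intro l hl
    unfold ZZ at hl
    have h1 := mem_filter.1 hl
    exact mem_filter.2 ⟨h1.1, h1.2.1⟩
  calc ∏ l ∈ ZZ e z, (1 + 1 / (l : ℝ)) ≤ ∏ l ∈ ZZ e z, (1 + 6 / (l : ℝ)) := by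
        refine prod_le_prod (fun l _ => by positivity) (fun l _ => ?_)
        have : 1 / (l : ℝ) ≤ 6 / (l : ℝ) := div_le_div_of_nonneg_right (by norm_num) (Nat.cast_nonneg l)
        linarith
    _ ≤ _ := by
        rw [← prod_sdiff hsub]
        refine le_mul_of_one_le_left (prod_nonneg (fun l _ => by positivity)) ?_
        calc (1 : ℝ) = ∏ l ∈ (e.natAbs.primeFactors.filter (fun l => 12 < l)) \ ZZ e z, (1 : ℝ) := by rw [prod_const_one]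
          _ ≤ _ := prod_le_prod (fun _ _ => zero_le_one) (fun l _ => by
            have : (0 : ℝ) ≤ 6 / (l : ℝ) := by positivity
            linarith)

end Pool.Agent.H63.SG
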