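import Pool.Agent.H63.SG.Df

/-!
# If `6` does not divide both shifts there is a local obstruction
-/

set_option autoImplicit false

namespace Pool.Agent.H63.SG

theorem Neg_obs (d₁ d₂ : ℤ) (h : ¬ ((6 : ℤ) ∣ d₁ ∧ (6 : ℤ) ∣ d₂)) (N : ℕ) : ∃ n : ℕ, N ≤ n ∧ ∀ p q : ℕ, n = p + cc n * q →
    ∃ i, (2 : ℤ) ∣ Quad d₁ d₂ p q i ∨ (3 : ℤ) ∣ Quad d₁ d₂ p q i := by
  have m3 : ∀ z : ℤ, z % 3 = 0 ∨ z % 3 = 1 ∨ z % 3 = 2 := fun z => by omega
  have key : ∃ s : ℕ, s < 3 ∧ ∀ p q : ℕ, 6 * N + 2 * s = p + q →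
      ((2 : ℤ) ∣ p ∨ (3 : ℤ) ∣ p) ∨ ((2 : ℤ) ∣ (p : ℤ) - d₁ ∨ (3 : ℤ) ∣ (p : ℤ) - d₁) ∨
      ((2 : ℤ) ∣ q ∨ (3 : ℤ) ∣ q) ∨ ((2 : ℤ) ∣ (q : ℤ) + d₂ ∨ (3 : ℤ) ∣ (q : ℤ) + d₂) := by
    by_cases h1 : (2 : ℤ) ∣ d₁
    · by_cases h2 : (2 : ℤ) ∣ d₂
      · -- both even, so `3` does not divide both
        rcases m3 d₁ with a | a | a <;> rcases m3 d₂ with b | b | b
        · exact absurd (by omega) h
        all_goals
          first
          | refine ⟨0, by norm_num, fun p q hpq => ?_⟩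
            rcases m3 p with c | c | c <;> rcases m3 q with d | d | d <;> omega
          | refine ⟨1, by norm_num, fun p q hpq => ?_⟩
            rcases m3 p with c | c | c <;> rcases m3 q with d | d | d <;> omega
          | refine ⟨2, by norm_num, fun p q hpq => ?_⟩
            rcases m3 p with c | c | c <;> rcases m3 q with d | d | d <;> omega
      · exact ⟨0, by norm_num, fun p q hpq => by omega⟩
    · exact ⟨0, by norm_num, fun p q hpq => by omega⟩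
  obtain ⟨s, -, hs⟩ := key
  refine ⟨6 * N + 2 * s, by omega, fun p q hpq => ?_⟩
  have hc : cc (6 * N + 2 * s) = 1 := by
    unfold cc
    rw [if_pos (by omega)]
  rw [hc, one_mul] at hpq
  rcases hs p q hpq with h1 | h1 | h1 | h1
  · exact ⟨0, h1⟩
  · exact ⟨1, h1⟩
  · exact ⟨2, h1⟩
  · exact ⟨3, h1⟩

end Pool.Agent.H63.SG
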