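import Mathlib

/-!
# Numbers without small prime factors have few prime factors

`m` is the product of the `k` members of `m.primeFactorsList`, each `> x^δ`, so
`x^(δ k) ≤ m ≤ x^2`, `δ k ≤ 2`.
-/

set_option autoImplicit false

namespace Pool.Agent.H63.SG

theorem Om_len {x δ : ℝ} (hx : 1 < x) (hδ : 0 < δ) {m : ℕ} (hm : 0 < m) (hmx : (m : ℝ) ≤ x ^ 2)
    (h : ∀ l : ℕ, l.Prime → l ∣ m → x ^ δ < l) : m.primeFactorsList.length ≤ ⌊2 / δ⌋₊ := by
  have h1 : ∀ L : List ℕ, (∀ l ∈ L, x ^ δ < l) → (x ^ δ) ^ L.length ≤ ((L.prod : ℕ) : ℝ) := by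
    intro L
    induction L with
    | nil => intro _; simp
    | cons a L ih =>
      intro hL
      have h2 := ih fun l hl => hL l (List.mem_cons_of_mem _ hl)
      have h3 := (hL a List.mem_cons_self).le
      rw [List.length_cons, List.prod_cons, Nat.cast_mul, pow_succ, mul_comm (a : ℝ)]
      exact mul_le_mul h2 h3 (by positivity) (by positivity)
  have h2 := h1 m.primeFactorsList fun l hl =>
    h l (Nat.prime_of_mem_primeFactorsList hl) (Nat.dvd_of_mem_primeFactorsList hl)
  rw [Nat.prod_primeFactorsList hm.ne'] at h2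
  have h3 : x ^ (δ * m.primeFactorsList.length) ≤ x ^ (2 : ℝ) := by
    rw [Real.rpow_mul (by linarith), Real.rpow_natCast, Real.rpow_two]
    exact h2.trans hmx
  have h4 := (Real.rpow_le_rpow_left_iff hx).1 h3
  apply Nat.le_floor
  rw [le_div_iff₀ hδ]
  linarith

end Pool.Agent.H63.SG
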