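import Pool.Agent.H63.SG.Cor1
import Pool.Agent.H63.SG.Loc

/-!
# `p` is prime
-/

set_option autoImplicit false

open Finset

namespace Pool.Agent.H63.SG

theorem P0_pow {n x : ℕ} {δ₁ : ℝ} (hδ : 0 < δ₁) (hn : 25 ≤ n) (h : n ≤ 5 * x) : (n : ℝ) ^ (δ₁ / 2) ≤ (x : ℝ) ^ δ₁ := by
  have hn' : (25 : ℝ) ≤ n := by exact_mod_cast hn
  have h' : (n : ℝ) ≤ 5 * x := by exact_mod_cast h
  have h1 : Real.sqrt n ≤ x := by
    have h2 : Real.sqrt n * Real.sqrt n = n := Real.mul_self_sqrt (by linarith)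
    have h3 : 5 ≤ Real.sqrt n := by
      rw [show (5 : ℝ) = Real.sqrt 25 by
        rw [show (25 : ℝ) = 5 ^ 2 by norm_num, Real.sqrt_sq (by norm_num)]]
      exact Real.sqrt_le_sqrt hn'
    nlinarith
  calc (n : ℝ) ^ (δ₁ / 2) = (Real.sqrt n) ^ δ₁ := by
        rw [Real.sqrt_eq_rpow, ← Real.rpow_mul (by linarith)]
        congr 1
        ring
    _ ≤ (x : ℝ) ^ δ₁ := Real.rpow_le_rpow (Real.sqrt_nonneg _) h1 hδ.le

theorem P0_pow2 {n y : ℕ} {δ₁ : ℝ} (hδ1 : δ₁ ≤ 1) (hn : 81 ≤ n) (h : n ≤ 9 * y) : (n : ℝ) ^ (δ₁ / 2) ≤ (y : ℝ) := by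
  have hn' : (81 : ℝ) ≤ n := by exact_mod_cast hn
  have h' : (n : ℝ) ≤ 9 * y := by exact_mod_cast h
  have h1 : Real.sqrt n ≤ y := by
    have h2 : Real.sqrt n * Real.sqrt n = n := Real.mul_self_sqrt (by linarith)
    have h3 : 9 ≤ Real.sqrt n := by
      rw [show (9 : ℝ) = Real.sqrt 81 by
        rw [show (81 : ℝ) = 9 ^ 2 by norm_num, Real.sqrt_sq (by norm_num)]]
      exact Real.sqrt_le_sqrt hn'
    nlinarith
  refine le_trans ?_ h1
  rw [Real.sqrt_eq_rpow]
  exact Real.rpow_le_rpow_of_exponent_le (by linarith) (by linarith)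

theorem P0_cnt {n x : ℕ} {κ₁ : ℝ} (hκ : 0 < κ₁) (hn : 25 ≤ n) (h : n ≤ 5 * x) (hx : x ≤ n) :
    κ₁ / 5 * ((n : ℝ) / Real.log n ^ 4) ≤ κ₁ * ((x : ℝ) / Real.log x ^ 4) := by
  have hn' : (25 : ℝ) ≤ n := by exact_mod_cast hn
  have h' : (n : ℝ) ≤ 5 * x := by exact_mod_cast h
  have hx' : (x : ℝ) ≤ n := by exact_mod_cast hx
  have hx5 : (5 : ℝ) ≤ x := by linarith
  have h1 : 0 < Real.log x := Real.log_pos (by linarith)
  have h2 : Real.log x ≤ Real.log n := Real.log_le_log (by linarith) hx'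
  have h3 : Real.log x ^ 4 ≤ Real.log n ^ 4 := pow_le_pow_left₀ h1.le h2 4
  have h4 : (n : ℝ) / Real.log n ^ 4 ≤ 5 * x / Real.log x ^ 4 := by
    apply div_le_div₀ (by linarith) h' (by positivity) h3
  have e : κ₁ * ((x : ℝ) / Real.log x ^ 4) = κ₁ / 5 * (5 * x / Real.log x ^ 4) := by ring
  rw [e]
  exact mul_le_mul_of_nonneg_left h4 (by positivity)

theorem P0_small {l : ℕ} (hl : l.Prime) (h : l ≤ 12) : l ∣ 2310 := by
  interval_cases l <;> first | (norm_num at hl; done) | decide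

theorem P0_cc (n : ℕ) : cc n = 1 ∧ n % 2 = 0 ∨ cc n = 2 ∧ n % 2 = 1 := by
  unfold cc
  split_ifs with h
  · exact Or.inl ⟨rfl, h⟩
  · exact Or.inr ⟨rfl, by omega⟩

theorem P0 : Tgt 0 := by
  classical
  obtain ⟨δ₁, hδ0, hδ1, κ₁, hκ, X0, H⟩ := core1
  refine ⟨δ₁ / 2, by positivity, κ₁ / 5, by positivity, 2 * X0 + 1000, 16, fun K d₁ d₂ h1 h2 n hn => ?_⟩
  obtain ⟨q₀, hq⟩ := Loc_q n d₁ d₂ h1 h2
  obtain ⟨c, hc⟩ : ∃ c, c = cc n := ⟨_, rfl⟩
  have hcc := P0_cc n
  rw [← hc] at hq hcc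
  obtain ⟨F, hF1, hF2⟩ := H (3 * n / 4) (5 * n / 8) (by omega) (by omega) (by omega) (by omega) ((n : ℤ) - (c : ℤ) * q₀)
    (fun l hl hl12 => (hq l hl hl12).2.2.1) (fun _ => (d₁ : ZMod _)) (fun _ => (n : ZMod _))
    (fun _ => (n : ZMod _) + (c : ZMod _) * (d₂ : ZMod _))
  have hdv : ∀ t ∈ F, (c : ℕ) * ((n - t) / c) = n - t ∧ t ≤ n := by
    intro t ht
    obtain ⟨k1, k2, k3, k4, -⟩ := hF2 t ht
    refine ⟨?_, by omega⟩
    rcases hcc with ⟨hc1, hn2⟩ | ⟨hc1, hn2⟩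
    · rw [hc1]; omega
    · rw [hc1]
      have h3 : t % 2 = 1 := by
        rcases k3.eq_two_or_odd with h | h
        · omega
        · exact h
      omega
  refine ⟨F.image (fun t => (t, (n - t) / c)), ?_, ?_⟩
  · rw [card_image_of_injective _ (fun a b hab => (Prod.ext_iff.1 hab).1)]
    exact (P0_cnt hκ (by omega) (by omega) (by omega)).trans hF1
  · intro e he
    obtain ⟨t, ht, rfl⟩ := mem_image.1 he
    obtain ⟨k1, k2, k3, k4, k5⟩ := hF2 t ht
    obtain ⟨g1, g2⟩ := hdv t ht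
    obtain ⟨q, hqd⟩ : ∃ q, q = (n - t) / c := ⟨_, rfl⟩
    rw [← hqd] at g1
    have hc0 : c = 1 ∨ c = 2 := by omega
    have g3 : n = t + c * q := by omega
    have hqK : q + K ≤ t ∧ K ≤ q := by
      rcases hc0 with h | h
      · rw [h] at g1
        omega
      · rw [h] at g1
        omega
    show n = t + cc n * ((n - t) / c) ∧ (n - t) / c + K ≤ t ∧ K ≤ (n - t) / c ∧ (Quad d₁ d₂ t ((n - t) / c) 0).natAbs.Prime ∧
        ∀ i, ∀ l : ℕ, l.Prime → (l : ℤ) ∣ Quad d₁ d₂ t ((n - t) / c) i → (n : ℝ) ^ (δ₁ / 2) < l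
    rw [← hqd, ← hc]
    refine ⟨g3, hqK.1, hqK.2, ?_, ?_⟩
    · show ((t : ℤ)).natAbs.Prime
      rw [Int.natAbs_natCast]
      exact k3
    · intro i l hl hli
      by_contra hcon
      rw [not_lt] at hcon
      have hlx : (l : ℝ) ≤ ((3 * n / 4 : ℕ) : ℝ) ^ δ₁ := hcon.trans (P0_pow hδ0 (by omega) (by omega))
      obtain ⟨k, hk⟩ := k4
      have e1 : (n : ℤ) = t + c * q := by exact_mod_cast g3
      rcases Nat.lt_or_ge 12 l with hl12 | hl12
      · haveI : Fact l.Prime := ⟨hl⟩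
        obtain ⟨m1, m2, m3⟩ := k5 l hl hl12 hlx
        fin_cases i
        · have h3 : l ∣ t := Int.natCast_dvd_natCast.1 hli
          have h4 : l = t := (Nat.prime_dvd_prime_iff_eq hl k3).1 h3
          have h5 : ((5 * n / 8 : ℕ) : ℝ) < l := by
            rw [h4]
            exact_mod_cast k1
          have h6 := P0_pow2 (n := n) (y := 5 * n / 8) (δ₁ := δ₁) (by linarith) (by omega) (by omega)
          linarith
        · have h3 : (l : ℤ) ∣ (t : ℤ) - d₁ := hli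
          apply m1
          have h4 := (ZMod.intCast_zmod_eq_zero_iff_dvd _ l).2 h3
          push_cast at h4
          exact sub_eq_zero.1 h4
        · have h3 : (l : ℤ) ∣ (q : ℤ) := hli
          apply m2
          have h4 := (ZMod.intCast_zmod_eq_zero_iff_dvd _ l).2 h3
          push_cast at h4
          have h5 := congrArg (Int.cast : ℤ → ZMod l) e1
          push_cast at h5
          rw [h4, mul_zero, add_zero] at h5
          exact h5.symm
        · have h3 : (l : ℤ) ∣ (q : ℤ) + d₂ := hli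
          apply m3
          have h4 := (ZMod.intCast_zmod_eq_zero_iff_dvd _ l).2 h3
          push_cast at h4
          have h5 := congrArg (Int.cast : ℤ → ZMod l) e1
          push_cast at h5
          have h6 : (q : ZMod l) = - (d₂ : ZMod l) := eq_neg_of_add_eq_zero_left h4
          rw [h6] at h5
          show (t : ZMod l) = (n : ZMod l) + (c : ZMod l) * (d₂ : ZMod l)
          rw [h5]
          ring
      · have h23 : (l : ℤ) ∣ 2310 := by exact_mod_cast P0_small hl hl12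
        obtain ⟨n1, n2, n3, n4⟩ := hq l hl hl12
        have e2 : ∃ k' : ℤ, (q : ℤ) - q₀ = 2310 * k' := by
          rcases hc0 with h | h
          · refine ⟨-2 * k, ?_⟩
            rw [h] at e1 hk
            push_cast at e1 hk
            linarith
          · refine ⟨-k, ?_⟩
            rw [h] at e1 hk
            push_cast at e1 hk
            linarith
        obtain ⟨k', hk'⟩ := e2
        have e3 : (l : ℤ) ∣ (q : ℤ) - q₀ := hk' ▸ Dvd.dvd.mul_right h23 _
        have e4 : (l : ℤ) ∣ (t : ℤ) - ((n : ℤ) - (c : ℤ) * q₀) := by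
          rw [hk]
          exact Dvd.dvd.mul_right (h23.trans (by norm_num)) _
        fin_cases i
        · have h3 : (l : ℤ) ∣ (t : ℤ) := hli
          exact n3 ((dvd_sub_right h3).1 e4)
        · have h3 : (l : ℤ) ∣ (t : ℤ) - d₁ := hli
          apply n4
          have h4 := dvd_sub h3 e4
          have h5 : (t : ℤ) - d₁ - ((t : ℤ) - ((n : ℤ) - (c : ℤ) * q₀)) = (n : ℤ) - (c : ℤ) * q₀ - d₁ := by ring
          rwa [h5] at h4
        · have h3 : (l : ℤ) ∣ (q : ℤ) := hli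
          exact n1 ((dvd_sub_right h3).1 e3)
        · have h3 : (l : ℤ) ∣ (q : ℤ) + d₂ := hli
          apply n2
          have h4 := dvd_sub h3 e3
          have h5 : (q : ℤ) + d₂ - ((q : ℤ) - q₀) = q₀ + d₂ := by ring
          rwa [h5] at h4

end Pool.Agent.H63.SG
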