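import Pool.Agent.H63.SG.Df2
import Pool.Agent.H63.SG.CoreB

/-!
# Many pairs of primes `1` mod `3` at distance at most `D`

Blocks of length `D` in `(y, x]`, the prime number theorem in the class `1` mod `3` and Cauchy's inequality.
-/

set_option autoImplicit false

open Finset

namespace Pool.Agent.H63.SG

/-- the number of primes `1` mod `3` in `(y, y']` -/
theorem PL_count : ∃ X0 : ℕ, ∀ x y y' : ℕ, X0 ≤ x → 2 ≤ y → y ≤ y' → y' ≤ x → 3 * x ≤ 40 * (y' - y) →
    (x : ℝ) / (40 * Real.log x) ≤ ((P1 y y').card : ℝ) := by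
  obtain ⟨N0, hN0⟩ := BVL.bv_pi (ε := 1 / 4) (by norm_num) 6 3
  have h1 : ∀ᶠ x : ℕ in Filter.atTop, 3 ≤ Real.log x :=
    (Real.tendsto_log_atTop.comp tendsto_natCast_atTop_atTop).eventually_ge_atTop 3
  have h2 : ∀ᶠ x : ℕ in Filter.atTop, (3 : ℝ) ≤ (x : ℝ) ^ (1 / 2 - 1 / 4 : ℝ) :=
    ((tendsto_rpow_atTop (by norm_num : (0 : ℝ) < 1 / 2 - 1 / 4)).comp
      tendsto_natCast_atTop_atTop).eventually_ge_atTop 3
  obtain ⟨X1, hX1⟩ := Filter.eventually_atTop.1 (h1.and h2)
  refine ⟨max (max N0 X1) 100, fun x y y' hx hy hyy hyx hd => ?_⟩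
  have hx1 : N0 ≤ x := (le_max_left _ _).trans ((le_max_left _ _).trans hx)
  have hx2 : X1 ≤ x := (le_max_right _ _).trans ((le_max_left _ _).trans hx)
  have hx3 : 100 ≤ x := (le_max_right _ _).trans hx
  obtain ⟨hl3, hp3⟩ := hX1 x hx2
  obtain ⟨E, hE0, hE1, hE2⟩ := hN0 x hx1
  have hx0 : (0 : ℝ) < x := by exact_mod_cast (by omega : 0 < x)
  have hl0 : 0 < Real.log x := by linarith
  have hE3 : E 3 ≤ (x : ℝ) / Real.log x ^ (6 : ℝ) := by
    refine le_trans ?_ hE2
    have h3 : (3 : ℕ) ∈ Icc 1 ⌊(x : ℝ) ^ (1 / 2 - 1 / 4 : ℝ)⌋₊ :=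
      Finset.mem_Icc.2 ⟨by norm_num, Nat.le_floor (by exact_mod_cast hp3)⟩
    have h4 := Finset.single_le_sum (f := fun q : ℕ => |(3 : ℝ)| ^ q.primeFactors.card * E q)
      (fun q _ => mul_nonneg (by positivity) (hE0 q)) h3
    refine le_trans ?_ h4
    have h5 : (1 : ℝ) ≤ |(3 : ℝ)| ^ (Nat.primeFactors 3).card := by
      apply one_le_pow₀
      rw [abs_of_pos (by norm_num)]
      norm_num
    exact le_mul_of_one_le_left (hE0 3) h5
  have hcb := Cnt_base (E := E) (N := x) (q := 3) (hE1 3 (by norm_num) (by exact_mod_cast hp3))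
    (fun _ => ∅) (x := y') (y := y) (a := 1) hy hyy hyx (Nat.coprime_one_left 3)
  have hTT : TT (fun _ => ∅) y y' 3 1 ∅ = P1 y y' := by
    ext t
    unfold TT P1
    rw [Finset.mem_filter, Finset.mem_filter]
    constructor
    · rintro ⟨a, b, c, -⟩
      exact ⟨a, b, c⟩
    · rintro ⟨a, b, c⟩
      exact ⟨a, b, c, fun l hl => absurd hl (Finset.notMem_empty l)⟩
  have hφ : Nat.totient 3 = 2 := by
    rw [Nat.totient_prime Nat.prime_three]
  rw [hTT, hφ] at hcb
  have hli := Core_li (x := (y' : ℝ)) (y := (y : ℝ)) (by exact_mod_cast hy) (by exact_mod_cast hyy)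
  have hd' : 3 * (x : ℝ) ≤ 40 * ((y' : ℝ) - y) := by
    have h3 : ((3 * x : ℕ) : ℝ) ≤ ((40 * (y' - y) : ℕ) : ℝ) := by exact_mod_cast hd
    rw [Nat.cast_mul, Nat.cast_mul, Nat.cast_sub hyy] at h3
    exact_mod_cast h3
  have hly : Real.log y' ≤ Real.log x :=
    Real.log_le_log (by exact_mod_cast (by omega : 0 < y')) (by exact_mod_cast hyx)
  have hly0 : 0 < Real.log y' := Real.log_pos (by exact_mod_cast (by omega : 1 < y'))
  have h5 : 3 * (x : ℝ) / (40 * Real.log x) ≤ ((y' : ℝ) - y) / Real.log y' := by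
    rw [div_le_div_iff₀ (by positivity) hly0]
    nlinarith
  have h6 : (x : ℝ) / Real.log x ^ (6 : ℝ) ≤ (x : ℝ) / (160 * Real.log x) := by
    apply div_le_div_of_nonneg_left hx0.le (by positivity)
    rw [show (6 : ℝ) = ((6 : ℕ) : ℝ) by norm_num, Real.rpow_natCast]
    have h7 : (3 : ℝ) ^ 5 ≤ Real.log x ^ 5 := pow_le_pow_left₀ (by norm_num) hl3 5
    have h8 : Real.log x ^ 6 = Real.log x ^ 5 * Real.log x := pow_succ _ _
    rw [h8]
    nlinarith
  have h9 := (abs_le.1 hcb).1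
  push_cast at h9
  have h10 : (x : ℝ) / (160 * Real.log x) = (x : ℝ) / (40 * Real.log x) / 4 := by
    field_simp
    ring
  have h11 : 3 * (x : ℝ) / (40 * Real.log x) = 3 * ((x : ℝ) / (40 * Real.log x)) := by ring
  rw [h10] at h6
  rw [h11] at h5
  have h12 : 0 ≤ (x : ℝ) / (40 * Real.log x) := by positivity
  linarith

/-- Cauchy's inequality for the number of close pairs -/
theorem PL_pairs (P : Finset ℕ) (y D J : ℕ) (hD : 0 < D) (hJ : 0 < J)
    (hP : ∀ p ∈ P, y < p ∧ p ≤ y + J * D) :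
    ((P.card : ℝ) ^ 2 / J - P.card) / 2 ≤
      (((P ×ˢ P).filter (fun a => a.1 < a.2 ∧ a.2 < a.1 + D)).card : ℝ) := by
  classical
  set b : ℕ → ℕ := fun p => (p - y - 1) / D with hb
  set T := (P ×ˢ P).filter (fun a => a.1 < a.2 ∧ a.2 < a.1 + D) with hT
  set S := (P ×ˢ P).filter (fun a => b a.1 = b a.2) with hS
  have hbJ : ∀ p ∈ P, b p ∈ range J := by
    intro p hp
    obtain ⟨h1, h2⟩ := hP p hp
    rw [Finset.mem_range]
    change (p - y - 1) / D < J
    rw [Nat.div_lt_iff_lt_mul hD]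
    have : 0 < J * D := Nat.mul_pos hJ hD
    omega
  have h1 : P.card = ∑ k ∈ range J, (P.filter (fun p => b p = k)).card :=
    Finset.card_eq_sum_card_fiberwise hbJ
  have h2 : S.card = ∑ k ∈ range J, (P.filter (fun p => b p = k)).card ^ 2 := by
    rw [Finset.card_eq_sum_card_fiberwise (f := fun a : ℕ × ℕ => b a.1) (t := range J)]
    · apply Finset.sum_congr rfl
      intro k _
      rw [pow_two, ← Finset.card_product]
      congr 1
      ext ⟨p, p'⟩
      simp only [hS, Finset.mem_filter, Finset.mem_product]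
      constructor
      · rintro ⟨⟨⟨a, c⟩, d⟩, e⟩
        exact ⟨⟨a, e⟩, c, d.symm.trans e⟩
      · rintro ⟨⟨a, e⟩, c, d⟩
        exact ⟨⟨⟨a, c⟩, e.trans d.symm⟩, e⟩
    · intro a ha
      exact hbJ _ (Finset.mem_product.1 (Finset.mem_filter.1 (Finset.mem_coe.1 ha)).1).1
  have h3 : (P.card : ℝ) ^ 2 ≤ J * (S.card : ℝ) := by
    have h4 := sq_sum_le_card_mul_sum_sq (s := range J)
      (f := fun k => ((P.filter (fun p => b p = k)).card : ℝ))
    rw [Finset.card_range] at h4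
    rw [h1, h2]
    push_cast
    exact h4
  have h5 : S ⊆ (T ∪ T.image Prod.swap) ∪ P.image (fun p => (p, p)) := by
    rintro ⟨p, p'⟩ ha
    rw [hS, Finset.mem_filter, Finset.mem_product] at ha
    obtain ⟨⟨hp, hp'⟩, hbb⟩ := ha
    have key : ∀ p ∈ P, ∀ p' ∈ P, b p = b p' → p < p' → p' < p + D := by
      intro p hp p' hp' hbb hlt
      obtain ⟨a1, a2⟩ := hP p hp
      obtain ⟨a3, a4⟩ := hP p' hp'
      change (p - y - 1) / D = (p' - y - 1) / D at hbb
      have a5 := Nat.div_mul_le_self (p - y - 1) D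
      have a6 := Nat.lt_div_mul_add (a := p' - y - 1) hD
      rw [← hbb] at a6
      omega
    rcases lt_trichotomy p p' with h | h | h
    · apply Finset.mem_union_left
      apply Finset.mem_union_left
      rw [hT, Finset.mem_filter, Finset.mem_product]
      exact ⟨⟨hp, hp'⟩, h, key p hp p' hp' hbb h⟩
    · subst h
      exact Finset.mem_union_right _ (Finset.mem_image.2 ⟨p, hp, rfl⟩)
    · apply Finset.mem_union_left
      apply Finset.mem_union_right
      refine Finset.mem_image.2 ⟨(p', p), ?_, rfl⟩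
      rw [hT, Finset.mem_filter, Finset.mem_product]
      exact ⟨⟨hp', hp⟩, h, key p' hp' p hp hbb.symm h⟩
  have h6 : S.card ≤ 2 * T.card + P.card := by
    refine (Finset.card_le_card h5).trans ((Finset.card_union_le _ _).trans ?_)
    have h7 := Finset.card_union_le T (T.image Prod.swap)
    have h8 := Finset.card_image_le (s := T) (f := Prod.swap)
    have h9 := Finset.card_image_le (s := P) (f := fun p => (p, p))
    omega
  have h7 : (S.card : ℝ) ≤ 2 * (T.card : ℝ) + (P.card : ℝ) := by exact_mod_cast h6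
  have hJ0 : (0 : ℝ) < J := by exact_mod_cast hJ
  have h8 : (P.card : ℝ) ^ 2 / J ≤ (S.card : ℝ) := by
    rw [div_le_iff₀ hJ0]
    linarith
  linarith

/-- the pairs and the counts `Me` -/
theorem PL_me (x y y' D : ℕ) (hyx : y' ≤ x) :
    ((P1 y y' ×ˢ P1 y y').filter (fun a => a.1 < a.2 ∧ a.2 < a.1 + D)).card ≤
      ∑ e ∈ (Icc 1 D).filter (fun e => 6 ∣ e), Me y x e := by
  classical
  have hmono : ∀ p ∈ P1 y y', p ∈ P1 y x := by
    intro p hp
    unfold P1 at hp ⊢
    rw [Finset.mem_filter, Finset.mem_Ioc] at hp ⊢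
    exact ⟨⟨hp.1.1, hp.1.2.trans hyx⟩, hp.2⟩
  rw [Finset.card_eq_sum_card_fiberwise (f := fun a : ℕ × ℕ => a.2 - a.1)
    (t := (Icc 1 D).filter (fun e => 6 ∣ e))]
  · apply Finset.sum_le_sum
    intro e he
    unfold Me
    apply Finset.card_le_card_of_injOn (fun a : ℕ × ℕ => a.1)
    · rintro ⟨p, p'⟩ ha
      have ha' := Finset.mem_filter.1 (Finset.mem_coe.1 ha)
      have ha1 := Finset.mem_filter.1 ha'.1
      have ha2 := Finset.mem_product.1 ha1.1
      have h3 : p < p' := ha1.2.1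
      have h4 : p' - p = e := ha'.2
      have h5 : p + e = p' := by omega
      refine Finset.mem_coe.2 (Finset.mem_filter.2 ⟨hmono _ ha2.1, ?_⟩)
      change p + e ∈ P1 y x
      rw [h5]
      exact hmono _ ha2.2
    · rintro ⟨p, p'⟩ ha ⟨q, q'⟩ ha' h
      have h1 := Finset.mem_filter.1 (Finset.mem_coe.1 ha)
      have h2 := Finset.mem_filter.1 (Finset.mem_coe.1 ha')
      have h3 : p < p' := (Finset.mem_filter.1 h1.1).2.1
      have h4 : q < q' := (Finset.mem_filter.1 h2.1).2.1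
      have h5 : p' - p = e := h1.2
      have h6 : q' - q = e := h2.2
      have h7 : p = q := h
      subst h7
      rw [Prod.mk.injEq]
      exact ⟨rfl, by omega⟩
  · rintro ⟨p, p'⟩ ha
    have h1 := Finset.mem_filter.1 (Finset.mem_coe.1 ha)
    have h2 := Finset.mem_product.1 h1.1
    have h3 : p < p' ∧ p' < p + D := h1.2
    have hp : p ∈ P1 y y' := h2.1
    have hp' : p' ∈ P1 y y' := h2.2
    unfold P1 at hp hp'
    rw [Finset.mem_filter, Finset.mem_Ioc] at hp hp'
    have o1 : p % 2 = 1 := by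
      rcases hp.2.1.eq_two_or_odd with h | h
      · omega
      · exact h
    have o2 : p' % 2 = 1 := by
      rcases hp'.2.1.eq_two_or_odd with h | h
      · omega
      · exact h
    have m1 := hp.2.2
    have m2 := hp'.2.2
    refine Finset.mem_coe.2 (Finset.mem_filter.2 ⟨Finset.mem_Icc.2 ⟨?_, ?_⟩, ?_⟩)
    · change 1 ≤ p' - p
      omega
    · change p' - p ≤ D
      omega
    · change 6 ∣ p' - p
      omega

theorem PL : ∃ C β : ℝ, 0 < C ∧ 0 < β ∧ ∃ X0 : ℕ, ∀ x y : ℕ, X0 ≤ x → y ≤ x → x ≤ 8 * (x - y) → x ≤ 8 * y →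
    ∀ D : ℕ, C * Real.log x ≤ D → 20 * D ≤ x →
      β * (D * ((x : ℝ) / Real.log x ^ 2)) ≤ ∑ e ∈ (Icc 1 D).filter (fun e => 6 ∣ e), (Me y x e : ℝ) := by
  obtain ⟨X1, hX1⟩ := PL_count
  refine ⟨80, 1 / 6400, by norm_num, by norm_num, max X1 100, fun x y hx hyx hxy hy8 D hCD hDx => ?_⟩
  have hx1 : X1 ≤ x := (le_max_left _ _).trans hx
  have hx3 : 100 ≤ x := (le_max_right _ _).trans hx
  have hx0 : (0 : ℝ) < x := by exact_mod_cast (by omega : 0 < x)
  have hl0 : 0 < Real.log x := Real.log_pos (by exact_mod_cast (by omega : 1 < x))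
  have hD0' : (0 : ℝ) < D := lt_of_lt_of_le (by positivity) hCD
  have hD0 : 0 < D := by exact_mod_cast hD0'
  set J : ℕ := (x - y) / D with hJ
  have hJD : J * D ≤ x - y := Nat.div_mul_le_self _ _
  have hJD2 : x - y < J * D + D := Nat.lt_div_mul_add hD0
  have hJ0 : 0 < J := by
    rw [hJ]
    apply Nat.div_pos _ hD0
    omega
  have hJ0' : (0 : ℝ) < J := by exact_mod_cast hJ0
  have hyle : y + J * D ≤ x := by omega
  have hy2 : 2 ≤ y := by omega
  have hcnt := hX1 x y (y + J * D) hx1 hy2 (Nat.le_add_right _ _) hyle (by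
    rw [Nat.add_sub_cancel_left]
    omega)
  have hpairs := PL_pairs (P1 y (y + J * D)) y D J hD0 hJ0 (fun p hp => by
    unfold P1 at hp
    exact Finset.mem_Ioc.1 (Finset.mem_filter.1 hp).1)
  have hme := PL_me x y (y + J * D) D hyle
  have hme' : (((P1 y (y + J * D) ×ˢ P1 y (y + J * D)).filter
      (fun a => a.1 < a.2 ∧ a.2 < a.1 + D)).card : ℝ) ≤
      ∑ e ∈ (Icc 1 D).filter (fun e => 6 ∣ e), (Me y x e : ℝ) := by
    exact_mod_cast hme
  refine le_trans ?_ (hpairs.trans hme')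
  set Q : ℝ := ((P1 y (y + J * D)).card : ℝ) with hQ
  have hJx : (J : ℝ) * D ≤ x := by
    have : J * D ≤ x := by omega
    exact_mod_cast this
  -- `Q / J ≥ 2`
  have a0 : 0 < (x : ℝ) / (40 * Real.log x) := by positivity
  have hQ0 : 0 < Q := lt_of_lt_of_le a0 hcnt
  have a1 : (x : ℝ) / (40 * Real.log x) * D ≤ Q * D := mul_le_mul_of_nonneg_right hcnt hD0'.le
  have a2 : 2 * (x : ℝ) ≤ (x : ℝ) / (40 * Real.log x) * D := by
    rw [div_mul_eq_mul_div, le_div_iff₀ (by positivity)]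
    nlinarith
  have a3 : 2 * (J : ℝ) ≤ Q := by
    have h1 : 2 * (J : ℝ) * D ≤ Q * D := by linarith
    exact le_of_mul_le_mul_right h1 hD0'
  have a4 : Q ^ 2 / (4 * J) ≤ (Q ^ 2 / J - Q) / 2 := by
    have h1 : (Q ^ 2 / J - Q) / 2 - Q ^ 2 / (4 * J) = Q * (Q - 2 * J) / (4 * J) := by
      field_simp
      ring
    have h2 : 0 ≤ Q * (Q - 2 * J) / (4 * J) := by
      apply div_nonneg _ (by positivity)
      exact mul_nonneg hQ0.le (by linarith)
    linarith
  refine le_trans ?_ a4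
  have a5 : (x : ℝ) ^ 2 / (1600 * Real.log x ^ 2) ≤ Q ^ 2 := by
    have h1 : ((x : ℝ) / (40 * Real.log x)) ^ 2 ≤ Q ^ 2 := pow_le_pow_left₀ a0.le hcnt 2
    refine le_trans (le_of_eq ?_) h1
    field_simp
    norm_num
  rw [le_div_iff₀ (by positivity)]
  refine le_trans ?_ a5
  rw [le_div_iff₀ (by positivity)]
  have h1 : 1 / 6400 * (D * ((x : ℝ) / Real.log x ^ 2)) * (4 * J) * (1600 * Real.log x ^ 2) =
      (J * D) * x := by
    field_simp
    norm_num
  rw [h1]
  nlinarith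

end Pool.Agent.H63.SG
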