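import Pool.Agent.H63.SG.Rn
import Pool.Agent.H63.SG.AB
import Pool.Agent.H63.SG.Cs

/-!
# Two primes for a positive proportion
-/

set_option autoImplicit false

open Finset

namespace Pool.Agent.H63.SG

theorem PP_pow {n x : ℕ} {δ₁ : ℝ} (hδ : 0 < δ₁) (hn : 400 ≤ n) (h : n ≤ 20 * x) : (n : ℝ) ^ (δ₁ / 2) ≤ (x : ℝ) ^ δ₁ := by
  have hn' : (400 : ℝ) ≤ n := by exact_mod_cast hn
  have h' : (n : ℝ) ≤ 20 * x := by exact_mod_cast h
  have h1 : Real.sqrt n ≤ x := by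
    have h2 : Real.sqrt n * Real.sqrt n = n := Real.mul_self_sqrt (by linarith)
    have h3 : 20 ≤ Real.sqrt n := by
      rw [show (20 : ℝ) = Real.sqrt 400 by
        rw [show (400 : ℝ) = 20 ^ 2 by norm_num, Real.sqrt_sq (by norm_num)]]
      exact Real.sqrt_le_sqrt hn'
    nlinarith
  calc (n : ℝ) ^ (δ₁ / 2) = (Real.sqrt n) ^ δ₁ := by
        rw [Real.sqrt_eq_rpow, ← Real.rpow_mul (by linarith)]
        congr 1
        ring
    _ ≤ (x : ℝ) ^ δ₁ := Real.rpow_le_rpow (Real.sqrt_nonneg _) h1 hδ.le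

theorem PP_cnt {n x : ℕ} {κ₁ : ℝ} (hκ : 0 < κ₁) (hn : 400 ≤ n) (h : n ≤ 20 * x) (hx : x ≤ n) :
    κ₁ / 20 * ((n : ℝ) / Real.log n ^ 2) ≤ κ₁ * ((x : ℝ) / Real.log x ^ 2) := by
  have hn' : (400 : ℝ) ≤ n := by exact_mod_cast hn
  have h' : (n : ℝ) ≤ 20 * x := by exact_mod_cast h
  have hx' : (x : ℝ) ≤ n := by exact_mod_cast hx
  have hx5 : (5 : ℝ) ≤ x := by linarith
  have h1 : 0 < Real.log x := Real.log_pos (by linarith)
  have h2 : Real.log x ≤ Real.log n := Real.log_le_log (by linarith) hx'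
  have h3 : Real.log x ^ 2 ≤ Real.log n ^ 2 := pow_le_pow_left₀ h1.le h2 2
  have h4 : (n : ℝ) / Real.log n ^ 2 ≤ 20 * x / Real.log x ^ 2 := by
    apply div_le_div₀ (by linarith) h' (by positivity) h3
  have e : κ₁ * ((x : ℝ) / Real.log x ^ 2) = κ₁ / 20 * (20 * x / Real.log x ^ 2) := by ring
  rw [e]
  exact mul_le_mul_of_nonneg_left h4 (by positivity)

theorem PP_cc {p q c n : ℕ} (hp : p.Prime) (hq : q.Prime) (hq2 : 2 < q) (hpq : q < p) (hc : c = 1 ∨ c = 2) (h : n = p + c * q) :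
    cc n = c := by
  have h1 : p % 2 = 1 := by
    rcases hp.eq_two_or_odd with h | h <;> omega
  have h2 : q % 2 = 1 := by
    rcases hq.eq_two_or_odd with h | h <;> omega
  unfold cc
  rcases hc with rfl | rfl
  · rw [if_pos (by omega)]
  · rw [if_neg (by omega)]

theorem PP : ∃ δ : ℝ, 0 < δ ∧ ∀ d₁ d₂ : ℤ, (6 : ℤ) ∣ d₁ → (6 : ℤ) ∣ d₂ → ∀ K : ℕ, ∃ β : ℝ, 0 < β ∧ ∃ N : ℕ, ∀ x : ℕ, N ≤ x →
    ∀ c : ℕ, (c = 1 ∨ c = 2) → ∃ S : Finset ℕ, β * x ≤ (S.card : ℝ) ∧ ∀ n ∈ S, x / 2 < n ∧ n ≤ x ∧ cc n = c ∧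
      ∃ p q : ℕ, p.Prime ∧ q.Prime ∧ n = p + cc n * q ∧ q + K ≤ p ∧ K ≤ q ∧
        ∀ i, ∀ l : ℕ, l.Prime → (l : ℤ) ∣ Quad d₁ d₂ p q i → (n : ℝ) ^ δ < l := by
  classical
  obtain ⟨δA, hδA, hδA1, κ, hκ, XA, HA⟩ := AB_low
  obtain ⟨δU, hδU, hδU1, HU⟩ := Rn_bd
  obtain ⟨CV, hCV, HV⟩ := Av2_bd
  obtain ⟨δ, hδ, hδ1, hδ2⟩ : ∃ δ : ℝ, 0 < δ ∧ δ ≤ δA / 2 ∧ δ ≤ δU :=
    ⟨min (δA / 2) δU, lt_min (by positivity) hδU, min_le_left _ _, min_le_right _ _⟩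
  obtain ⟨C, hC, XU, HU1⟩ := HU δ hδ hδ2
  refine ⟨δ, hδ, fun d₁ d₂ h1 h2 K => ?_⟩
  obtain ⟨e₁, he₁, he₁6, he₁d⟩ : ∃ e₁ : ℤ, e₁ ≠ 0 ∧ (6 : ℤ) ∣ e₁ ∧ (e₁ = d₁ ∨ d₁ = 0) := by
    by_cases h : d₁ = 0
    · exact ⟨6, by norm_num, dvd_rfl, Or.inr h⟩
    · exact ⟨d₁, h, h1, Or.inl rfl⟩
  obtain ⟨e₂, he₂, he₂6, he₂d⟩ : ∃ e₂ : ℤ, e₂ ≠ 0 ∧ (6 : ℤ) ∣ e₂ ∧ (e₂ = d₂ ∨ d₂ = 0) := by
    by_cases h : d₂ = 0
    · exact ⟨6, by norm_num, dvd_rfl, Or.inr h⟩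
    · exact ⟨d₂, h, h2, Or.inl rfl⟩
  obtain ⟨G, hG⟩ : ∃ G : ℝ, G = HH e₁ * HH e₂ := ⟨_, rfl⟩
  have hG0 : 0 < G := by rw [hG]; exact mul_pos (HH_pos _) (HH_pos _)
  choose NV HNV using fun c : ℕ => HV (Sv e₁ e₂ c)
  refine ⟨(κ / 20) ^ 4 / (C ^ 2 * G ^ 2 * CV), by positivity,
    NV 1 + NV 2 + 10 * XA + XU + 20 * K + 8 * e₁.natAbs + 8 * e₂.natAbs + 2000, fun x hx c hc => ?_⟩
  obtain ⟨A, hA1, hA2⟩ := HA (3 * x / 4) (x / 2) (by omega) (by omega) (by omega) (by omega) e₁ he₁6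
  obtain ⟨B, hB1, hB2⟩ := HA (x / 8) (x / 16) (by omega) (by omega) (by omega) (by omega) (-e₂) (by
    exact (dvd_neg).2 he₂6)
  have hxNV : NV c ≤ x := by
    rcases hc with rfl | rfl <;> omega
  have hxr : (2000 : ℝ) ≤ x := by
    have : 2000 ≤ x := by omega
    exact_mod_cast this
  have hx0 : (0 : ℝ) < x := by linarith
  have hlog : 0 < Real.log x := Real.log_pos (by linarith)
  have hpA : ∀ l : ℕ, (l : ℝ) ≤ (x : ℝ) ^ δ → (l : ℝ) ≤ ((3 * x / 4 : ℕ) : ℝ) ^ δA := by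
    intro l hl
    refine hl.trans ?_
    refine le_trans ?_ (PP_pow (n := x) hδA (by omega) (by omega))
    exact Real.rpow_le_rpow_of_exponent_le (by linarith) hδ1
  have hpB : ∀ l : ℕ, (l : ℝ) ≤ (x : ℝ) ^ δ → (l : ℝ) ≤ ((x / 8 : ℕ) : ℝ) ^ δA := by
    intro l hl
    refine hl.trans ?_
    refine le_trans ?_ (PP_pow (n := x) hδA (by omega) (by omega))
    exact Real.rpow_le_rpow_of_exponent_le (by linarith) hδ1
  have hSv : ∀ n : ℕ, x / 2 < n → ∀ i, (n : ℤ) + Sv e₁ e₂ c i ≠ 0 := by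
    intro n hn i
    have hc2 : (c : ℤ) = 1 ∨ (c : ℤ) = 2 := by
      rcases hc with rfl | rfl <;> simp
    fin_cases i
    · show (n : ℤ) + 0 ≠ 0
      omega
    · show (n : ℤ) + -e₁ ≠ 0
      omega
    · show (n : ℤ) + c * e₂ ≠ 0
      rcases hc2 with h | h <;> rw [h] <;> omega
    · show (n : ℤ) + (c * e₂ - e₁) ≠ 0
      rcases hc2 with h | h <;> rw [h] <;> omega
  have hcb : ∀ b : ℕ, c * b ≤ 2 * b := fun b => Nat.mul_le_mul_right b (by omega)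
  have key := Cs_bd A B (Ioc (x / 2) x) (fun a b => a + c * b) (fun a ha b hb => by
      have k1 := hA2 a ha
      have k2 := hB2 b hb
      have k3 := hcb b
      rw [mem_Ioc]
      omega) (fun n => ∏ i, HH ((n : ℤ) + Sv e₁ e₂ c i)) (C * ((x : ℝ) / Real.log x ^ 4) * G) (CV * x) (by positivity)
    (fun n hn => by
      have k1 := mem_Ioc.1 hn
      have k2 := HU1 x (by omega) c n e₁ e₂ hc he₁ he₂ k1.2 (hSv n k1.1) A B
        (fun t ht l hl hlx => (hA2 t ht).2.2.2 l hl (hpA l hlx))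
        (fun t ht => ⟨by have := hB2 t ht; omega, fun l hl hlx => (hB2 t ht).2.2.2 l hl (hpB l hlx)⟩)
      rw [← hG] at k2
      exact k2)
    (HNV c x hxNV)
  obtain ⟨S, hS1, hS2⟩ : ∃ S : Finset ℕ, ((A.card : ℝ) * B.card) ^ 2 ≤ (S.card : ℝ) * ((C * ((x : ℝ) / Real.log x ^ 4) * G) ^ 2 * (CV * x)) ∧
      ∀ n, n ∈ S ↔ n ∈ Ioc (x / 2) x ∧ ∃ a ∈ A, ∃ b ∈ B, a + c * b = n :=
    ⟨_, key, fun n => mem_filter⟩
  refine ⟨S, ?_, fun n hn => ?_⟩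
  · have a1 : κ / 20 * ((x : ℝ) / Real.log x ^ 2) ≤ (A.card : ℝ) :=
      (PP_cnt (n := x) hκ (by omega) (by omega) (by omega)).trans hA1
    have b1 : κ / 20 * ((x : ℝ) / Real.log x ^ 2) ≤ (B.card : ℝ) :=
      (PP_cnt (n := x) hκ (by omega) (by omega) (by omega)).trans hB1
    have ab : (κ / 20 * ((x : ℝ) / Real.log x ^ 2)) * (κ / 20 * ((x : ℝ) / Real.log x ^ 2)) ≤ (A.card : ℝ) * B.card :=
      mul_le_mul a1 b1 (by positivity) (by positivity)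
    have ab2 : ((κ / 20 * ((x : ℝ) / Real.log x ^ 2)) * (κ / 20 * ((x : ℝ) / Real.log x ^ 2))) ^ 2 ≤
        (S.card : ℝ) * ((C * ((x : ℝ) / Real.log x ^ 4) * G) ^ 2 * (CV * x)) :=
      (pow_le_pow_left₀ (by positivity) ab 2).trans hS1
    have hW : 0 < (C * ((x : ℝ) / Real.log x ^ 4) * G) ^ 2 * (CV * x) := by positivity
    rw [← div_le_iff₀ hW] at ab2
    refine le_trans (le_of_eq ?_) ab2
    field_simp
  · obtain ⟨k1, a, ha, b, hb, hab⟩ := (hS2 n).1 hn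
    have k2 := mem_Ioc.1 k1
    have ka := hA2 a ha
    have kb := hB2 b hb
    have hccn : cc n = c := PP_cc ka.2.2.1 kb.2.2.1 (by omega) (by omega) hc hab.symm
    refine ⟨k2.1, k2.2, hccn, a, b, ka.2.2.1, kb.2.2.1, by rw [hccn]; exact hab.symm, by omega, by omega, ?_⟩
    intro i l hl hli
    by_contra hcon
    rw [not_lt] at hcon
    have hlx : (l : ℝ) ≤ (x : ℝ) ^ δ := by
      refine hcon.trans ?_
      exact Real.rpow_le_rpow (by positivity) (by exact_mod_cast k2.2) hδ.le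
    obtain ⟨a1, a2⟩ := ka.2.2.2 l hl (hpA l hlx)
    obtain ⟨b1, b2⟩ := kb.2.2.2 l hl (hpB l hlx)
    fin_cases i
    · exact a1 hli
    · have h3 : (l : ℤ) ∣ (a : ℤ) - d₁ := hli
      rcases he₁d with h | h
      · rw [h] at a2
        exact a2 h3
      · rw [h, sub_zero] at h3
        exact a1 h3
    · exact b1 hli
    · have h3 : (l : ℤ) ∣ (b : ℤ) + d₂ := hli
      rcases he₂d with h | h
      · rw [h, sub_neg_eq_add] at b2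
        exact b2 h3
      · rw [h, add_zero] at h3
        exact b1 h3

end Pool.Agent.H63.SG
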