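import Pool.Agent.H63.SG.RnU
import Pool.Agent.H63.SG.ABU
import Pool.Agent.H63.SG.Av3
import Pool.Agent.H63.SG.PP

/-!
# Two primes for a positive proportion, uniformly in the shifts
-/

set_option autoImplicit false

open Finset

namespace Pool.Agent.H63.SG

/-- the primes in `(12, z]` which divide `e` -/
noncomputable def ZZ (e : ℤ) (z : ℝ) : Finset ℕ := by
  classical exact (e.natAbs.primeFactors).filter (fun l => 12 < l ∧ (l : ℝ) ≤ z)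

theorem ZZ_mem {e : ℤ} (he : e ≠ 0) (z : ℝ) (l : ℕ) : l ∈ ZZ e z ↔ l.Prime ∧ 12 < l ∧ (l : ℝ) ≤ z ∧ (l : ℤ) ∣ e := by
  unfold ZZ
  rw [mem_filter, Nat.mem_primeFactors, Int.natCast_dvd]
  constructor
  · rintro ⟨⟨h1, h2, -⟩, h3, h4⟩
    exact ⟨h1, h3, h4, h2⟩
  · rintro ⟨h1, h3, h4, h2⟩
    exact ⟨⟨h1, h2, Int.natAbs_ne_zero.2 he⟩, h3, h4⟩

theorem PPU : ∃ δ β : ℝ, 0 < δ ∧ 0 < β ∧ ∃ N : ℕ, ∀ d₁ d₂ : ℤ, (6 : ℤ) ∣ d₁ → (6 : ℤ) ∣ d₂ → ∀ K x : ℕ,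
    N + 20 * K + 8 * d₁.natAbs + 8 * d₂.natAbs ≤ x →
    ∀ c : ℕ, (c = 1 ∨ c = 2) → ∃ S : Finset ℕ, β * x ≤ (S.card : ℝ) ∧ ∀ n ∈ S, x / 2 < n ∧ n ≤ x ∧ cc n = c ∧
      ∃ p q : ℕ, p.Prime ∧ q.Prime ∧ n = p + cc n * q ∧ q + K ≤ p ∧ K ≤ q ∧
        ∀ i, ∀ l : ℕ, l.Prime → (l : ℤ) ∣ Quad d₁ d₂ p q i → (n : ℝ) ^ δ < l := by
  classical
  obtain ⟨δA, hδA, hδA1, κ, hκ, XA, HA⟩ := ABU_low
  obtain ⟨δU, hδU, hδU1, HU⟩ := RnU_bd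
  obtain ⟨CV, hCV, HV⟩ := Av3_bd
  obtain ⟨δ, hδ, hδ1, hδ2⟩ : ∃ δ : ℝ, 0 < δ ∧ δ ≤ δA / 2 ∧ δ ≤ δU :=
    ⟨min (δA / 2) δU, lt_min (by positivity) hδU, min_le_left _ _, min_le_right _ _⟩
  obtain ⟨C, hC, XU, HU1⟩ := HU δ hδ hδ2
  refine ⟨δ, (κ / 20) ^ 4 / (C ^ 2 * CV), hδ, by positivity, 10 * XA + XU + 2000, fun d₁ d₂ h1 h2 K x hx c hc => ?_⟩
  obtain ⟨e₁, he₁, he₁6, he₁d, he₁b⟩ : ∃ e₁ : ℤ, e₁ ≠ 0 ∧ (6 : ℤ) ∣ e₁ ∧ (e₁ = d₁ ∨ d₁ = 0) ∧ e₁.natAbs ≤ d₁.natAbs + 6 := by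
    by_cases h : d₁ = 0
    · exact ⟨6, by norm_num, dvd_rfl, Or.inr h, by omega⟩
    · exact ⟨d₁, h, h1, Or.inl rfl, by omega⟩
  obtain ⟨e₂, he₂, he₂6, he₂d, he₂b⟩ : ∃ e₂ : ℤ, e₂ ≠ 0 ∧ (6 : ℤ) ∣ e₂ ∧ (e₂ = d₂ ∨ d₂ = 0) ∧ e₂.natAbs ≤ d₂.natAbs + 6 := by
    by_cases h : d₂ = 0
    · exact ⟨6, by norm_num, dvd_rfl, Or.inr h, by omega⟩
    · exact ⟨d₂, h, h2, Or.inl rfl, by omega⟩
  have hxr : (2000 : ℝ) ≤ x := by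
    have : 2000 ≤ x := by omega
    exact_mod_cast this
  have hx0 : (0 : ℝ) < x := by linarith
  have hlog : 0 < Real.log x := Real.log_pos (by linarith)
  have hpA : ∀ l : ℕ, (l : ℝ) ≤ (x : ℝ) ^ δ → (l : ℝ) ≤ ((3 * x / 4 : ℕ) : ℝ) ^ δA := by
    intro l hl
    refine hl.trans ?_
    refine le_trans ?_ (PP_pow (n := x) hδA (by omega) (by omega))
    exact Real.rpow_le_rpow_of_exponent_le (by linarith) hδ1
  have hpB : ∀ l : ℕ, (l : ℝ) ≤ (x : ℝ) ^ δ → (l : ℝ) ≤ ((x / 8 : ℕ) : ℝ) ^ δA := by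
    intro l hl
    refine hl.trans ?_
    refine le_trans ?_ (PP_pow (n := x) hδA (by omega) (by omega))
    exact Real.rpow_le_rpow_of_exponent_le (by linarith) hδ1
  obtain ⟨P₁, hP₁⟩ : ∃ P₁ : ℝ, P₁ = ∏ l ∈ ZZ e₁ ((x : ℝ) ^ δ), (1 + 1 / (l : ℝ)) := ⟨_, rfl⟩
  obtain ⟨P₂, hP₂⟩ : ∃ P₂ : ℝ, P₂ = ∏ l ∈ ZZ e₂ ((x : ℝ) ^ δ), (1 + 1 / (l : ℝ)) := ⟨_, rfl⟩
  have hP₁0 : 0 < P₁ := by rw [hP₁]; exact prod_pos (fun l _ => by positivity)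
  have hP₂0 : 0 < P₂ := by rw [hP₂]; exact prod_pos (fun l _ => by positivity)
  obtain ⟨A, hA1, hA2⟩ := HA (3 * x / 4) (x / 2) (by omega) (by omega) (by omega) (by omega) e₁ he₁6 (ZZ e₁ ((x : ℝ) ^ δ)) (by
    intro l hl
    obtain ⟨k1, k2, k3, k4⟩ := (ZZ_mem he₁ _ _).1 hl
    exact ⟨k1, k2, hpA l k3, k4⟩)
  obtain ⟨B, hB1, hB2⟩ := HA (x / 8) (x / 16) (by omega) (by omega) (by omega) (by omega) (-e₂) (by
    exact (dvd_neg).2 he₂6) (ZZ e₂ ((x : ℝ) ^ δ)) (by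
    intro l hl
    obtain ⟨k1, k2, k3, k4⟩ := (ZZ_mem he₂ _ _).1 hl
    exact ⟨k1, k2, hpB l k3, (dvd_neg).2 k4⟩)
  rw [← hP₁] at hA1
  rw [← hP₂] at hB1
  have hc2 : (c : ℤ) = 1 ∨ (c : ℤ) = 2 := by
    rcases hc with rfl | rfl <;> simp
  have hSv : ∀ n : ℕ, x / 2 < n → ∀ i, (n : ℤ) + Sv e₁ e₂ c i ≠ 0 := by
    intro n hn i
    fin_cases i
    · show (n : ℤ) + 0 ≠ 0
      omega
    · show (n : ℤ) + -e₁ ≠ 0
      omega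
    · show (n : ℤ) + c * e₂ ≠ 0
      rcases hc2 with h | h <;> rw [h] <;> omega
    · show (n : ℤ) + (c * e₂ - e₁) ≠ 0
      rcases hc2 with h | h <;> rw [h] <;> omega
  have hSa : ∀ i, 4 * (Sv e₁ e₂ c i).natAbs ≤ x := by
    intro i
    fin_cases i
    · show 4 * (0 : ℤ).natAbs ≤ x
      simp
    · show 4 * (-e₁ : ℤ).natAbs ≤ x
      omega
    · show 4 * (c * e₂ : ℤ).natAbs ≤ x
      rcases hc2 with h | h <;> rw [h] <;> omega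
    · show 4 * (c * e₂ - e₁ : ℤ).natAbs ≤ x
      rcases hc2 with h | h <;> rw [h] <;> omega
  have hcb : ∀ b : ℕ, c * b ≤ 2 * b := fun b => Nat.mul_le_mul_right b (by omega)
  have key := Cs_bd A B (Ioc (x / 2) x) (fun a b => a + c * b) (fun a ha b hb => by
      have k1 := hA2 a ha
      have k2 := hB2 b hb
      have k3 := hcb b
      rw [mem_Ioc]
      omega) (fun n => ∏ i, HH ((n : ℤ) + Sv e₁ e₂ c i)) (C * ((x : ℝ) / Real.log x ^ 4) * (P₁ * P₂)) (CV * x) (by positivity)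
    (fun n hn => by
      have k1 := mem_Ioc.1 hn
      have k2 := HU1 x (by omega) c n e₁ e₂ hc he₁ he₂ k1.2 (hSv n k1.1) (ZZ e₁ ((x : ℝ) ^ δ)) (ZZ e₂ ((x : ℝ) ^ δ))
        (fun l => ZZ_mem he₁ _ _) (fun l => ZZ_mem he₂ _ _) A B
        (fun t ht l hl hlx => (hA2 t ht).2.2.2 l hl (hpA l hlx))
        (fun t ht => ⟨by have := hB2 t ht; omega, fun l hl hlx => (hB2 t ht).2.2.2 l hl (hpB l hlx)⟩)
      rw [← hP₁, ← hP₂] at k2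
      exact k2)
    (HV (Sv e₁ e₂ c) x (by omega) hSa)
  obtain ⟨S, hS1, hS2⟩ : ∃ S : Finset ℕ, ((A.card : ℝ) * B.card) ^ 2 ≤ (S.card : ℝ) * ((C * ((x : ℝ) / Real.log x ^ 4) * (P₁ * P₂)) ^ 2 * (CV * x)) ∧
      ∀ n, n ∈ S ↔ n ∈ Ioc (x / 2) x ∧ ∃ a ∈ A, ∃ b ∈ B, a + c * b = n :=
    ⟨_, key, fun n => mem_filter⟩
  refine ⟨S, ?_, fun n hn => ?_⟩
  · have a1 : κ / 20 * ((x : ℝ) / Real.log x ^ 2) * P₁ ≤ (A.card : ℝ) :=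
      (mul_le_mul_of_nonneg_right (PP_cnt (n := x) hκ (by omega) (by omega) (by omega)) hP₁0.le).trans hA1
    have b1 : κ / 20 * ((x : ℝ) / Real.log x ^ 2) * P₂ ≤ (B.card : ℝ) :=
      (mul_le_mul_of_nonneg_right (PP_cnt (n := x) hκ (by omega) (by omega) (by omega)) hP₂0.le).trans hB1
    have ab : (κ / 20 * ((x : ℝ) / Real.log x ^ 2) * P₁) * (κ / 20 * ((x : ℝ) / Real.log x ^ 2) * P₂) ≤ (A.card : ℝ) * B.card :=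
      mul_le_mul a1 b1 (by positivity) (by positivity)
    have ab2 : ((κ / 20 * ((x : ℝ) / Real.log x ^ 2) * P₁) * (κ / 20 * ((x : ℝ) / Real.log x ^ 2) * P₂)) ^ 2 ≤
        (S.card : ℝ) * ((C * ((x : ℝ) / Real.log x ^ 4) * (P₁ * P₂)) ^ 2 * (CV * x)) :=
      (pow_le_pow_left₀ (by positivity) ab 2).trans hS1
    have hW : 0 < (C * ((x : ℝ) / Real.log x ^ 4) * (P₁ * P₂)) ^ 2 * (CV * x) := by positivity
    rw [← div_le_iff₀ hW] at ab2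
    refine le_trans (le_of_eq ?_) ab2
    field_simp
  · obtain ⟨k1, a, ha, b, hb, hab⟩ := (hS2 n).1 hn
    have k2 := mem_Ioc.1 k1
    have ka := hA2 a ha
    have kb := hB2 b hb
    have hccn : cc n = c := PP_cc ka.2.2.1 kb.2.2.1 (by omega) (by omega) hc hab.symm
    refine ⟨k2.1, k2.2, hccn, a, b, ka.2.2.1, kb.2.2.1, by rw [hccn]; exact hab.symm, by omega, by omega, ?_⟩
    intro i l hl hli
    by_contra hcon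
    rw [not_lt] at hcon
    have hlx : (l : ℝ) ≤ (x : ℝ) ^ δ := by
      refine hcon.trans ?_
      exact Real.rpow_le_rpow (by positivity) (by exact_mod_cast k2.2) hδ.le
    obtain ⟨a1, a2⟩ := ka.2.2.2 l hl (hpA l hlx)
    obtain ⟨b1, b2⟩ := kb.2.2.2 l hl (hpB l hlx)
    fin_cases i
    · exact a1 hli
    · have h3 : (l : ℤ) ∣ (a : ℤ) - d₁ := hli
      rcases he₁d with h | h
      · rw [h] at a2
        exact a2 h3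
      · rw [h, sub_zero] at h3
        exact a1 h3
    · exact b1 hli
    · have h3 : (l : ℤ) ∣ (b : ℤ) + d₂ := hli
      rcases he₂d with h | h
      · rw [h, sub_neg_eq_add] at b2
        exact b2 h3
      · rw [h, add_zero] at h3
        exact b1 h3

end Pool.Agent.H63.SG
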