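import Pool.Agent.H63.SG.Cor1
import Pool.Agent.H63.SG.Loc

/-!
# ROW Q0: `q` is prime

PROOF. `δ₁, κ₁, X0` from `core1`; take `δ = δ₁ / 2`, `κ = κ₁ / 8`. Given `K, d₁, d₂`; let `n` be large, `c = cc n` (`c = 1` or `2`, `n - c` even... `n ≡ c - 1 mod 2`), `q₀` from `Loc_q`,
`x = n / 4`, `y = n / 8` (natural division; `y ≤ x`, `x ≤ 8 (x - y)`, `x ≤ 8 y`), `a = q₀`, classes `u₁ l = n * c⁻¹`, `u₂ l = (n - d₁) * c⁻¹`, `u₃ l = - d₂` in `ZMod l` (`ZMod l` has an `Inv` for all `l`).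
`F = ` image of the set of `core1` under `t ↦ (n - c t, t)` (injective: second component). For `t` in it: `p = n - c t ≥ n / 2` (`c ≤ 2`, `4 t ≤ n`), so `p ≥ t + K` and `t ≥ n / 8 ≥ K` for large `n`.
Prime factors `l` of the four numbers `p = n - c t`, `p - d₁`, `q = t`, `q + d₂`: if `l ≤ 12` then `l ∣ 4620 ∣ t - q₀`, contradiction with `Loc_q`. If `12 < l ≤ n^δ` then (`n^δ ≤ x^δ₁` for large `n`, as
`x ≥ n/5 ≥ n^(1/2)`) `l ∣ t` is impossible (`t` prime, `t > y ≥ n^δ`), and in the field `ZMod l` (`c ≠ 0`, `l` odd): `l ∣ n - c t` gives `t = n c⁻¹`, `l ∣ n - c t - d₁` gives `t = (n - d₁) c⁻¹`, `l ∣ t + d₂` gives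
`t = - d₂`. Count: `κ₁ x/(log x)^4 ≥ κ₁ (n/8)/(log n)^4`.
-/

set_option autoImplicit false

namespace Pool.Agent.H63.SG

/-- primes up to `12` divide `4620` -/
theorem Q0_small {l : ℕ} (hl : l.Prime) (h : l ≤ 12) : (l : ℤ) ∣ 4620 := by
  have h1 : l ∣ 4620 := by
    interval_cases l <;> first | decide | (exfalso; revert hl; decide)
  exact_mod_cast h1

/-- real powers for large `n` -/
theorem Q0_pow {δ : ℝ} (hδ : 0 < δ) (hδ1 : δ ≤ 1 / 8) {n : ℕ} (hn : 10000 ≤ n) :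
    (n : ℝ) ^ (δ / 2) ≤ ((n / 4 : ℕ) : ℝ) ^ δ ∧ (n : ℝ) ^ (δ / 2) < ((n / 8 : ℕ) : ℝ) := by
  have hn' : (10000 : ℝ) ≤ n := by exact_mod_cast hn
  have hn0 : (0 : ℝ) ≤ n := by linarith
  have h0 : (n : ℝ) ^ (δ / 2) = (Real.sqrt n) ^ δ := by
    rw [Real.sqrt_eq_rpow, ← Real.rpow_mul hn0]
    congr 1
    ring
  have hs : Real.sqrt n ≤ (n : ℝ) / 100 := by
    rw [Real.sqrt_le_left (by linarith)]
    nlinarith
  have hs1 : 1 ≤ Real.sqrt n := by
    rw [Real.one_le_sqrt]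
    linarith
  have h4 : (n : ℝ) / 100 ≤ ((n / 4 : ℕ) : ℝ) := by
    have : n ≤ 4 * (n / 4) + 3 := by omega
    have : (n : ℝ) ≤ 4 * ((n / 4 : ℕ) : ℝ) + 3 := by exact_mod_cast this
    linarith
  have h8 : (n : ℝ) / 100 < ((n / 8 : ℕ) : ℝ) := by
    have : n ≤ 8 * (n / 8) + 7 := by omega
    have : (n : ℝ) ≤ 8 * ((n / 8 : ℕ) : ℝ) + 7 := by exact_mod_cast this
    linarith
  rw [h0]
  refine ⟨Real.rpow_le_rpow (Real.sqrt_nonneg _) (hs.trans h4) hδ.le, ?_⟩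
  calc Real.sqrt n ^ δ ≤ Real.sqrt n ^ (1 : ℝ) := Real.rpow_le_rpow_of_exponent_le hs1 (by linarith)
    _ = Real.sqrt n := Real.rpow_one _
    _ ≤ _ := hs
    _ < _ := h8

/-- the count -/
theorem Q0_cnt {κ : ℝ} (hκ : 0 < κ) {n : ℕ} (hn : 10000 ≤ n) :
    κ / 8 * ((n : ℝ) / Real.log n ^ 4) ≤ κ * (((n / 4 : ℕ) : ℝ) / Real.log ((n / 4 : ℕ) : ℝ) ^ 4) := by
  have hn' : (10000 : ℝ) ≤ n := by exact_mod_cast hn
  have h4 : (n : ℝ) / 8 ≤ ((n / 4 : ℕ) : ℝ) := by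
    have : n ≤ 8 * (n / 4) := by omega
    have : (n : ℝ) ≤ 8 * ((n / 4 : ℕ) : ℝ) := by exact_mod_cast this
    linarith
  have h5 : ((n / 4 : ℕ) : ℝ) ≤ n := by exact_mod_cast Nat.div_le_self n 4
  have hx : (1 : ℝ) < ((n / 4 : ℕ) : ℝ) := by linarith
  have hl : 0 < Real.log ((n / 4 : ℕ) : ℝ) := Real.log_pos hx
  have hll : Real.log ((n / 4 : ℕ) : ℝ) ≤ Real.log n := Real.log_le_log (by linarith) h5
  have h6 : (n : ℝ) / 8 / Real.log n ^ 4 ≤ ((n / 4 : ℕ) : ℝ) / Real.log ((n / 4 : ℕ) : ℝ) ^ 4 :=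
    div_le_div₀ (by linarith) h4 (pow_pos hl 4) (pow_le_pow_left₀ hl.le hll 4)
  calc κ / 8 * ((n : ℝ) / Real.log n ^ 4) = κ * ((n : ℝ) / 8 / Real.log n ^ 4) := by ring
    _ ≤ _ := mul_le_mul_of_nonneg_left h6 hκ.le

theorem Q0_cc (n : ℕ) : 1 ≤ cc n ∧ cc n ≤ 2 := by
  unfold cc
  split_ifs <;> omega

theorem Q0_inv {l : ℕ} (hl : l.Prime) (h12 : 12 < l) {n t : ℕ} {z : ℤ} (h : (l : ℤ) ∣ z - (cc n : ℤ) * t) :
    (t : ZMod l) = (z : ZMod l) * ((cc n : ℕ) : ZMod l)⁻¹ := by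
  have : Fact l.Prime := ⟨hl⟩
  have hc : ((cc n : ℕ) : ZMod l) ≠ 0 := by
    intro h0
    have h1 : l ∣ cc n := (ZMod.natCast_eq_zero_iff _ _).1 h0
    have h2 := Nat.le_of_dvd (by have := (Q0_cc n).1; omega) h1
    have := (Q0_cc n).2
    omega
  have h1 : ((z - (cc n : ℤ) * t : ℤ) : ZMod l) = 0 := (ZMod.intCast_zmod_eq_zero_iff_dvd _ _).2 h
  push_cast at h1
  have h2 : (z : ZMod l) = ((cc n : ℕ) : ZMod l) * t := by linear_combination h1
  rw [h2, mul_comm ((cc n : ℕ) : ZMod l) (t : ZMod l), mul_assoc, mul_inv_cancel₀ hc, mul_one]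

theorem Q0 : Tgt 2 := by
  obtain ⟨δ₁, hδ0, hδ1, κ₁, hκ, X0, hcore⟩ := core1
  refine ⟨δ₁ / 2, by positivity, κ₁ / 8, by positivity, 10000 + 4 * X0, 8, ?_⟩
  intro K d₁ d₂ h6 h6' n hn
  obtain ⟨q₀, hq₀⟩ := Loc_q n d₁ d₂ h6 h6'
  have hc := Q0_cc n
  obtain ⟨F₀, hF₀, hF⟩ := hcore (n / 4) (n / 8) (by omega) (by omega) (by omega) (by omega) q₀
    (fun l hl hl12 => (hq₀ l hl hl12).1)
    (fun l => (((n : ℤ)) : ZMod l) * ((cc n : ℕ) : ZMod l)⁻¹)
    (fun l => (((n : ℤ) - d₁ : ℤ) : ZMod l) * ((cc n : ℕ) : ZMod l)⁻¹)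
    (fun l => ((-d₂ : ℤ) : ZMod l))
  refine ⟨F₀.image (fun t => (n - cc n * t, t)), ?_, ?_⟩
  · rw [Finset.card_image_of_injective _ (fun a b h => (Prod.mk.inj h).2)]
    exact (Q0_cnt hκ (by omega)).trans hF₀
  · intro e he
    obtain ⟨t, ht, rfl⟩ := Finset.mem_image.1 he
    obtain ⟨h1, h2, h3, h4, h5⟩ := hF t ht
    have hct : cc n * t ≤ 2 * t := Nat.mul_le_mul_right t hc.2
    have hcast : ((n - cc n * t : ℕ) : ℤ) = (n : ℤ) - (cc n : ℤ) * t := by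
      rw [Nat.cast_sub (by omega)]
      push_cast
      ring
    refine ⟨?_, ?_, ?_, ?_, ?_⟩
    · show n = (n - cc n * t) + cc n * t
      omega
    · show t + K ≤ n - cc n * t
      omega
    · show K ≤ t
      omega
    · have : Quad d₁ d₂ (n - cc n * t) t 2 = (t : ℤ) := rfl
      show (Quad d₁ d₂ (n - cc n * t) t 2).natAbs.Prime
      rw [this, Int.natAbs_natCast]
      exact h3
    · intro i l hl hdvd
      by_contra hlt
      rw [not_lt] at hlt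
      obtain ⟨hp1, hp2⟩ := Q0_pow hδ0 hδ1 (n := n) (by omega)
      rcases Nat.lt_or_ge 12 l with h12 | h12
      · obtain ⟨e1, e2, e3⟩ := h5 l hl h12 (hlt.trans hp1)
        fin_cases i
        · have hd : (l : ℤ) ∣ (n : ℤ) - (cc n : ℤ) * t := by
            rw [← hcast]; exact hdvd
          exact e1 (Q0_inv hl h12 hd)
        · have hd : (l : ℤ) ∣ ((n : ℤ) - d₁) - (cc n : ℤ) * t := by
            have h' : (l : ℤ) ∣ ((n - cc n * t : ℕ) : ℤ) - d₁ := hdvd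
            rw [hcast] at h'
            have e : ((n : ℤ) - d₁) - (cc n : ℤ) * t = (n : ℤ) - (cc n : ℤ) * t - d₁ := by ring
            rw [e]; exact h'
          exact e2 (Q0_inv hl h12 hd)
        · have hd : (l : ℤ) ∣ (t : ℤ) := hdvd
          have hd' : l ∣ t := by exact_mod_cast hd
          have hlt' : l = t := (Nat.prime_dvd_prime_iff_eq hl h3).1 hd'
          have hh : ((n / 8 : ℕ) : ℝ) < (t : ℝ) := by exact_mod_cast h1
          rw [hlt'] at hlt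
          linarith
        · have hd : (l : ℤ) ∣ (t : ℤ) + d₂ := hdvd
          have h' : (((t : ℤ) + d₂ : ℤ) : ZMod l) = 0 := (ZMod.intCast_zmod_eq_zero_iff_dvd _ _).2 hd
          push_cast at h'
          apply e3
          push_cast
          linear_combination h'
      · obtain ⟨g1, g2, g3, g4⟩ := hq₀ l hl h12
        have hdt : (l : ℤ) ∣ (t : ℤ) - q₀ := (Q0_small hl h12).trans h4
        fin_cases i
        · have hd : (l : ℤ) ∣ (n : ℤ) - (cc n : ℤ) * t := by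
            rw [← hcast]; exact hdvd
          apply g3
          have := dvd_add hd (hdt.mul_left (cc n : ℤ))
          have e : (n : ℤ) - (cc n : ℤ) * q₀ = (n : ℤ) - (cc n : ℤ) * t + (cc n : ℤ) * ((t : ℤ) - q₀) := by ring
          rw [e]; exact this
        · have hd : (l : ℤ) ∣ (n : ℤ) - (cc n : ℤ) * t - d₁ := by
            rw [← hcast]; exact hdvd
          apply g4
          have := dvd_add hd (hdt.mul_left (cc n : ℤ))
          have e : (n : ℤ) - (cc n : ℤ) * q₀ - d₁ = (n : ℤ) - (cc n : ℤ) * t - d₁ + (cc n : ℤ) * ((t : ℤ) - q₀) := by ring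
          rw [e]; exact this
        · have hd : (l : ℤ) ∣ (t : ℤ) := hdvd
          apply g1
          have := dvd_sub hd hdt
          have e : q₀ = (t : ℤ) - ((t : ℤ) - q₀) := by ring
          rw [e]; exact this
        · have hd : (l : ℤ) ∣ (t : ℤ) + d₂ := hdvd
          apply g2
          have := dvd_sub hd hdt
          have e : q₀ + d₂ = (t : ℤ) + d₂ - ((t : ℤ) - q₀) := by ring
          rw [e]; exact this

end Pool.Agent.H63.SG
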