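import Pool.Agent.H63.SG.Up
import Pool.Agent.H63.SG.Av2
import Pool.Agent.H63.SG.Df

/-!
# The number of representations by rough numbers
-/

set_option autoImplicit false

open Finset

namespace Pool.Agent.H63.SG

/-- the four numbers `n`, `n - e₁`, `n + c e₂`, `n + c e₂ - e₁` minus `n` -/
def Sv (e₁ e₂ : ℤ) (c : ℕ) : Fin 4 → ℤ := ![0, -e₁, c * e₂, c * e₂ - e₁]

theorem Rn_union (S T : Finset ℕ) : ∏ l ∈ S ∪ T, (1 + 6 / (l : ℝ)) ≤ (∏ l ∈ S, (1 + 6 / (l : ℝ))) * ∏ l ∈ T, (1 + 6 / (l : ℝ)) := by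
  rw [← prod_union_inter]
  have h1 : (1 : ℝ) ≤ ∏ l ∈ S ∩ T, (1 + 6 / (l : ℝ)) := by
    calc (1 : ℝ) = ∏ l ∈ S ∩ T, (1 : ℝ) := by rw [prod_const_one]
      _ ≤ _ := prod_le_prod (fun _ _ => zero_le_one) (fun l _ => by
        have : (0 : ℝ) ≤ 6 / (l : ℝ) := by positivity
        linarith)
  have h2 : (0 : ℝ) ≤ ∏ l ∈ S ∪ T, (1 + 6 / (l : ℝ)) := prod_nonneg (fun l _ => by positivity)
  exact le_mul_of_one_le_right h2 h1

theorem HH_pos (m : ℤ) : 0 < HH m := prod_pos (fun l _ => by positivity)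

theorem Rn_bad (a b c d e f : ℤ) :
    ∏ l ∈ (a.natAbs.primeFactors ∪ (b.natAbs.primeFactors ∪ (c.natAbs.primeFactors ∪ (d.natAbs.primeFactors ∪
      (e.natAbs.primeFactors ∪ f.natAbs.primeFactors))))).filter (fun l => l.Prime ∧ 12 < l), (1 + 6 / (l : ℝ)) ≤
      HH a * (HH b * (HH c * (HH d * (HH e * HH f)))) := by
  have hfil : ∀ m : ℤ, m.natAbs.primeFactors.filter (fun l => l.Prime ∧ 12 < l) = m.natAbs.primeFactors.filter (fun l => 12 < l) := by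
    intro m
    apply filter_congr
    intro l hl
    have := Nat.prime_of_mem_primeFactors hl
    tauto
  have h0 : ∀ S : Finset ℕ, (0 : ℝ) ≤ ∏ l ∈ S, (1 + 6 / (l : ℝ)) := fun S => prod_nonneg (fun l _ => by positivity)
  have hU : ∀ (m : ℤ) (S : Finset ℕ) (B : ℝ), ∏ l ∈ S.filter (fun l => l.Prime ∧ 12 < l), (1 + 6 / (l : ℝ)) ≤ B →
      ∏ l ∈ (m.natAbs.primeFactors ∪ S).filter (fun l => l.Prime ∧ 12 < l), (1 + 6 / (l : ℝ)) ≤ HH m * B := by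
    intro m S B hB
    rw [filter_union, hfil]
    refine (Rn_union _ _).trans ?_
    exact mul_le_mul_of_nonneg_left hB (HH_pos m).le
  refine hU a _ _ (hU b _ _ (hU c _ _ (hU d _ _ (hU e _ _ ?_))))
  rw [hfil]
  exact le_rfl

theorem Rn_dvd {l : ℕ} {z : ℤ} (h : (z : ZMod l) = 0) : (l : ℤ) ∣ z := (ZMod.intCast_zmod_eq_zero_iff_dvd z l).1 h

theorem Rn_mem {l : ℕ} {z : ℤ} (hl : l.Prime) (hz : z ≠ 0) (h : (z : ZMod l) = 0) : l ∈ z.natAbs.primeFactors := by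
  rw [Nat.mem_primeFactors]
  exact ⟨hl, Int.natCast_dvd.1 (Rn_dvd h), Int.natAbs_ne_zero.2 hz⟩

theorem Rn_inv {l : ℕ} (hl : l.Prime) (hl12 : 12 < l) {c : ℕ} (hc : c = 1 ∨ c = 2) : ((c : ℕ) : ZMod l) ≠ 0 := by
  rw [Ne, ZMod.natCast_eq_zero_iff]
  intro h
  have := Nat.le_of_dvd (by omega) h
  omega

/-- the four classes -/
def Uv (e₁ e₂ : ℤ) (c n : ℕ) (i : Fin 4) (l : ℕ) : ZMod l :=
  (![(0 : ZMod l), ((-e₂ : ℤ) : ZMod l), ((n : ℤ) : ZMod l) * (c : ZMod l)⁻¹, (((n : ℤ) - e₁ : ℤ) : ZMod l) * (c : ZMod l)⁻¹]) i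

theorem Rn_inj {e₁ e₂ : ℤ} {c n l : ℕ} (hl : l.Prime) (hl12 : 12 < l) (hc : c = 1 ∨ c = 2) (he₁ : e₁ ≠ 0) (he₂ : e₂ ≠ 0)
    (hs : ∀ i, (n : ℤ) + Sv e₁ e₂ c i ≠ 0)
    (h : l ∉ e₁.natAbs.primeFactors ∪ (e₂.natAbs.primeFactors ∪ (((n : ℤ) + Sv e₁ e₂ c 0).natAbs.primeFactors ∪
      (((n : ℤ) + Sv e₁ e₂ c 1).natAbs.primeFactors ∪ (((n : ℤ) + Sv e₁ e₂ c 2).natAbs.primeFactors ∪
        ((n : ℤ) + Sv e₁ e₂ c 3).natAbs.primeFactors))))) : Function.Injective (fun i => Uv e₁ e₂ c n i l) := by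
  haveI : Fact l.Prime := ⟨hl⟩
  simp only [mem_union, not_or] at h
  obtain ⟨h1, h2, h3, h4, h5, h6⟩ := h
  have hci := Rn_inv hl hl12 hc
  have hcc : (c : ZMod l) * (c : ZMod l)⁻¹ = 1 := mul_inv_cancel₀ hci
  have k0 : ((e₁ : ℤ) : ZMod l) ≠ 0 := fun h => h1 (Rn_mem hl he₁ h)
  have k1 : ((e₂ : ℤ) : ZMod l) ≠ 0 := fun h => h2 (Rn_mem hl he₂ h)
  have k2 : ((n : ℤ) : ZMod l) ≠ 0 := fun h => h3 (Rn_mem hl (hs 0) (by
    show (((n : ℤ) + 0 : ℤ) : ZMod l) = 0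
    rw [add_zero]; exact h))
  have k3 : (((n : ℤ) - e₁ : ℤ) : ZMod l) ≠ 0 := fun h => h4 (Rn_mem hl (hs 1) (by
    show (((n : ℤ) + -e₁ : ℤ) : ZMod l) = 0
    rw [← sub_eq_add_neg]; exact h))
  have k4 : (((n : ℤ) + c * e₂ : ℤ) : ZMod l) ≠ 0 := fun h => h5 (Rn_mem hl (hs 2) h)
  have k5 : (((n : ℤ) + (c * e₂ - e₁) : ℤ) : ZMod l) ≠ 0 := fun h => h6 (Rn_mem hl (hs 3) h)
  have d01 : (0 : ZMod l) ≠ ((-e₂ : ℤ) : ZMod l) := by
    intro h
    apply k1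
    rw [Int.cast_neg] at h
    exact neg_eq_zero.1 h.symm
  have d02 : (0 : ZMod l) ≠ ((n : ℤ) : ZMod l) * (c : ZMod l)⁻¹ := by
    intro h
    exact mul_ne_zero k2 (inv_ne_zero hci) h.symm
  have d03 : (0 : ZMod l) ≠ (((n : ℤ) - e₁ : ℤ) : ZMod l) * (c : ZMod l)⁻¹ := by
    intro h
    exact mul_ne_zero k3 (inv_ne_zero hci) h.symm
  have d12 : ((-e₂ : ℤ) : ZMod l) ≠ ((n : ℤ) : ZMod l) * (c : ZMod l)⁻¹ := by
    intro h
    apply k4
    push_cast at h ⊢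
    have h' := congrArg (fun z => z * (c : ZMod l)) h
    simp only [mul_assoc, mul_comm (c : ZMod l)⁻¹ (c : ZMod l), hcc, mul_one] at h'
    linear_combination -h'
  have d13 : ((-e₂ : ℤ) : ZMod l) ≠ (((n : ℤ) - e₁ : ℤ) : ZMod l) * (c : ZMod l)⁻¹ := by
    intro h
    apply k5
    push_cast at h ⊢
    have h' := congrArg (fun z => z * (c : ZMod l)) h
    simp only [mul_assoc, mul_comm (c : ZMod l)⁻¹ (c : ZMod l), hcc, mul_one] at h'
    linear_combination -h'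
  have d23 : ((n : ℤ) : ZMod l) * (c : ZMod l)⁻¹ ≠ (((n : ℤ) - e₁ : ℤ) : ZMod l) * (c : ZMod l)⁻¹ := by
    intro h
    apply k0
    have h' := mul_right_cancel₀ (inv_ne_zero hci) h
    push_cast at h'
    linear_combination h'
  intro i j hij
  fin_cases i <;> fin_cases j
  · rfl
  · exact absurd hij d01
  · exact absurd hij d02
  · exact absurd hij d03
  · exact absurd hij.symm d01
  · rfl
  · exact absurd hij d12
  · exact absurd hij d13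
  · exact absurd hij.symm d02
  · exact absurd hij.symm d12
  · rfl
  · exact absurd hij d23
  · exact absurd hij.symm d03
  · exact absurd hij.symm d13
  · exact absurd hij.symm d23
  · rfl

theorem Rn_bd : ∃ δ₀ : ℝ, 0 < δ₀ ∧ δ₀ ≤ 1 / 8 ∧ ∀ δ : ℝ, 0 < δ → δ ≤ δ₀ → ∃ C : ℝ, 0 < C ∧ ∃ X0 : ℕ, ∀ x : ℕ, X0 ≤ x →
    ∀ (c n : ℕ) (e₁ e₂ : ℤ), (c = 1 ∨ c = 2) → e₁ ≠ 0 → e₂ ≠ 0 → n ≤ x → (∀ i, (n : ℤ) + Sv e₁ e₂ c i ≠ 0) →
    ∀ A B : Finset ℕ, (∀ t ∈ A, ∀ l : ℕ, l.Prime → (l : ℝ) ≤ (x : ℝ) ^ δ → ¬ (l : ℤ) ∣ (t : ℤ) ∧ ¬ (l : ℤ) ∣ (t : ℤ) - e₁) →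
      (∀ t ∈ B, 1 ≤ t ∧ ∀ l : ℕ, l.Prime → (l : ℝ) ≤ (x : ℝ) ^ δ → ¬ (l : ℤ) ∣ (t : ℤ) ∧ ¬ (l : ℤ) ∣ (t : ℤ) - (-e₂)) →
      (((A ×ˢ B).filter (fun e => e.1 + c * e.2 = n)).card : ℝ) ≤
        C * ((x : ℝ) / Real.log x ^ 4) * (HH e₁ * HH e₂) * ∏ i, HH ((n : ℤ) + Sv e₁ e₂ c i) := by
  obtain ⟨δ₀, h1, h2, H⟩ := Up_bd
  refine ⟨δ₀, h1, h2, fun δ hδ hδδ => ?_⟩
  obtain ⟨C, hC, X0, H1⟩ := H δ hδ hδδ
  refine ⟨C, hC, max X0 2, fun x hx c n e₁ e₂ hc he₁ he₂ hn hs A B hA hB => ?_⟩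
  have hx2 : (2 : ℝ) ≤ x := by exact_mod_cast (le_max_right _ _).trans hx
  have hlog : 0 < Real.log x := Real.log_pos (by linarith)
  have hcard : ((A ×ˢ B).filter (fun e => e.1 + c * e.2 = n)).card =
      (((A ×ˢ B).filter (fun e => e.1 + c * e.2 = n)).image Prod.snd).card := by
    rw [card_image_of_injOn]
    rintro ⟨a, b⟩ hab ⟨a', b'⟩ hab' h
    have k1 := (mem_filter.1 (mem_coe.1 hab)).2
    have k2 := (mem_filter.1 (mem_coe.1 hab')).2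
    simp only at k1 k2 h
    subst h
    have : a = a' := by omega
    rw [this]
  rw [hcard]
  have key := H1 x ((le_max_left _ _).trans hx) (Uv e₁ e₂ c n) _
    (fun l hl hl12 _ hbad => Rn_inj hl hl12 hc he₁ he₂ hs hbad)
    (((A ×ˢ B).filter (fun e => e.1 + c * e.2 = n)).image Prod.snd) (by
      intro t ht
      obtain ⟨⟨a, b⟩, hab, rfl⟩ := mem_image.1 ht
      obtain ⟨k1, k2⟩ := mem_filter.1 hab
      obtain ⟨k3, k4⟩ := mem_product.1 k1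
      simp only at k2 k3 k4 ⊢
      have hb := hB b k4
      refine ⟨hb.1, ?_, fun l hl hl12 hlx i => ?_⟩
      · have : b ≤ c * b := Nat.le_mul_of_pos_left b (by omega)
        omega
      · haveI : Fact l.Prime := ⟨hl⟩
        have hci := Rn_inv hl hl12 hc
        have hcc : (c : ZMod l) * (c : ZMod l)⁻¹ = 1 := mul_inv_cancel₀ hci
        have e1 : (n : ℤ) = a + c * b := by exact_mod_cast k2.symm
        have e2 := congrArg (Int.cast : ℤ → ZMod l) e1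
        push_cast at e2
        obtain ⟨b1, b2⟩ := hb.2 l hl hlx
        obtain ⟨a1, a2⟩ := hA a k3 l hl hlx
        fin_cases i
        · intro h
          apply b1
          apply Rn_dvd
          push_cast
          exact h
        · intro h
          apply b2
          apply Rn_dvd
          have h' : (b : ZMod l) = ((-e₂ : ℤ) : ZMod l) := h
          push_cast at h' ⊢
          rw [h']
          ring
        · intro h
          apply a1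
          apply Rn_dvd
          have h' : (b : ZMod l) = ((n : ℤ) : ZMod l) * (c : ZMod l)⁻¹ := h
          have h'' := congrArg (fun z => z * (c : ZMod l)) h'
          simp only [mul_assoc, mul_comm (c : ZMod l)⁻¹ (c : ZMod l), hcc, mul_one] at h''
          push_cast at h'' ⊢
          linear_combination -h'' - e2
        · intro h
          apply a2
          apply Rn_dvd
          have h' : (b : ZMod l) = (((n : ℤ) - e₁ : ℤ) : ZMod l) * (c : ZMod l)⁻¹ := h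
          have h'' := congrArg (fun z => z * (c : ZMod l)) h'
          simp only [mul_assoc, mul_comm (c : ZMod l)⁻¹ (c : ZMod l), hcc, mul_one] at h''
          push_cast at h'' ⊢
          linear_combination -h'' - e2)
  refine key.trans ?_
  rw [mul_assoc (C * ((x : ℝ) / Real.log x ^ 4))]
  refine mul_le_mul_of_nonneg_left ?_ (by positivity)
  refine (Rn_bad e₁ e₂ _ _ _ _).trans (le_of_eq ?_)
  rw [Fin.prod_univ_four]
  ring

end Pool.Agent.H63.SG
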