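import Pool.Agent.H63.SG.Rn
import Pool.Agent.H63.SG.UpU

/-!
# The number of representations by rough numbers, with the exact factor at the primes which divide `e₁`, `e₂`
-/

set_option autoImplicit false

open Finset

namespace Pool.Agent.H63.SG

theorem RnU_bad (c d e f : ℤ) :
    ∏ l ∈ (c.natAbs.primeFactors ∪ (d.natAbs.primeFactors ∪
      (e.natAbs.primeFactors ∪ f.natAbs.primeFactors))).filter (fun l => l.Prime ∧ 12 < l), (1 + 6 / (l : ℝ)) ≤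
      HH c * (HH d * (HH e * HH f)) := by
  have hfil : ∀ m : ℤ, m.natAbs.primeFactors.filter (fun l => l.Prime ∧ 12 < l) = m.natAbs.primeFactors.filter (fun l => 12 < l) := by
    intro m
    apply filter_congr
    intro l hl
    have := Nat.prime_of_mem_primeFactors hl
    tauto
  have hU : ∀ (m : ℤ) (S : Finset ℕ) (B : ℝ), ∏ l ∈ S.filter (fun l => l.Prime ∧ 12 < l), (1 + 6 / (l : ℝ)) ≤ B →
      ∏ l ∈ (m.natAbs.primeFactors ∪ S).filter (fun l => l.Prime ∧ 12 < l), (1 + 6 / (l : ℝ)) ≤ HH m * B := by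
    intro m S B hB
    rw [filter_union, hfil]
    refine (Rn_union _ _).trans ?_
    exact mul_le_mul_of_nonneg_left hB (HH_pos m).le
  refine hU c _ _ (hU d _ _ (hU e _ _ ?_))
  rw [hfil]
  exact le_rfl

theorem RnU_two {α : Type*} [DecidableEq α] (u : Fin 4 → α) (i j : Fin 4) (h : u i ≠ u j) : 2 ≤ (univ.image u).card := by
  rw [← card_pair h]
  apply card_le_card
  intro a ha
  simp only [mem_insert, mem_singleton] at ha
  rcases ha with rfl | rfl <;> exact mem_image_of_mem _ (mem_univ _)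

theorem RnU_three {α : Type*} [DecidableEq α] (u : Fin 4 → α) (i j k : Fin 4) (h1 : u i ≠ u j) (h2 : u i ≠ u k) (h3 : u j ≠ u k) :
    3 ≤ (univ.image u).card := by
  rw [← card_eq_three.2 ⟨u i, u j, u k, h1, h2, h3, rfl⟩]
  apply card_le_card
  intro a ha
  simp only [mem_insert, mem_singleton] at ha
  rcases ha with rfl | rfl | rfl <;> exact mem_image_of_mem _ (mem_univ _)

theorem RnU_four {α : Type*} [DecidableEq α] (u : Fin 4 → α) (h : Function.Injective u) : 4 ≤ (univ.image u).card := by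
  rw [card_image_of_injective _ h]
  simp

theorem RnU_cls {e₁ e₂ : ℤ} {c n l : ℕ} (hl : l.Prime) (hl12 : 12 < l) (hc : c = 1 ∨ c = 2) (he₁ : e₁ ≠ 0) (he₂ : e₂ ≠ 0)
    (hs : ∀ i, (n : ℤ) + Sv e₁ e₂ c i ≠ 0)
    (h : l ∉ (((n : ℤ) + Sv e₁ e₂ c 0).natAbs.primeFactors ∪
      (((n : ℤ) + Sv e₁ e₂ c 1).natAbs.primeFactors ∪ (((n : ℤ) + Sv e₁ e₂ c 2).natAbs.primeFactors ∪
        ((n : ℤ) + Sv e₁ e₂ c 3).natAbs.primeFactors)))) {a b : ℕ} (ha : (l : ℤ) ∣ e₁ → a = 1) (hb : (l : ℤ) ∣ e₂ → b = 1) :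
      4 ≤ (univ.image (fun i => Uv e₁ e₂ c n i l)).card + a + b := by
  haveI : Fact l.Prime := ⟨hl⟩
  have h' := h
  simp only [mem_union, not_or] at h
  obtain ⟨h3, h4, h5, h6⟩ := h
  have hci := Rn_inv hl hl12 hc
  have hcc : (c : ZMod l) * (c : ZMod l)⁻¹ = 1 := mul_inv_cancel₀ hci
  have k2 : ((n : ℤ) : ZMod l) ≠ 0 := fun h => h3 (Rn_mem hl (hs 0) (by
    show (((n : ℤ) + 0 : ℤ) : ZMod l) = 0
    rw [add_zero]; exact h))
  have k3 : (((n : ℤ) - e₁ : ℤ) : ZMod l) ≠ 0 := fun h => h4 (Rn_mem hl (hs 1) (by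
    show (((n : ℤ) + -e₁ : ℤ) : ZMod l) = 0
    rw [← sub_eq_add_neg]; exact h))
  have k4 : (((n : ℤ) + c * e₂ : ℤ) : ZMod l) ≠ 0 := fun h => h5 (Rn_mem hl (hs 2) h)
  have d02 : (0 : ZMod l) ≠ ((n : ℤ) : ZMod l) * (c : ZMod l)⁻¹ := by
    intro h
    exact mul_ne_zero k2 (inv_ne_zero hci) h.symm
  have d03 : (0 : ZMod l) ≠ (((n : ℤ) - e₁ : ℤ) : ZMod l) * (c : ZMod l)⁻¹ := by
    intro h
    exact mul_ne_zero k3 (inv_ne_zero hci) h.symm
  have d12 : ((-e₂ : ℤ) : ZMod l) ≠ ((n : ℤ) : ZMod l) * (c : ZMod l)⁻¹ := by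
    intro h
    apply k4
    push_cast at h ⊢
    have h' := congrArg (fun z => z * (c : ZMod l)) h
    simp only [mul_assoc, mul_comm (c : ZMod l)⁻¹ (c : ZMod l), hcc, mul_one] at h'
    linear_combination -h'
  have d01 : ¬ (l : ℤ) ∣ e₂ → (0 : ZMod l) ≠ ((-e₂ : ℤ) : ZMod l) := by
    intro k h
    apply k
    apply Rn_dvd
    rw [Int.cast_neg] at h
    exact neg_eq_zero.1 h.symm
  have d23 : ¬ (l : ℤ) ∣ e₁ → ((n : ℤ) : ZMod l) * (c : ZMod l)⁻¹ ≠ (((n : ℤ) - e₁ : ℤ) : ZMod l) * (c : ZMod l)⁻¹ := by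
    intro k h
    apply k
    apply Rn_dvd
    have h' := mul_right_cancel₀ (inv_ne_zero hci) h
    push_cast at h'
    linear_combination h'
  by_cases g1 : (l : ℤ) ∣ e₁
  · by_cases g2 : (l : ℤ) ∣ e₂
    · rw [ha g1, hb g2]
      have := RnU_two (fun i => Uv e₁ e₂ c n i l) 0 2 d02
      omega
    · rw [ha g1]
      have := RnU_three (fun i => Uv e₁ e₂ c n i l) 0 1 2 (d01 g2) d02 d12
      omega
  · by_cases g2 : (l : ℤ) ∣ e₂
    · rw [hb g2]
      have := RnU_three (fun i => Uv e₁ e₂ c n i l) 0 2 3 d02 d03 (d23 g1)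
      omega
    · have hinj := Rn_inj (n := n) hl hl12 hc he₁ he₂ hs (by
        rw [mem_union, not_or, mem_union, not_or]
        refine ⟨fun h => g1 ?_, fun h => g2 ?_, h'⟩
        · exact Int.natCast_dvd.2 (Nat.dvd_of_mem_primeFactors h)
        · exact Int.natCast_dvd.2 (Nat.dvd_of_mem_primeFactors h))
      have := RnU_four (fun i => Uv e₁ e₂ c n i l) hinj
      omega

theorem RnU_bd : ∃ δ₀ : ℝ, 0 < δ₀ ∧ δ₀ ≤ 1 / 8 ∧ ∀ δ : ℝ, 0 < δ → δ ≤ δ₀ → ∃ C : ℝ, 0 < C ∧ ∃ X0 : ℕ, ∀ x : ℕ, X0 ≤ x →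
    ∀ (c n : ℕ) (e₁ e₂ : ℤ), (c = 1 ∨ c = 2) → e₁ ≠ 0 → e₂ ≠ 0 → n ≤ x → (∀ i, (n : ℤ) + Sv e₁ e₂ c i ≠ 0) →
    ∀ Z₁ Z₂ : Finset ℕ, (∀ l, l ∈ Z₁ ↔ l.Prime ∧ 12 < l ∧ (l : ℝ) ≤ (x : ℝ) ^ δ ∧ (l : ℤ) ∣ e₁) →
      (∀ l, l ∈ Z₂ ↔ l.Prime ∧ 12 < l ∧ (l : ℝ) ≤ (x : ℝ) ^ δ ∧ (l : ℤ) ∣ e₂) →
    ∀ A B : Finset ℕ, (∀ t ∈ A, ∀ l : ℕ, l.Prime → (l : ℝ) ≤ (x : ℝ) ^ δ → ¬ (l : ℤ) ∣ (t : ℤ) ∧ ¬ (l : ℤ) ∣ (t : ℤ) - e₁) →
      (∀ t ∈ B, 1 ≤ t ∧ ∀ l : ℕ, l.Prime → (l : ℝ) ≤ (x : ℝ) ^ δ → ¬ (l : ℤ) ∣ (t : ℤ) ∧ ¬ (l : ℤ) ∣ (t : ℤ) - (-e₂)) →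
      (((A ×ˢ B).filter (fun e => e.1 + c * e.2 = n)).card : ℝ) ≤
        C * ((x : ℝ) / Real.log x ^ 4) * ((∏ l ∈ Z₁, (1 + 1 / (l : ℝ))) * (∏ l ∈ Z₂, (1 + 1 / (l : ℝ)))) *
          ∏ i, HH ((n : ℤ) + Sv e₁ e₂ c i) := by
  classical
  obtain ⟨δ₀, h1, h2, H⟩ := UpU_bd
  refine ⟨δ₀, h1, h2, fun δ hδ hδδ => ?_⟩
  obtain ⟨C, hC, X0, H1⟩ := H δ hδ hδδ
  refine ⟨C, hC, max X0 2, fun x hx c n e₁ e₂ hc he₁ he₂ hn hs Z₁ Z₂ hZ₁ hZ₂ A B hA hB => ?_⟩
  have hx2 : (2 : ℝ) ≤ x := by exact_mod_cast (le_max_right _ _).trans hx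
  have hlog : 0 < Real.log x := Real.log_pos (by linarith)
  have hcard : ((A ×ˢ B).filter (fun e => e.1 + c * e.2 = n)).card =
      (((A ×ˢ B).filter (fun e => e.1 + c * e.2 = n)).image Prod.snd).card := by
    rw [card_image_of_injOn]
    rintro ⟨a, b⟩ hab ⟨a', b'⟩ hab' h
    have k1 := (mem_filter.1 (mem_coe.1 hab)).2
    have k2 := (mem_filter.1 (mem_coe.1 hab')).2
    simp only at k1 k2 h
    subst h
    have : a = a' := by omega
    rw [this]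
  rw [hcard]
  have key := H1 x ((le_max_left _ _).trans hx) (Uv e₁ e₂ c n) Z₁ Z₂ _
    (fun l hl => by
      have := (hZ₁ l).1 hl
      exact ⟨this.1, this.2.1, this.2.2.1⟩)
    (fun l hl => by
      have := (hZ₂ l).1 hl
      exact ⟨this.1, this.2.1, this.2.2.1⟩)
    (fun l hl hl12 hlx hbad => RnU_cls hl hl12 hc he₁ he₂ hs hbad
      (fun h => if_pos ((hZ₁ l).2 ⟨hl, hl12, hlx, h⟩)) (fun h => if_pos ((hZ₂ l).2 ⟨hl, hl12, hlx, h⟩)))
    (((A ×ˢ B).filter (fun e => e.1 + c * e.2 = n)).image Prod.snd) (by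
      intro t ht
      obtain ⟨⟨a, b⟩, hab, rfl⟩ := mem_image.1 ht
      obtain ⟨k1, k2⟩ := mem_filter.1 hab
      obtain ⟨k3, k4⟩ := mem_product.1 k1
      simp only at k2 k3 k4 ⊢
      have hb := hB b k4
      refine ⟨hb.1, ?_, fun l hl hl12 hlx i => ?_⟩
      · have : b ≤ c * b := Nat.le_mul_of_pos_left b (by omega)
        omega
      · haveI : Fact l.Prime := ⟨hl⟩
        have hci := Rn_inv hl hl12 hc
        have hcc : (c : ZMod l) * (c : ZMod l)⁻¹ = 1 := mul_inv_cancel₀ hci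
        have e1 : (n : ℤ) = a + c * b := by exact_mod_cast k2.symm
        have e2 := congrArg (Int.cast : ℤ → ZMod l) e1
        push_cast at e2
        obtain ⟨b1, b2⟩ := hb.2 l hl hlx
        obtain ⟨a1, a2⟩ := hA a k3 l hl hlx
        fin_cases i
        · intro h
          apply b1
          apply Rn_dvd
          push_cast
          exact h
        · intro h
          apply b2
          apply Rn_dvd
          have h' : (b : ZMod l) = ((-e₂ : ℤ) : ZMod l) := h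
          push_cast at h' ⊢
          rw [h']
          ring
        · intro h
          apply a1
          apply Rn_dvd
          have h' : (b : ZMod l) = ((n : ℤ) : ZMod l) * (c : ZMod l)⁻¹ := h
          have h'' := congrArg (fun z => z * (c : ZMod l)) h'
          simp only [mul_assoc, mul_comm (c : ZMod l)⁻¹ (c : ZMod l), hcc, mul_one] at h''
          push_cast at h'' ⊢
          linear_combination -h'' - e2
        · intro h
          apply a2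
          apply Rn_dvd
          have h' : (b : ZMod l) = (((n : ℤ) - e₁ : ℤ) : ZMod l) * (c : ZMod l)⁻¹ := h
          have h'' := congrArg (fun z => z * (c : ZMod l)) h'
          simp only [mul_assoc, mul_comm (c : ZMod l)⁻¹ (c : ZMod l), hcc, mul_one] at h''
          push_cast at h'' ⊢
          linear_combination -h'' - e2)
  refine key.trans ?_
  refine mul_le_mul_of_nonneg_left ?_ (by positivity)
  refine (RnU_bad _ _ _ _).trans (le_of_eq ?_)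
  rw [Fin.prod_univ_four]
  ring

end Pool.Agent.H63.SG
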