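import Pool.Agent.H63.SG.Df

/-!
# ROW Sh: the shifts

PROOF of `Sh1`. `δ₀, κ₀` from `Tgt 0`; `δ = δ₀ / 2`, `κ = κ₀ / 2`. Given `K, d₁, d₂`, apply `Tgt 0` to `K' = K + d₁.natAbs`, `- d₁`, `d₂` and `n' = (n - d₁).toNat` (`n` large; `cc n' = cc n` since `d₁` is even).
`F = ` image of `F'` under `(p', q') ↦ ((p' + d₁).toNat, q')` (injective on `F'`; `p' + d₁ > 0`). With `p = p' + d₁`: `p - d₁ = p'`, `p = p' - (-d₁)`: the four numbers for `(d₁, d₂, p, q)` are the four numbers for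
`(-d₁, d₂, p', q')` with the first two interchanged. `n^δ ≤ n'^δ₀` and `κ n/(log n)^4 ≤ κ₀ n'/(log n')^4` for large `n` (`n/2 ≤ n' ≤ 2 n`; e.g. `n^(δ₀/2) ≤ (n/2)^δ₀` iff `4 ≤ n`; for the second: if `n' ≤ n` then
`log n' ≤ log n` and `n' ≥ n/2`; if `n' > n`: `log n' ≤ log (n + C) ≤ 1.1 log n`, or use that `n/(log n)^4 ≤ 2 n'/(log n')^4` eventually).
PROOF of `Sh3`. The same with `n' = n + cc n * d₂` (`cc n' = cc n`), `- d₂`, `q' = q + d₂`: `n' = p + c q'`.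
-/

set_option autoImplicit false

namespace Pool.Agent.H63.SG

theorem shAn (δ₀ κ₀ : ℝ) (hδ : 0 < δ₀) (hκ : 0 < κ₀) (n n' : ℕ) (hn : 4 ≤ n) (h1 : n ≤ 2 * n')
    (h2 : n' ≤ 2 * n) : (n : ℝ) ^ (δ₀ / 2) ≤ (n' : ℝ) ^ δ₀ ∧
      κ₀ / 32 * ((n : ℝ) / Real.log n ^ 4) ≤ κ₀ * ((n' : ℝ) / Real.log n' ^ 4) := by
  have hn4 : (4 : ℝ) ≤ n := by exact_mod_cast hn
  have h1' : (n : ℝ) ≤ 2 * n' := by exact_mod_cast h1
  have h2' : (n' : ℝ) ≤ 2 * n := by exact_mod_cast h2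
  have hn0 : (0 : ℝ) ≤ n := by linarith
  have hn' : (2 : ℝ) ≤ n' := by linarith
  constructor
  · have e1 : (n : ℝ) ^ (δ₀ / 2) = ((n : ℝ) ^ ((1 : ℝ) / 2)) ^ δ₀ := by
      rw [← Real.rpow_mul hn0]
      congr 1
      ring
    rw [e1]
    refine Real.rpow_le_rpow (Real.rpow_nonneg hn0 _) ?_ hδ.le
    rw [← Real.sqrt_eq_rpow, Real.sqrt_le_left (by linarith)]
    nlinarith
  · have hlog : 0 < Real.log n := Real.log_pos (by linarith)
    have hlog' : 0 < Real.log n' := Real.log_pos (by linarith)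
    have h3 : Real.log n' ≤ 2 * Real.log n := by
      have e2 : 2 * Real.log n = Real.log ((n : ℝ) ^ 2) := by
        rw [Real.log_pow]
        norm_num
      rw [e2]
      refine Real.log_le_log (by linarith) ?_
      nlinarith
    have h4 : Real.log n' ^ 4 ≤ 16 * Real.log n ^ 4 := by
      have h5 : Real.log n' ^ 4 ≤ (2 * Real.log n) ^ 4 := pow_le_pow_left₀ hlog'.le h3 4
      calc Real.log n' ^ 4 ≤ (2 * Real.log n) ^ 4 := h5
        _ = 16 * Real.log n ^ 4 := by ring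
    have h6 : (1 : ℝ) / 32 * ((n : ℝ) / Real.log n ^ 4) ≤ (n' : ℝ) / Real.log n' ^ 4 := by
      have hp : 0 < Real.log n ^ 4 := by positivity
      have hp' : 0 < Real.log n' ^ 4 := by positivity
      rw [div_mul_div_comm, one_mul, div_le_div_iff₀ (by positivity) hp']
      calc (n : ℝ) * Real.log n' ^ 4 ≤ (2 * n') * (16 * Real.log n ^ 4) :=
            mul_le_mul h1' h4 hp'.le (by linarith)
        _ = (n' : ℝ) * (32 * Real.log n ^ 4) := by ring
    have h7 := mul_le_mul_of_nonneg_left h6 hκ.le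
    calc κ₀ / 32 * ((n : ℝ) / Real.log n ^ 4) = κ₀ * (1 / 32 * ((n : ℝ) / Real.log n ^ 4)) := by
          ring
      _ ≤ _ := h7

theorem Sh1 (h : Tgt 0) : Tgt 1 := by
  obtain ⟨δ₀, hδ, κ₀, hκ, N, C, h⟩ := h
  refine ⟨δ₀ / 2, by positivity, κ₀ / 32, by positivity, N + 4, 2 * C + 4,
    fun K d₁ d₂ h1 h2 n hn0 => ?_⟩
  have hS1 : C * (K + d₁.natAbs + (-d₁).natAbs + d₂.natAbs)
      ≤ 2 * (C * (K + d₁.natAbs + d₂.natAbs)) := by
    rw [Int.natAbs_neg, mul_left_comm]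
    exact Nat.mul_le_mul_left C (by omega)
  have hn : N + 4 + 2 * (C * (K + d₁.natAbs + d₂.natAbs)) + 4 * (K + d₁.natAbs + d₂.natAbs) ≤ n := by
    refine le_trans (le_of_eq ?_) hn0
    ring
  obtain ⟨n', hn'⟩ : ∃ n' : ℕ, (n' : ℤ) = n - d₁ := ⟨(n - d₁).toNat, by omega⟩
  obtain ⟨F', hc, hF'⟩ := h (K + d₁.natAbs) (-d₁) d₂ (by omega) h2 n' (by omega)
  obtain ⟨ha, hb⟩ := shAn δ₀ κ₀ hδ hκ n n' (by omega) (by omega) (by omega)
  have hcc : cc n' = cc n := by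
    unfold cc
    have : n' % 2 = n % 2 := by omega
    rw [this]
  refine ⟨F'.image fun e => (((e.1 : ℤ) + d₁).toNat, e.2), ?_, ?_⟩
  · rw [Finset.card_image_of_injOn]
    · exact hb.trans hc
    · intro e he e' he' hee
      have h3 := hF' e he
      have h4 := hF' e' he'
      rw [Prod.mk.injEq] at hee
      apply Prod.ext
      · have h5 := h3.2.1
        have h6 := h4.2.1
        omega
      · exact hee.2
  · intro e he
    rw [Finset.mem_image] at he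
    obtain ⟨e', he', rfl⟩ := he
    obtain ⟨g1, g2, g3, g4, g5⟩ := hF' e' he'
    have hp : ((((e'.1 : ℤ) + d₁).toNat : ℕ) : ℤ) = (e'.1 : ℤ) + d₁ := by omega
    dsimp only
    generalize ((e'.1 : ℤ) + d₁).toNat = pp at hp
    rw [hcc] at g1
    refine ⟨?_, by omega, by omega, ?_, ?_⟩
    · have g1' : (n' : ℤ) = e'.1 + cc n * e'.2 := by exact_mod_cast g1
      have : (n : ℤ) = (pp : ℤ) + cc n * e'.2 := by rw [hp]; linarith
      exact_mod_cast this
    · have : Quad d₁ d₂ pp e'.2 1 = Quad (-d₁) d₂ e'.1 e'.2 0 := by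
        simp only [Quad, Matrix.cons_val_one, Matrix.cons_val_zero]
        omega
      rw [this]
      exact g4
    · intro i l hl hdvd
      have key : ∃ i' : Fin 4, Quad d₁ d₂ pp e'.2 i = Quad (-d₁) d₂ e'.1 e'.2 i' := by
        fin_cases i
        · exact ⟨1, by simp [Quad]; omega⟩
        · exact ⟨0, by simp [Quad]; omega⟩
        · exact ⟨2, by simp [Quad]⟩
        · exact ⟨3, by simp [Quad]⟩
      obtain ⟨i', hi'⟩ := key
      rw [hi'] at hdvd
      exact ha.trans_lt (g5 i' l hl hdvd)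

theorem Sh3 (h : Tgt 2) : Tgt 3 := by
  obtain ⟨δ₀, hδ, κ₀, hκ, N, C, h⟩ := h
  refine ⟨δ₀ / 2, by positivity, κ₀ / 32, by positivity, N + 4, 2 * C + 4,
    fun K d₁ d₂ h1 h2 n hn0 => ?_⟩
  have hS1 : C * (K + d₂.natAbs + d₁.natAbs + (-d₂).natAbs)
      ≤ 2 * (C * (K + d₁.natAbs + d₂.natAbs)) := by
    rw [Int.natAbs_neg, mul_left_comm]
    exact Nat.mul_le_mul_left C (by omega)
  have hn : N + 4 + 2 * (C * (K + d₁.natAbs + d₂.natAbs)) + 4 * (K + d₁.natAbs + d₂.natAbs) ≤ n := by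
    refine le_trans (le_of_eq ?_) hn0
    ring
  have hcn : cc n = 1 ∨ cc n = 2 := by
    unfold cc
    split_ifs
    · exact Or.inl rfl
    · exact Or.inr rfl
  obtain ⟨n', hn'⟩ : ∃ n' : ℕ, (n' : ℤ) = n + cc n * d₂ :=
    ⟨((n : ℤ) + cc n * d₂).toNat, by rcases hcn with h3 | h3 <;> rw [h3] <;> omega⟩
  obtain ⟨F', hc, hF'⟩ := h (K + d₂.natAbs) d₁ (-d₂) h1 (by omega) n'
    (by rcases hcn with h3 | h3 <;> rw [h3] at hn' <;> omega)
  obtain ⟨ha, hb⟩ := shAn δ₀ κ₀ hδ hκ n n' (by omega)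
    (by rcases hcn with h3 | h3 <;> rw [h3] at hn' <;> omega)
    (by rcases hcn with h3 | h3 <;> rw [h3] at hn' <;> omega)
  have hcc : cc n' = cc n := by
    have : n' % 2 = n % 2 := by rcases hcn with h3 | h3 <;> rw [h3] at hn' <;> omega
    unfold cc
    rw [this]
  refine ⟨F'.image fun e => (e.1, ((e.2 : ℤ) - d₂).toNat), ?_, ?_⟩
  · rw [Finset.card_image_of_injOn]
    · exact hb.trans hc
    · intro e he e' he' hee
      have h3 := hF' e he
      have h4 := hF' e' he'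
      rw [Prod.mk.injEq] at hee
      apply Prod.ext
      · exact hee.1
      · have h5 := h3.2.2.1
        have h6 := h4.2.2.1
        omega
  · intro e he
    rw [Finset.mem_image] at he
    obtain ⟨e', he', rfl⟩ := he
    obtain ⟨g1, g2, g3, g4, g5⟩ := hF' e' he'
    have hp : ((((e'.2 : ℤ) - d₂).toNat : ℕ) : ℤ) = (e'.2 : ℤ) - d₂ := by omega
    dsimp only
    generalize ((e'.2 : ℤ) - d₂).toNat = qq at hp
    rw [hcc] at g1
    refine ⟨?_, by omega, by omega, ?_, ?_⟩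
    · have g1' : (n' : ℤ) = e'.1 + cc n * e'.2 := by exact_mod_cast g1
      have : (n : ℤ) = (e'.1 : ℤ) + cc n * qq := by rw [hp]; linarith
      exact_mod_cast this
    · have : Quad d₁ d₂ e'.1 qq 3 = Quad d₁ (-d₂) e'.1 e'.2 2 := by
        simp [Quad]
        omega
      rw [this]
      exact g4
    · intro i l hl hdvd
      have key : ∃ i' : Fin 4, Quad d₁ d₂ e'.1 qq i = Quad d₁ (-d₂) e'.1 e'.2 i' := by
        fin_cases i
        · exact ⟨0, by simp [Quad]⟩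
        · exact ⟨1, by simp [Quad]⟩
        · exact ⟨3, by simp [Quad]; omega⟩
        · exact ⟨2, by simp [Quad]; omega⟩
      obtain ⟨i', hi'⟩ := key
      rw [hi'] at hdvd
      exact ha.trans_lt (g5 i' l hl hdvd)

end Pool.Agent.H63.SG
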