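import Pool.Agent.H63.SG.Mix

/-!
# Three primes: one shift on average, the other one arbitrary (assembly)
-/

set_option autoImplicit false

open Finset

namespace Pool.Agent.H63.SG

theorem TP_nz (d : ℤ) (h6 : (6 : ℤ) ∣ d) : ∃ e : ℤ, e ≠ 0 ∧ (6 : ℤ) ∣ e ∧ (e = d ∨ d = 0) ∧ e.natAbs ≤ d.natAbs + 6 := by
  by_cases h : d = 0
  · exact ⟨6, by norm_num, dvd_rfl, Or.inr h, by omega⟩
  · exact ⟨d, h, h6, Or.inl rfl, by omega⟩

theorem TP_sgn {e : ℕ} {d : ℤ} (h : d.natAbs = e) : d = e ∨ d = -(e : ℤ) := by omega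

theorem TP : ∃ δ β C : ℝ, 0 < δ ∧ 0 < β ∧ 0 < C ∧ ∃ X0 : ℕ, ∀ x : ℕ, X0 ≤ x → ∀ D : ℕ, C * Real.log x ≤ D → 400 * D ≤ x →
    ∃ G₁ G₂ : Finset ℕ, β * D ≤ (G₁.card : ℝ) ∧ β * D ≤ (G₂.card : ℝ) ∧ (∀ e ∈ G₁, 1 ≤ e ∧ e ≤ D ∧ 6 ∣ e) ∧
      (∀ e ∈ G₂, 1 ≤ e ∧ e ≤ D ∧ 6 ∣ e) ∧ ∀ d₁ d₂ : ℤ, (6 : ℤ) ∣ d₁ → (6 : ℤ) ∣ d₂ → 400 * d₁.natAbs ≤ x → 400 * d₂.natAbs ≤ x →
        (d₁.natAbs ∈ G₁ ∨ d₂.natAbs ∈ G₂) → ∀ c : ℕ, (c = 1 ∨ c = 2) → ∃ S : Finset ℕ, β * x ≤ (S.card : ℝ) ∧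
          ∀ n ∈ S, x / 2 < n ∧ n ≤ x ∧ cc n = c ∧ ∃ p q : ℕ, n = p + cc n * q ∧ q < p ∧ p.Prime ∧ q.Prime ∧ x / 2 < p ∧ x / 16 < q ∧
            (((p : ℤ) - d₁).toNat.Prime ∧ (∀ l : ℕ, l.Prime → (l : ℤ) ∣ (q : ℤ) + d₂ → (n : ℝ) ^ δ < l) ∨
              ((q : ℤ) + d₂).toNat.Prime ∧ (∀ l : ℕ, l.Prime → (l : ℤ) ∣ (p : ℤ) - d₁ → (n : ℝ) ^ δ < l)) := by
  classical
  obtain ⟨C₀, β₀, H0, hC₀, hβ₀, hH0, XG, HG⟩ := GS
  obtain ⟨δA, hδA, hδA1, κ, hκ, XA, HA⟩ := ABU_low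
  obtain ⟨δU, hδU, hδU1, HU⟩ := Mix
  obtain ⟨δ, hδ, hδ1, hδ2⟩ : ∃ δ : ℝ, 0 < δ ∧ δ ≤ δA / 2 ∧ δ ≤ δU :=
    ⟨min (δA / 2) δU, lt_min (by positivity) hδU, min_le_left _ _, min_le_right _ _⟩
  have hδ8 : δ ≤ 1 / 8 := hδ2.trans hδU1
  obtain ⟨CU, hCU, XU, HU1⟩ := HU δ hδ hδ2
  have hab0 : 0 < ((β₀ / 20 / H0) * (κ / 20)) ^ 2 / CU := by positivity
  obtain ⟨β, hβ, hβ1, hβ2⟩ : ∃ β : ℝ, 0 < β ∧ β ≤ β₀ ∧ β ≤ ((β₀ / 20 / H0) * (κ / 20)) ^ 2 / CU :=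
    ⟨min β₀ (((β₀ / 20 / H0) * (κ / 20)) ^ 2 / CU), lt_min hβ₀ hab0, min_le_left _ _, min_le_right _ _⟩
  refine ⟨δ, β, C₀, hδ, hβ, hC₀, 10 * XG + 10 * XA + XU + 2000, fun x hx D hD hDx => ?_⟩
  have hxr : (2000 : ℝ) ≤ x := by
    have : 2000 ≤ x := by omega
    exact_mod_cast this
  have hx0 : (0 : ℝ) < x := by linarith
  have hlog : 0 < Real.log x := Real.log_pos (by linarith)
  have hDle : ∀ x' : ℕ, 1 ≤ x' → x' ≤ x → C₀ * Real.log x' ≤ D := by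
    intro x' h1 h2
    refine le_trans ?_ hD
    refine mul_le_mul_of_nonneg_left ?_ hC₀.le
    exact Real.log_le_log (by exact_mod_cast h1) (by exact_mod_cast h2)
  obtain ⟨G₁, hG₁, hG₁'⟩ := HG (3 * x / 4) (x / 2) (by omega) (by omega) (by omega) (by omega) D (hDle _ (by omega) (by omega)) (by omega)
  obtain ⟨G₂, hG₂, hG₂'⟩ := HG (x / 8) (x / 16) (by omega) (by omega) (by omega) (by omega) D (hDle _ (by omega) (by omega)) (by omega)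
  have hD0 : (0 : ℝ) ≤ D := Nat.cast_nonneg _
  have hpA : ∀ l : ℕ, (l : ℝ) ≤ (x : ℝ) ^ δ → (l : ℝ) ≤ ((3 * x / 4 : ℕ) : ℝ) ^ δA := by
    intro l hl
    refine hl.trans ?_
    refine le_trans ?_ (PP_pow (n := x) hδA (by omega) (by omega))
    exact Real.rpow_le_rpow_of_exponent_le (by linarith) hδ1
  have hpB : ∀ l : ℕ, (l : ℝ) ≤ (x : ℝ) ^ δ → (l : ℝ) ≤ ((x / 8 : ℕ) : ℝ) ^ δA := by
    intro l hl
    refine hl.trans ?_
    refine le_trans ?_ (PP_pow (n := x) hδA (by omega) (by omega))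
    exact Real.rpow_le_rpow_of_exponent_le (by linarith) hδ1
  -- the size of a set of primes with prime shift
  have hsz : ∀ (x' M : ℕ) (d : ℤ), x' ≤ x → x ≤ 20 * x' → HH d ≤ H0 → β₀ * ((x' : ℝ) / Real.log x' ^ 2) ≤ (M : ℝ) →
      β₀ / 20 / H0 * ((x : ℝ) / Real.log x ^ 2) * ∏ l ∈ ZZ d ((x : ℝ) ^ δ), (1 + 1 / (l : ℝ)) ≤ (M : ℝ) := by
    intro x' M d h1 h2 h3 h4
    have h5 : ∏ l ∈ ZZ d ((x : ℝ) ^ δ), (1 + 1 / (l : ℝ)) ≤ H0 := (ZZ_HH d _).trans h3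
    have h6 := (PP_cnt (n := x) hβ₀ (by omega) h2 h1).trans h4
    refine le_trans (mul_le_mul_of_nonneg_left h5 (by positivity)) ?_
    refine le_trans (le_of_eq ?_) h6
    field_simp
  have hrg : ∀ (n : ℕ) (l : ℕ), n ≤ x → ¬ (n : ℝ) ^ δ < l → (l : ℝ) ≤ (x : ℝ) ^ δ := by
    intro n l hn h
    rw [not_lt] at h
    exact h.trans (Real.rpow_le_rpow (by positivity) (by exact_mod_cast hn) hδ.le)
  refine ⟨G₁, G₂, (mul_le_mul_of_nonneg_right hβ1 hD0).trans hG₁, (mul_le_mul_of_nonneg_right hβ1 hD0).trans hG₂,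
    fun e he => ⟨(hG₁' e he).1, (hG₁' e he).2.1, (hG₁' e he).2.2.1⟩, fun e he => ⟨(hG₂' e he).1, (hG₂' e he).2.1, (hG₂' e he).2.2.1⟩, ?_⟩
  intro d₁ d₂ h61 h62 hd₁x hd₂x hor c hc
  rcases hor with hor | hor
  · -- `p - d₁` prime
    obtain ⟨g1, g2, g3, g4, g5⟩ := hG₁' _ hor
    have hsg := TP_sgn (d := d₁) rfl
    obtain ⟨A, hA1, hA2⟩ := FP_set (x / 2) (3 * x / 4) d₁.natAbs d₁ hsg
    have hHd₁ : HH d₁ ≤ H0 := by
      rcases hsg with h | h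
      · rw [h]; exact g4
      · rw [h, HH_neg]; exact g4
    have hd₁0 : d₁ ≠ 0 := by omega
    obtain ⟨e₂, he₂, he₂6, he₂d, he₂b⟩ := TP_nz d₂ h62
    obtain ⟨B, hB1, hB2⟩ := HA (x / 8) (x / 16) (by omega) (by omega) (by omega) (by omega) (-e₂) (by
      exact (dvd_neg).2 he₂6) (ZZ e₂ ((x : ℝ) ^ δ)) (by
      intro l hl
      obtain ⟨k1, k2, k3, k4⟩ := (ZZ_mem he₂ _ _).1 hl
      exact ⟨k1, k2, hpB l k3, (dvd_neg).2 k4⟩)
    obtain ⟨S, hS1, hS2⟩ := HU1 x (by omega) d₁ e₂ hd₁0 he₂ (by omega) c hc A B (β₀ / 20 / H0) (κ / 20) (by positivity) (by positivity)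
      (hsz (3 * x / 4) A.card d₁ (by omega) (by omega) hHd₁ (by rw [hA1]; exact g5))
      ((mul_le_mul_of_nonneg_right (PP_cnt (n := x) hκ (by omega) (by omega) (by omega))
        (prod_nonneg (fun l _ => by positivity))).trans hB1)
      (fun t ht => by
        obtain ⟨m1, m2, m3, t', m4, m5, m6, m7⟩ := hA2 t ht
        refine ⟨m1, m2, fun l hl hlx => ⟨FP_rough hδ8 (by omega) (by omega) m1 m3 l hl hlx, ?_⟩⟩
        rw [← m4]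
        exact FP_rough hδ8 (by omega) (by omega) m5 m7 l hl hlx)
      (fun t ht => ⟨by have := hB2 t ht; omega, (hB2 t ht).2.1, fun l hl hlx => (hB2 t ht).2.2.2 l hl (hpB l hlx)⟩)
    refine ⟨S, (mul_le_mul_of_nonneg_right hβ2 hx0.le).trans hS1, fun n hn => ?_⟩
    obtain ⟨k1, a, ha, b, hb, hab⟩ := hS2 n hn
    have k2 := mem_Ioc.1 k1
    obtain ⟨m1, m2, m3, t', m4, m5, m6, m7⟩ := hA2 a ha
    obtain ⟨n1, n2, n3, n4⟩ := hB2 b hb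
    have hccn : cc n = c := PP_cc m3 n3 (by omega) (by omega) hc hab.symm
    refine ⟨k2.1, k2.2, hccn, a, b, by rw [hccn]; exact hab.symm, by omega, m3, n3, m1, n1, Or.inl ⟨?_, fun l hl hli => ?_⟩⟩
    · rw [← m4, Int.toNat_natCast]
      exact m7
    · by_contra hcon
      obtain ⟨b1, b2⟩ := n4 l hl (hpB l (hrg n l k2.2 hcon))
      rcases he₂d with h | h
      · rw [h, sub_neg_eq_add] at b2
        exact b2 hli
      · rw [h, add_zero] at hli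
        exact b1 hli
  · -- `q + d₂` prime
    obtain ⟨g1, g2, g3, g4, g5⟩ := hG₂' _ hor
    have hsg := TP_sgn (d := d₂) rfl
    obtain ⟨B, hB1, hB2⟩ := FP_set (x / 16) (x / 8) d₂.natAbs (-d₂) (by
      rcases hsg with h | h
      · right; omega
      · left; omega)
    have hHd₂ : HH d₂ ≤ H0 := by
      rcases hsg with h | h
      · rw [h]; exact g4
      · rw [h, HH_neg]; exact g4
    have hd₂0 : d₂ ≠ 0 := by omega
    obtain ⟨e₁, he₁, he₁6, he₁d, he₁b⟩ := TP_nz d₁ h61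
    obtain ⟨A, hA1, hA2⟩ := HA (3 * x / 4) (x / 2) (by omega) (by omega) (by omega) (by omega) e₁ he₁6 (ZZ e₁ ((x : ℝ) ^ δ)) (by
      intro l hl
      obtain ⟨k1, k2, k3, k4⟩ := (ZZ_mem he₁ _ _).1 hl
      exact ⟨k1, k2, hpA l k3, k4⟩)
    obtain ⟨S, hS1, hS2⟩ := HU1 x (by omega) e₁ d₂ he₁ hd₂0 (by omega) c hc A B (κ / 20) (β₀ / 20 / H0) (by positivity) (by positivity)
      ((mul_le_mul_of_nonneg_right (PP_cnt (n := x) hκ (by omega) (by omega) (by omega))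
        (prod_nonneg (fun l _ => by positivity))).trans hA1)
      (hsz (x / 8) B.card d₂ (by omega) (by omega) hHd₂ (by rw [hB1]; exact g5))
      (fun t ht => ⟨(hA2 t ht).1, (hA2 t ht).2.1, fun l hl hlx => (hA2 t ht).2.2.2 l hl (hpA l hlx)⟩)
      (fun t ht => by
        obtain ⟨m1, m2, m3, t', m4, m5, m6, m7⟩ := hB2 t ht
        refine ⟨by omega, m2, fun l hl hlx => ⟨FP_rough hδ8 (by omega) (by omega) m1 m3 l hl hlx, ?_⟩⟩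
        rw [← m4]
        exact FP_rough hδ8 (by omega) (by omega) m5 m7 l hl hlx)
    refine ⟨S, ?_, fun n hn => ?_⟩
    · refine (mul_le_mul_of_nonneg_right hβ2 hx0.le).trans (le_trans (le_of_eq ?_) hS1)
      ring
    obtain ⟨k1, a, ha, b, hb, hab⟩ := hS2 n hn
    have k2 := mem_Ioc.1 k1
    obtain ⟨n1, n2, n3, n4⟩ := hA2 a ha
    obtain ⟨m1, m2, m3, t', m4, m5, m6, m7⟩ := hB2 b hb
    have hccn : cc n = c := PP_cc n3 m3 (by omega) (by omega) hc hab.symm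
    refine ⟨k2.1, k2.2, hccn, a, b, by rw [hccn]; exact hab.symm, by omega, n3, m3, n1, m1, Or.inr ⟨?_, fun l hl hli => ?_⟩⟩
    · have e1 : (b : ℤ) + d₂ = (t' : ℤ) := by rw [m4]; ring
      rw [e1, Int.toNat_natCast]
      exact m7
    · by_contra hcon
      obtain ⟨b1, b2⟩ := n4 l hl (hpA l (hrg n l k2.2 hcon))
      rcases he₁d with h | h
      · rw [h] at b2
        exact b2 hli
      · rw [h, sub_zero] at hli
        exact b1 hli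

end Pool.Agent.H63.SG
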